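import Pool.Agent.Lib.MP_2794d1_ag.PG.A1

/-!
A3: the group of the pulled back variation is of finite type. Given `K, m, σ' i` for `V.grp` take the compact set
`mob σ⁻¹ '' K` (`mob_analytic` gives continuity on the half plane: `IsCompact.image_of_continuousOn`), and `σ⁻¹ * σ' i`. If
`T ∈ V.grp` with `mob T (mob (σ' i) w) = mob (σ' i) (w + 1)` then `σ⁻¹ * T * σ ∈ (V.pull σ).grp` works for `σ⁻¹ * σ' i`
(`mob_mob`). If `z` is in the half plane apply the property to `mob σ z`, `g ∈ V.grp`, and use `σ⁻¹ * g * σ`.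
-/

namespace MP2794d1.PG

open Matrix Complex Filter Topology MP2794d1.PC

theorem A3_mem {n : ℕ} (V : PolVHS n) (σ T : Matrix.SpecialLinearGroup (Fin 2) ℝ)
    (hT : T ∈ V.grp) : σ⁻¹ * T * σ ∈ (V.pull σ).grp := by
  rw [pull_mem]
  have : σ * (σ⁻¹ * T * σ) * σ⁻¹ = T := by group
  rw [this]
  exact hT

theorem pull_finiteType {n : ℕ} (V : PolVHS n) (σ : Matrix.SpecialLinearGroup (Fin 2) ℝ)
    (h : FiniteType V.grp) : FiniteType (V.pull σ).grp := by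
  obtain ⟨K, m, σ', hK, hKp, hT, hall⟩ := h
  refine ⟨mob σ⁻¹ '' K, m, fun i => σ⁻¹ * σ' i, ?_, ?_, ?_, ?_⟩
  · refine hK.image_of_continuousOn fun z hz => ?_
    exact (mob_analytic σ⁻¹ z (hKp z hz)).1.continuousAt.continuousWithinAt
  · rintro _ ⟨z, hz, rfl⟩
    exact mob_im_pos _ _ (hKp z hz)
  · intro i
    obtain ⟨T, hTm, hTw⟩ := hT i
    refine ⟨σ⁻¹ * T * σ, A3_mem V σ T hTm, fun w hw => ?_⟩
    have hw1 : 0 < (w + 1).im := by
      rw [Complex.add_im, Complex.one_im, add_zero]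
      exact hw
    show mob (σ⁻¹ * T * σ) (mob (σ⁻¹ * σ' i) w) = mob (σ⁻¹ * σ' i) (w + 1)
    rw [mob_mob _ _ _ hw]
    have e1 : σ⁻¹ * T * σ * (σ⁻¹ * σ' i) = σ⁻¹ * (T * σ' i) := by group
    rw [e1, ← mob_mob _ _ _ hw, ← mob_mob _ _ _ hw, hTw w hw, mob_mob _ _ _ hw1]
  · intro z hz
    obtain ⟨g, hg, h1⟩ := hall (mob σ z) (mob_im_pos σ z hz)
    refine ⟨σ⁻¹ * g * σ, A3_mem V σ g hg, ?_⟩
    have e1 : mob (σ⁻¹ * g * σ) z = mob σ⁻¹ (mob g (mob σ z)) := by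
      rw [mob_mob _ _ _ hz, mob_mob _ _ _ hz, mul_assoc]
    rw [e1]
    rcases h1 with h1 | ⟨i, w, hw1, hw2, h2⟩
    · exact Or.inl ⟨_, h1, rfl⟩
    · refine Or.inr ⟨i, w, hw1, hw2, ?_⟩
      rw [h2]
      exact mob_mob _ _ _ (by linarith)

end MP2794d1.PG
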