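import Pool.Agent.Lib.MP_2794d1_ag.PG.D1
import Pool.Agent.Lib.MP_2794d1_ag.PC.CB3
import Pool.Agent.Lib.MP_2794d1_ag.PC.CB2
import Pool.Agent.Lib.MP_2794d1_ag.PC.SC2

/-!
D2: the core of the count (same proof as `local_count`, PC/CC4, with `num_extrap2` of PC/SC2 and `num_core`). `ν = card κ`
(`κ` empty: `IntRep` impossible, `S = ∅`), `K₀` from `num_extrap2 ν _ C₂`, `k = ⌈K₀ log B⌉₊ + 1`, `n = (k + 1) ^ 2 / (2 ν ^ 2)`. If
`#S ≤ n`: `#S ≤ (k + 1) ^ 2 ≤ K (log B) ^ 4`. Otherwise `S₁ ⊆ S`, `#S₁ = n`, `siegel_hp` gives `c ≠ 0`,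
`|c| ≤ A₁ = (k + 1) ^ 2 B ^ (2 k)`, vanishing at `S₁`; by `hsch` for `S₁`, `A₁`, `liouville_hp`, `num_extrap2`: `c` vanishes at all
points of `S`. Let `A > 0` be the maximum of the `|c i j|` (attained). `hsch` with `S' = S` and `A` gives the hypothesis of `hlb`
with `ε = W ^ (2 k) ((k + 1) ^ 2 A) (1 / 2) ^ #S`; `num_core` gives the bound.
-/

namespace MP2794d1.PG

open Matrix Complex MP2794d1.PC

theorem count_core {ι κ : Type} [Fintype ι] [Fintype κ] (C₂ : ℕ) : ∃ K : ℝ, 0 < K ∧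
    ∀ (L : ℂ → (ι → ℂ) → Prop) (α : Fin 3 → ι) (U : Set ℂ) (S : Finset ℂ) (B W Λ : ℝ),
      2 ≤ B → 1 ≤ W → W ≤ B ^ C₂ → 1 ≤ Λ →
      (∀ z ∈ S, z ∈ U ∧ ∃ v, L z v ∧ IntRep κ B v) →
      (∀ (k : ℕ) (c : Fin (k + 1) → Fin (k + 1) → ℤ) (A : ℝ), 0 ≤ A → (∀ i j, |(c i j : ℝ)| ≤ A) →
        ∀ S' : Finset ℂ, S' ⊆ S → (∀ z ∈ S', ∃ v, L z v ∧ hp k c (v ∘ α) = 0) →
        ∀ z ∈ U, ∀ v, L z v →
          ‖hp k c (v ∘ α)‖ ≤ (W ^ (2 * k) * (((k : ℝ) + 1) ^ 2 * A) * (1 / 2) ^ S'.card) *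
            ‖v‖ ^ (2 * k)) →
      (∀ k : ℕ, 1 ≤ k → ∀ c : Fin (k + 1) → Fin (k + 1) → ℤ, ∀ A : ℝ, 0 < A →
        (∀ i j, |(c i j : ℝ)| ≤ A) → (∃ i j, |(c i j : ℝ)| = A) → ∀ ε : ℝ, 0 ≤ ε →
        (∀ z ∈ U, ∀ v, L z v → ‖hp k c (v ∘ α)‖ ≤ ε * ‖v‖ ^ (2 * k)) →
        A * Real.exp (-(Λ * ((k : ℝ) ^ 3 * Real.log ((k : ℝ) + 1)))) ≤ ε) →
      (S.card : ℝ) ≤ K * Λ * Real.log B ^ 4 := by
  classical
  rcases isEmpty_or_nonempty κ with hκ | hκ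
  · refine ⟨1, one_pos, ?_⟩
    intro L α U S B W Λ hB hW hWB hΛ hS _ _
    have hS0 : S = ∅ := by
      rw [Finset.eq_empty_iff_forall_notMem]
      intro z hz
      obtain ⟨_, v, _, X, w, hw, _⟩ := hS z hz
      exact hw (Subsingleton.elim _ _)
    rw [hS0]
    have : 0 < Real.log B := Real.log_pos (by linarith)
    simp only [Finset.card_empty, Nat.cast_zero]
    positivity
  have hν : 1 ≤ Fintype.card κ := Fintype.card_pos
  set ν := Fintype.card κ with hνd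
  obtain ⟨K₀, hK₀, hext⟩ := num_extrap2 ν hν C₂
  set K₁ : ℝ := K₀ + 4 with hK₁
  obtain ⟨C', hC', hfin⟩ := num_core K₁ C₂ (by linarith)
  refine ⟨C' + 16 * K₁ ^ 2, by positivity, ?_⟩
  intro Lf α U S B W Λ hB hW hWB hΛ hS hsch hlb
  have hL := SC2_logB hB
  set L := Real.log B with hLd
  set k : ℕ := ⌈K₀ * L⌉₊ + 1 with hk
  have hk1 : 1 ≤ k := by omega
  have hkL : K₀ * L ≤ k := by
    have := Nat.le_ceil (K₀ * L)
    rw [hk]; push_cast; linarith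
  have hkU : (k : ℝ) ≤ K₁ * L := by
    have := Nat.ceil_lt_add_one (show 0 ≤ K₀ * L by positivity)
    rw [hk, hK₁]; push_cast; linarith
  set n : ℕ := (k + 1) ^ 2 / (2 * ν ^ 2) with hn
  have hν2 : 0 < 2 * ν ^ 2 := by positivity
  have hn1 : n * (2 * ν ^ 2) ≤ (k + 1) ^ 2 := Nat.div_mul_le_self _ _
  have hn2 : (k + 1) ^ 2 < 2 * ν ^ 2 * (n + 1) := Nat.lt_mul_div_succ _ hν2
  have hL4 : 0 < L ^ 4 := by positivity
  have hΛ0 : 0 < Λ := by linarith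
  rcases le_or_gt S.card n with hSn | hSn
  · have h1 : (S.card : ℝ) ≤ ((k : ℝ) + 1) ^ 2 := by
      have : S.card ≤ (k + 1) ^ 2 := hSn.trans (Nat.div_le_self _ _)
      exact_mod_cast this
    have hk1' : (1 : ℝ) ≤ k := by exact_mod_cast hk1
    have h2 : ((k : ℝ) + 1) ^ 2 ≤ (2 * (K₁ * L)) ^ 2 := by
      apply pow_le_pow_left₀ (by positivity); linarith
    have hL2 : 1 ≤ 4 * L ^ 2 := by
      have : (1 : ℝ) ≤ (2 * L) ^ 2 := one_le_pow₀ (by linarith)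
      calc (1 : ℝ) ≤ (2 * L) ^ 2 := this
        _ = _ := by ring
    calc (S.card : ℝ) ≤ (2 * (K₁ * L)) ^ 2 * 1 := by linarith
      _ ≤ (2 * (K₁ * L)) ^ 2 * (4 * L ^ 2) := mul_le_mul_of_nonneg_left hL2 (by positivity)
      _ = 16 * K₁ ^ 2 * 1 * L ^ 4 := by ring
      _ ≤ (C' + 16 * K₁ ^ 2) * Λ * L ^ 4 := by
          apply mul_le_mul_of_nonneg_right _ hL4.le
          apply mul_le_mul _ hΛ (by norm_num) (by positivity)
          linarith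
  obtain ⟨S₁, hS₁, hS₁c⟩ := Finset.exists_subset_card_eq hSn.le
  have hex : ∀ z : ℂ, ∃ v : ι → ℂ, z ∈ S → Lf z v ∧ IntRep κ B v := by
    intro z
    by_cases hz : z ∈ S
    · obtain ⟨_, v, hv⟩ := hS z hz
      exact ⟨v, fun _ => hv⟩
    · exact ⟨0, fun h => absurd h hz⟩
  choose v hv using hex
  obtain ⟨c, hc, hcA, hc0⟩ := siegel_hp α S₁ v (by linarith : (1 : ℝ) ≤ B)
    (fun s hs => (hv s (hS₁ hs)).2) k (by rw [hS₁c, ← hνd]; linarith)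
  set A : ℝ := ((k : ℝ) + 1) ^ 2 * B ^ (2 * k) with hA
  have hA0 : 0 ≤ A := by positivity
  have hB0 : 0 ≤ B := by linarith
  have hall : ∀ z ∈ S, hp k c (v z ∘ α) = 0 := by
    intro z hz
    by_contra hne
    have g1 := hsch k c A hA0 hcA S₁ hS₁ (fun w hw => ⟨v w, (hv w (hS₁ hw)).1,
      hc0 w hw⟩) z (hS z hz).1 (v z) (hv z hz).1
    have g2 : ‖v z‖ ≤ (ν : ℝ) * B :=
      (pi_norm_le_iff_of_nonneg (by positivity)).mpr fun i => (hv z hz).2.norm_le i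
    have g3 := liouville_hp k c hA0 hB0 hcA (v z) (hv z hz).2 α hne
    have g4 := hext B hB W hW hWB k n hk1 hkL hn2
    rw [← hA] at g4
    rw [← hνd] at g3
    rw [hS₁c] at g1
    have g5 : ‖v z‖ ^ (2 * k) ≤ ((ν : ℝ) * B) ^ (2 * k) :=
      pow_le_pow_left₀ (norm_nonneg _) g2 _
    have hW0 : 0 ≤ W := by linarith
    have g6 : 1 ≤ (W ^ (2 * k) * (((k : ℝ) + 1) ^ 2 * A) * (1 / 2) ^ n) *
        ((ν : ℝ) * B) ^ (2 * k) * ((ν : ℝ) * (((k : ℝ) + 1) ^ 2 * A * B ^ (2 * k)) + 1) ^ ν := by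
      refine g3.trans (mul_le_mul_of_nonneg_right ?_ (by positivity))
      exact g1.trans (mul_le_mul_of_nonneg_left g5 (by positivity))
    linarith
  have hW0 : 0 ≤ W := by linarith
  obtain ⟨⟨i₀, j₀⟩, hmax⟩ := Finite.exists_max (fun p : Fin (k + 1) × Fin (k + 1) => |(c p.1 p.2 : ℝ)|)
  set M : ℝ := |(c i₀ j₀ : ℝ)| with hM
  have hMle : ∀ i j, |(c i j : ℝ)| ≤ M := fun i j => hmax (i, j)
  have hMpos : 0 < M := by
    obtain ⟨i, j, hij⟩ := hc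
    have h1 : 0 < |(c i j : ℝ)| := abs_pos.mpr (by exact_mod_cast hij)
    exact lt_of_lt_of_le h1 (hMle i j)
  have hsm := hsch k c M hMpos.le hMle S (Finset.Subset.refl S)
    (fun w hw => ⟨v w, (hv w hw).1, hall w hw⟩)
  have hlow := hlb k hk1 c M hMpos hMle ⟨i₀, j₀, rfl⟩
    (W ^ (2 * k) * (((k : ℝ) + 1) ^ 2 * M) * (1 / 2) ^ S.card) (by positivity)
    (fun z hz u hu => hsm z hz u hu)
  have := hfin B hB W hW hWB Λ hΛ k S.card hk1 hkU M hMpos hlow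
  calc (S.card : ℝ) ≤ C' * Λ * L ^ 4 := this
    _ ≤ (C' + 16 * K₁ ^ 2) * Λ * L ^ 4 := by
        apply mul_le_mul_of_nonneg_right _ hL4.le
        apply mul_le_mul_of_nonneg_right _ hΛ0.le
        have : 0 ≤ K₁ ^ 2 := by positivity
        linarith

end MP2794d1.PG
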