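import Pool.Agent.Lib.MP_2794d1_ag.PC.CA2
import Pool.Agent.Lib.MP_2794d1_ag.PC.CA8
import Pool.Agent.Lib.MP_2794d1_ag.PC.CB2

/-!
D7: Schwarz lemma on the `q`-disc of a cusp with trivial monodromy. Let `a, M` be as in `D.L_cusp` (`G.E = 1`), `M` analytic and
`m ≤ ‖M q‖ ≤ M'`, `0 < m`, on `‖q‖ < ρ` (`M 0 ≠ 0`); `Y ≥ 1` so large that `Y > a` and `‖qq z‖ = exp (-2 π im z) ≤ ρ / 10` for
`Y ≤ im z`, and moreover every `q` with `0 < ‖q‖ ≤ ρ / 10` ... (not needed). Let `f q = hp k c (M q ∘ α)` on `ball 0 ρ`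
(`ball 0 (5 r)` with `r = ρ / 10`: take `R = ρ / 2`): differentiable (`hp_form`), `‖f‖ ≤ ((k + 1) ^ 2 A) M' ^ (2 k)`. For `z ∈ S'`,
`D.L z v`, `hp k c (v ∘ α) = 0`: `M (qq z) = c • v` (`D.L_uniq`), so `f (qq z) = 0`. `zeros_schwarz` (CA2) at centre `0`,
radii `r, R = 5 r`, finite set `S'.image qq` (same cardinality, `qq` is injective on `S'`):
`‖f q‖ ≤ ((k + 1) ^ 2 A) M' ^ (2 k) (1 / 2) ^ #S'` for `‖q‖ ≤ r`. For `Y ≤ im z`, `D.L z v`: `v = c • M (qq z)`,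
`‖v‖ ≥ ‖c‖ m`, so `‖hp k c (v ∘ α)‖ = ‖c‖ ^ (2 k) ‖f (qq z)‖ ≤ (M' / m) ^ (2 k) ... ‖v‖ ^ (2 k)`. `W = M' / m ≥ 1`.
-/

namespace MP2794d1.PG

open Matrix Complex Filter Topology MP2794d1.PC

variable {Γ : Subgroup (Matrix.SpecialLinearGroup (Fin 2) ℝ)} {ι : Type} [Fintype ι]
  [DecidableEq ι]

theorem d7_norm (z : ℂ) : ‖qq z‖ = Real.exp (-(2 * Real.pi * z.im)) := by
  unfold qq
  rw [Complex.norm_exp]
  congr 1
  simp [Complex.mul_re, Complex.mul_im]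

theorem schwarz_disc (D : Datum Γ ι) (hE : ∀ s : ℂ, D.G.E s = 1) (α : Fin 3 → ι) :
    ∃ Y : ℝ, 1 ≤ Y ∧ ∃ W : ℝ, 1 ≤ W ∧
      ∀ (k : ℕ) (c : Fin (k + 1) → Fin (k + 1) → ℤ) (A : ℝ), 0 ≤ A → (∀ i j, |(c i j : ℝ)| ≤ A) →
      ∀ S' : Finset ℂ, Set.InjOn qq (S' : Set ℂ) →
      (∀ z ∈ S', Y ≤ z.im ∧ ∃ v, D.L z v ∧ hp k c (v ∘ α) = 0) →
      ∀ z : ℂ, Y ≤ z.im → ∀ v, D.L z v →
        ‖hp k c (v ∘ α)‖ ≤ (W ^ (2 * k) * (((k : ℝ) + 1) ^ 2 * A) * (1 / 2) ^ S'.card) *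
          ‖v‖ ^ (2 * k) := by
  classical
  obtain ⟨a, M, hM, hM0, hL⟩ := D.L_cusp
  have hL' : ∀ z : ℂ, a < z.im → 0 < z.im → D.L z (M (qq z)) := by
    intro z h1 h2
    have h3 := hL z h1 h2
    rwa [hE, Matrix.one_mulVec] at h3
  have hcont : ContinuousAt M 0 := continuousAt_pi.2 fun i => (hM i).continuousAt
  have hn : 0 < ‖M 0‖ := norm_pos_iff.2 hM0
  have hev : ∀ᶠ q in 𝓝 (0 : ℂ), (∀ i, DifferentiableAt ℂ (fun q => M q i) q) ∧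
      ‖M 0‖ / 2 < ‖M q‖ ∧ ‖M q‖ < 2 * ‖M 0‖ := by
    have h1 : ∀ᶠ q in 𝓝 (0 : ℂ), ∀ i, DifferentiableAt ℂ (fun q => M q i) q := by
      rw [Filter.eventually_all]
      intro i
      filter_upwards [(hM i).eventually_analyticAt] with q hq
      exact hq.differentiableAt
    have h2 : ∀ᶠ q in 𝓝 (0 : ℂ), ‖M 0‖ / 2 < ‖M q‖ :=
      hcont.norm.eventually (lt_mem_nhds (by linarith))
    have h3 : ∀ᶠ q in 𝓝 (0 : ℂ), ‖M q‖ < 2 * ‖M 0‖ :=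
      hcont.norm.eventually (gt_mem_nhds (by linarith))
    filter_upwards [h1, h2, h3] with q a1 a2 a3 using ⟨a1, a2, a3⟩
  obtain ⟨ρ, hρ, hball⟩ := Metric.eventually_nhds_iff_ball.1 hev
  -- the height
  obtain ⟨Y₀, hY₀⟩ : ∃ Y₀ : ℝ, ∀ y : ℝ, Y₀ ≤ y → Real.exp (-(2 * Real.pi * y)) ≤ ρ / 10 := by
    refine ⟨-Real.log (ρ / 10) / (2 * Real.pi), fun y hy => ?_⟩
    have h1 : -(2 * Real.pi * y) ≤ Real.log (ρ / 10) := by
      rw [div_le_iff₀ (by positivity)] at hy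
      linarith
    calc Real.exp (-(2 * Real.pi * y)) ≤ Real.exp (Real.log (ρ / 10)) := Real.exp_le_exp.2 h1
      _ = ρ / 10 := Real.exp_log (by positivity)
  set Y : ℝ := max 1 (max Y₀ (a + 1)) with hY
  have hY1 : 1 ≤ Y := le_max_left _ _
  have hY2 : Y₀ ≤ Y := (le_max_left _ _).trans (le_max_right _ _)
  have hY3 : a + 1 ≤ Y := (le_max_right _ _).trans (le_max_right _ _)
  have hq : ∀ z : ℂ, Y ≤ z.im → ‖qq z‖ ≤ ρ / 10 := by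
    intro z hz
    rw [d7_norm]
    exact hY₀ _ (hY2.trans hz)
  have hLM : ∀ z : ℂ, Y ≤ z.im → D.L z (M (qq z)) := fun z hz =>
    hL' z (by linarith) (by linarith)
  refine ⟨Y, hY1, 4, by norm_num, ?_⟩
  intro k c A hA hc S' hinj hS' z hz v hv
  have hF := hp_form k c hc α
  set B : ℝ := ((k : ℝ) + 1) ^ 2 * A with hB
  have hB0 : 0 ≤ B := by positivity
  set f : ℂ → ℂ := fun q => hp k c (M q ∘ α) with hf
  have hdiff : DifferentiableOn ℂ f (Metric.ball 0 (ρ / 2)) := by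
    intro q hq'
    have h1 : q ∈ Metric.ball (0 : ℂ) ρ := Metric.ball_subset_ball (by linarith) hq'
    have h2 : DifferentiableAt ℂ M q := differentiableAt_pi.2 (hball q h1).1
    have h3 : DifferentiableAt ℂ (fun v : ι → ℂ => hp k c (v ∘ α)) (M q) := hF.diff (M q)
    exact (h3.comp q h2).differentiableWithinAt
  have hbd : ∀ q ∈ Metric.ball (0 : ℂ) (ρ / 2), ‖f q‖ ≤ B * (2 * ‖M 0‖) ^ (2 * k) := by
    intro q hq'
    have h1 : q ∈ Metric.ball (0 : ℂ) ρ := Metric.ball_subset_ball (by linarith) hq'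
    refine (hF.bd (M q)).trans ?_
    gcongr
    exact (hball q h1).2.2.le
  have hzero : ∀ q ∈ S'.image qq, f q = 0 := by
    intro q hq'
    obtain ⟨w, hw, rfl⟩ := Finset.mem_image.1 hq'
    obtain ⟨h1, u, hu, hu0⟩ := hS' w hw
    obtain ⟨b, hb⟩ := D.L_uniq w u (M (qq w)) (by linarith) hu (hLM w h1)
    show hp k c (M (qq w) ∘ α) = 0
    have h2 := hF.hom b u
    rw [← hb] at h2
    have h3 : hp k c (u ∘ α) = 0 := hu0
    rw [h3, mul_zero] at h2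
    exact h2
  have hmem : ∀ q ∈ S'.image qq, q ∈ Metric.closedBall (0 : ℂ) (ρ / 10) := by
    intro q hq'
    obtain ⟨w, hw, rfl⟩ := Finset.mem_image.1 hq'
    rw [Metric.mem_closedBall, dist_zero_right]
    exact hq w (hS' w hw).1
  have hcard : (S'.image qq).card = S'.card := Finset.card_image_of_injOn hinj
  have hsch := zeros_schwarz 0 (ρ / 10) (ρ / 2) (by positivity) (by linarith) (S'.image qq) hmem f
    hdiff _ hbd hzero (qq z) (by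
      rw [Metric.mem_closedBall, dist_zero_right]
      exact hq z hz)
  rw [hcard] at hsch
  obtain ⟨b, hb⟩ := D.L_uniq z (M (qq z)) v (by linarith) (hLM z hz) hv
  have hqz : qq z ∈ Metric.ball (0 : ℂ) ρ := by
    rw [Metric.mem_ball, dist_zero_right]
    linarith [hq z hz]
  have hlow : ‖M 0‖ / 2 ≤ ‖M (qq z)‖ := (hball _ hqz).2.1.le
  have h1 : hp k c (v ∘ α) = b ^ (2 * k) * f (qq z) := by
    have h2 := hF.hom b (M (qq z))
    rw [← hb] at h2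
    exact h2
  have h3 : ‖v‖ = ‖b‖ * ‖M (qq z)‖ := by rw [hb, norm_smul]
  have h4 : ‖b‖ * (2 * ‖M 0‖) ≤ 4 * ‖v‖ := by
    rw [h3]
    nlinarith [norm_nonneg b, hlow]
  rw [h1, norm_mul, norm_pow]
  calc ‖b‖ ^ (2 * k) * ‖f (qq z)‖
      ≤ ‖b‖ ^ (2 * k) * (B * (2 * ‖M 0‖) ^ (2 * k) * (1 / 2) ^ S'.card) := by gcongr
    _ = (‖b‖ * (2 * ‖M 0‖)) ^ (2 * k) * (B * (1 / 2) ^ S'.card) := by rw [mul_pow]; ring
    _ ≤ (4 * ‖v‖) ^ (2 * k) * (B * (1 / 2) ^ S'.card) := by gcongr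
    _ = (4 ^ (2 * k) * B * (1 / 2) ^ S'.card) * ‖v‖ ^ (2 * k) := by rw [mul_pow]; ring

end MP2794d1.PG
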