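import Pool.Agent.Lib.MP_2794d1_ag.PG.Defs
import Pool.Agent.Lib.MP_2794d1_ag.PG.D2
import Pool.Agent.Lib.MP_2794d1_ag.PG.D7

/-!
D8: the count near a cusp with trivial monodromy. `Y, W` from `schwarz_disc`. First for `S` with `qq` injective on `S`:
`count_core C₂` (`W ≤ 2 ^ C₂`) with `U = {z | Y ≤ im z}` (`0 < im z` there), `Λ = max C 1`, `C` the constant of `hs` at the
point `i (Y + 1)`, `δ = 1` (`ball (i (Y + 1)) 1 ⊆ U`). In general: `S.card ≤ 3 * (S.image qq).card`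
(`Finset.card_le_mul_card_image`): `qq z = qq z'` means `z' = z + m`, `m : ℤ` (`Complex.exp_eq_exp_iff_exists_int`), and
`|re| ≤ 1` leaves at most three values in a fibre; choose one element in every fibre
(`Finset.exists_subset_image_eq...` or `Function.invFunOn`) to get `S' ⊆ S` with `qq` injective and
`S'.card = (S.image qq).card`.
-/

namespace MP2794d1.PG

open Matrix Complex MP2794d1.PC

variable {Γ : Subgroup (Matrix.SpecialLinearGroup (Fin 2) ℝ)} {ι : Type} [Fintype ι]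
  [DecidableEq ι]

theorem d8_fibre (S : Finset ℂ) (hS : ∀ z ∈ S, |z.re| ≤ 1) (a : ℂ) :
    (S.filter fun z => qq z = a).card ≤ 3 := by
  classical
  have h3 : (Finset.Icc (-1 : ℤ) 1).card = 3 := by decide
  rw [← h3]
  refine Finset.card_le_card_of_injOn (fun z => ⌊z.re⌋) ?_ ?_
  · intro z hz
    have hz' := Finset.mem_filter.1 hz
    have h1 := abs_le.1 (hS z hz'.1)
    have h2 : ⌊(-1 : ℝ)⌋ ≤ ⌊z.re⌋ := Int.floor_le_floor h1.1
    have h4 : ⌊z.re⌋ ≤ ⌊(1 : ℝ)⌋ := Int.floor_le_floor h1.2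
    have h5 : ⌊(-1 : ℝ)⌋ = -1 := by
      have := Int.floor_intCast (R := ℝ) (-1)
      simpa using this
    have h6 : ⌊(1 : ℝ)⌋ = 1 := Int.floor_one
    rw [h5] at h2
    rw [h6] at h4
    exact Finset.mem_coe.2 (Finset.mem_Icc.2 ⟨h2, h4⟩)
  · intro z hz w hw hzw
    have hz' := Finset.mem_filter.1 (Finset.mem_coe.1 hz)
    have hw' := Finset.mem_filter.1 (Finset.mem_coe.1 hw)
    have h1 : qq z = qq w := hz'.2.trans hw'.2.symm
    unfold qq at h1
    rw [Complex.exp_eq_exp_iff_exists_int] at h1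
    obtain ⟨n, hn⟩ := h1
    have h2 : z = w + n := by
      have hpi : (2 * (Real.pi : ℂ) * Complex.I) ≠ 0 := by
        simp [Real.pi_ne_zero]
      have h4 : 2 * (Real.pi : ℂ) * Complex.I * (z - (w + n)) = 0 := by linear_combination hn
      rcases mul_eq_zero.1 h4 with h5 | h5
      · exact absurd h5 hpi
      · exact sub_eq_zero.1 h5
    have hzw' : ⌊z.re⌋ = ⌊w.re⌋ := hzw
    have h5 : z.re = w.re + n := by rw [h2]; simp
    rw [h5, Int.floor_add_intCast] at hzw'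
    have h6 : n = 0 := by omega
    rw [h2, h6]
    simp

theorem d8_section (S : Finset ℂ) : ∃ S' : Finset ℂ, S' ⊆ S ∧ Set.InjOn qq (S' : Set ℂ) ∧
    S'.card = (S.image qq).card := by
  classical
  have h : ∀ a : ℂ, ∃ z : ℂ, a ∈ S.image qq → z ∈ S ∧ qq z = a := by
    intro a
    by_cases ha : a ∈ S.image qq
    · obtain ⟨z, hz, hza⟩ := Finset.mem_image.1 ha
      exact ⟨z, fun _ => ⟨hz, hza⟩⟩
    · exact ⟨0, fun h => absurd h ha⟩
  choose g hg using h
  refine ⟨(S.image qq).image g, ?_, ?_, ?_⟩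
  · intro z hz
    obtain ⟨a, ha, rfl⟩ := Finset.mem_image.1 hz
    exact (hg a ha).1
  · intro z hz w hw hzw
    obtain ⟨a, ha, rfl⟩ := Finset.mem_image.1 (Finset.mem_coe.1 hz)
    obtain ⟨b, hb, rfl⟩ := Finset.mem_image.1 (Finset.mem_coe.1 hw)
    rw [(hg a ha).2, (hg b hb).2] at hzw
    rw [hzw]
  · refine Finset.card_image_of_injOn ?_
    intro a ha b hb hab
    have h1 := (hg a (Finset.mem_coe.1 ha)).2
    have h2 := (hg b (Finset.mem_coe.1 hb)).2
    rw [← h1, ← h2, hab]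

theorem disc_count (D : Datum Γ ι) (hE : ∀ s : ℂ, D.G.E s = 1) {κ : Type} [Fintype κ]
    (α : Fin 3 → ι) (hs : LB D.L α) : ∃ Y : ℝ, 1 ≤ Y ∧ ∃ C : ℝ, 0 < C ∧ ∀ B : ℝ, 2 ≤ B →
      ∀ S : Finset ℂ, (∀ z ∈ S, |z.re| ≤ 1 ∧ Y ≤ z.im ∧ ∃ v, D.L z v ∧ IntRep κ B v) →
      (S.card : ℝ) ≤ C * Real.log B ^ 4 := by
  classical
  obtain ⟨Y, hY, W, hW, hsch⟩ := schwarz_disc D hE α
  obtain ⟨C₂, hC₂⟩ := pow_unbounded_of_one_lt W (by norm_num : (1 : ℝ) < 2)
  obtain ⟨K, hK, hcount⟩ := count_core (ι := ι) (κ := κ) C₂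
  obtain ⟨C₀, hC₀, hlb⟩ := hs (Complex.I * ((Y + 1 : ℝ) : ℂ)) (by simp; linarith) 1 one_pos
  set Λ : ℝ := max C₀ 1 with hΛ
  have hΛ1 : 1 ≤ Λ := le_max_right _ _
  have hΛC : C₀ ≤ Λ := le_max_left _ _
  refine ⟨Y, hY, 3 * (K * Λ), by positivity, ?_⟩
  intro B hB S hS
  obtain ⟨S', hS'S, hinj, hcard⟩ := d8_section S
  have hmain : (S'.card : ℝ) ≤ K * Λ * Real.log B ^ 4 := by
    refine hcount D.L α {z : ℂ | Y ≤ z.im} S' B W Λ hB hW ?_ hΛ1 ?_ ?_ ?_
    · exact hC₂.le.trans (pow_le_pow_left₀ (by norm_num) hB _)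
    · intro z hz
      obtain ⟨_, h2, h3⟩ := hS z (hS'S hz)
      exact ⟨h2, h3⟩
    · intro k c A hA hc S'' hS'' hz'' z hz v hv
      refine hsch k c A hA hc S'' (hinj.mono (by exact_mod_cast hS'')) ?_ z hz v hv
      intro w hw
      exact ⟨(hS w (hS'S (hS'' hw))).2.1, hz'' w hw⟩
    · intro k hk c A hA hc hcA ε hε hsmall
      have h1 := hlb k hk c A hA hc hcA ε hε (by
        intro z hz _ v hv
        refine hsmall z ?_ v hv
        rw [Metric.mem_ball, dist_eq_norm] at hz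
        have h2 : |(z - Complex.I * ((Y + 1 : ℝ) : ℂ)).im| < 1 :=
          (Complex.abs_im_le_norm _).trans_lt hz
        have h3 : (z - Complex.I * ((Y + 1 : ℝ) : ℂ)).im = z.im - (Y + 1) := by simp
        rw [h3, abs_lt] at h2
        show Y ≤ z.im
        linarith [h2.1])
      refine le_trans ?_ h1
      have h4 : 0 ≤ (k : ℝ) ^ 3 * Real.log ((k : ℝ) + 1) := by
        have : 0 ≤ Real.log ((k : ℝ) + 1) := Real.log_nonneg (by
          have : (0 : ℝ) ≤ k := Nat.cast_nonneg k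
          linarith)
        positivity
      have h5 : C₀ * ((k : ℝ) ^ 3 * Real.log ((k : ℝ) + 1)) ≤
          Λ * ((k : ℝ) ^ 3 * Real.log ((k : ℝ) + 1)) := mul_le_mul_of_nonneg_right hΛC h4
      gcongr
  have h6 : S.card ≤ 3 * (S.image qq).card :=
    Finset.card_le_mul_card_image S 3 fun a _ => d8_fibre S (fun z hz => (hS z hz).1) a
  rw [← hcard] at h6
  have h7 : (S.card : ℝ) ≤ 3 * (S'.card : ℝ) := by exact_mod_cast h6
  calc (S.card : ℝ) ≤ 3 * (S'.card : ℝ) := h7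
    _ ≤ 3 * (K * Λ * Real.log B ^ 4) := by linarith
    _ = 3 * (K * Λ) * Real.log B ^ 4 := by ring

end MP2794d1.PG
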