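import Pool.Agent.Lib.MP_2794d1_ag.T00
import Pool.Agent.Lib.MP_2794d1_ag.K06
import Pool.Agent.Lib.MP_2794d1_ag.L02
import Pool.Agent.Lib.MP_2794d1_ag.T06

/-!
E3: the logarithm of the Hodge norm of a constant vector is subharmonic. Let `f = hf V · v v` (a smooth function with real
values `qf V · v > 0`, `qf_pos`, L01/L02), `T = TV V z`, `T' = mconj T`, `C = CV V z`. `L02_dz_hf` and `CV_dz`:
`dz f z = I ^ wt (star v ⬝ᵥ (im Q *ᵥ ((2 T C) *ᵥ v))) = - 2 hf v (T v)` (`C T = - T C`, `CV_TV`). Differentiate again: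
`db (dz f) z = I ^ wt (star v ⬝ᵥ (im Q *ᵥ (Db (2 T C) *ᵥ v)))`, `Db (T C) = Db T * C + T * Db C` (product rule of W01/W02),
`Db T = - br T T'` (`TV_db`, J05), `Db C = 2 T' C` (`CV_db`), so `Db (2 T C) = 2 (T T' + T' T) C`, and as `T, T'` anticommute with `C`
(`CV_TV`, `L02_TVc`): `db (dz f) z = 2 hf v ((T T' + T' T) v)`. In an adapted basis (`exists_adapted`, `hf_adapted`): the matrix
`t' = S⁻¹ T' S` is the conjugate transpose of `t = S⁻¹ T S` (`Skew`, degree `-1`; the entry relation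
`(S⁻¹ mconj X S) b a = - conj ((S⁻¹ X S) a b) I ^ (2 (d a - d b))` used in `K01_key` / U03, and `L01_deg`). So with `x = S⁻¹ v`:
`f = |x|²`, `hf v (T v) = ⟨x, t x⟩ = ⟨t' x, x⟩`, `db (dz f) = 2 (|t' x|² + |t x|²)`, and by Cauchy-Schwarz
`‖dz f‖² = 4 |⟨x, t x⟩|² ≤ 2 |x|² (|t x|² + |t' x|²) = f db (dz f)`. With `dz_real` (K06): `(px f)² + (py f)² ≤ f (px px f + py py f)` for the
real function `qf`, and `T06_log` (T06) gives that the Laplacian of `log (qf V · v)` is `≥ 0` (compare the end of `vB_sub`, T06).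
-/

namespace MP2794d1.PG

open Matrix Complex Filter Topology
open scoped ContDiff

/-- the Hodge type functional of a smooth matrix function: derivative with respect to `z` -/
theorem E3_dz {n : ℕ} (Q : Matrix (Fin n) (Fin n) ℂ) (c : ℂ) (v : Fin n → ℂ) {z : ℂ}
    {X : ℂ → Matrix (Fin n) (Fin n) ℂ} (hX : SmA X z) :
    dz (fun y => c * (star v ⬝ᵥ (Q *ᵥ (X y *ᵥ v)))) z =
      c * (star v ⬝ᵥ (Q *ᵥ (Dz X z *ᵥ v))) := by
  have h1 : (fun y => c * (star v ⬝ᵥ (Q *ᵥ (X y *ᵥ v)))) = fun y => c *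
      ∑ i ∈ Finset.univ, star v i * ∑ j ∈ Finset.univ, Q i j *
        ∑ k ∈ Finset.univ, v k * X y j k := by
    funext y
    unfold Matrix.mulVec dotProduct
    refine congrArg _ (Finset.sum_congr rfl fun i _ => congrArg _ (Finset.sum_congr rfl fun j _ =>
      congrArg _ (Finset.sum_congr rfl fun k _ => mul_comm _ _)))
  have hk : ∀ j k, DifferentiableAt ℝ (fun y => v k * X y j k) z := fun j k =>
    (smooth_diff (hX j k)).const_mul _
  have hj : ∀ i j, DifferentiableAt ℝ (fun y => Q i j * ∑ k ∈ Finset.univ, v k * X y j k) z :=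
    fun i j => (DifferentiableAt.fun_sum fun k _ => hk j k).const_mul _
  have hi : ∀ i, DifferentiableAt ℝ (fun y => star v i * ∑ j ∈ Finset.univ, Q i j *
        ∑ k ∈ Finset.univ, v k * X y j k) z :=
    fun i => (DifferentiableAt.fun_sum fun j _ => hj i j).const_mul _
  rw [h1, dz_cmul _ (DifferentiableAt.fun_sum fun i _ => hi i), dz_sum _ fun i _ => hi i]
  unfold Matrix.mulVec dotProduct
  refine congrArg _ (Finset.sum_congr rfl fun i _ => ?_)
  rw [dz_cmul _ (DifferentiableAt.fun_sum fun j _ => hj i j), dz_sum _ fun j _ => hj i j]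
  refine congrArg _ (Finset.sum_congr rfl fun j _ => ?_)
  rw [dz_cmul _ (DifferentiableAt.fun_sum fun k _ => hk j k), dz_sum _ fun k _ => hk j k]
  refine congrArg _ (Finset.sum_congr rfl fun k _ => ?_)
  rw [dz_cmul _ (smooth_diff (hX j k)), mul_comm]
  rfl

/-- the same for the conjugate derivative -/
theorem E3_db {n : ℕ} (Q : Matrix (Fin n) (Fin n) ℂ) (c : ℂ) (v : Fin n → ℂ) {z : ℂ}
    {X : ℂ → Matrix (Fin n) (Fin n) ℂ} (hX : SmA X z) :
    db (fun y => c * (star v ⬝ᵥ (Q *ᵥ (X y *ᵥ v)))) z =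
      c * (star v ⬝ᵥ (Q *ᵥ (Db X z *ᵥ v))) := by
  have h1 : (fun y => c * (star v ⬝ᵥ (Q *ᵥ (X y *ᵥ v)))) = fun y => c *
      ∑ i ∈ Finset.univ, star v i * ∑ j ∈ Finset.univ, Q i j *
        ∑ k ∈ Finset.univ, v k * X y j k := by
    funext y
    unfold Matrix.mulVec dotProduct
    refine congrArg _ (Finset.sum_congr rfl fun i _ => congrArg _ (Finset.sum_congr rfl fun j _ =>
      congrArg _ (Finset.sum_congr rfl fun k _ => mul_comm _ _)))
  have hk : ∀ j k, DifferentiableAt ℝ (fun y => v k * X y j k) z := fun j k =>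
    (smooth_diff (hX j k)).const_mul _
  have hj : ∀ i j, DifferentiableAt ℝ (fun y => Q i j * ∑ k ∈ Finset.univ, v k * X y j k) z :=
    fun i j => (DifferentiableAt.fun_sum fun k _ => hk j k).const_mul _
  have hi : ∀ i, DifferentiableAt ℝ (fun y => star v i * ∑ j ∈ Finset.univ, Q i j *
        ∑ k ∈ Finset.univ, v k * X y j k) z :=
    fun i => (DifferentiableAt.fun_sum fun j _ => hj i j).const_mul _
  rw [h1, db_cmul _ (DifferentiableAt.fun_sum fun i _ => hi i), db_sum _ fun i _ => hi i]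
  unfold Matrix.mulVec dotProduct
  refine congrArg _ (Finset.sum_congr rfl fun i _ => ?_)
  rw [db_cmul _ (DifferentiableAt.fun_sum fun j _ => hj i j), db_sum _ fun j _ => hj i j]
  refine congrArg _ (Finset.sum_congr rfl fun j _ => ?_)
  rw [db_cmul _ (DifferentiableAt.fun_sum fun k _ => hk j k), db_sum _ fun k _ => hk j k]
  refine congrArg _ (Finset.sum_congr rfl fun k _ => ?_)
  rw [db_cmul _ (smooth_diff (hX j k)), mul_comm]
  rfl

/-- the entries of the conjugate of a skew matrix in an adapted basis -/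
theorem E3_rel {n : ℕ} {wt : ℤ} {Q : Matrix (Fin n) (Fin n) ℤ}
    {Fl : ℤ → Submodule ℂ (Fin n → ℂ)} {S : Matrix (Fin n) (Fin n) ℂ} {d : Fin n → ℤ}
    (hS : Adapted wt Q Fl S d) (X : Matrix (Fin n) (Fin n) ℂ) (hX : Skew Q X) (a b : Fin n) :
    (S⁻¹ * mconj X * S) b a =
      -((starRingEnd ℂ) ((S⁻¹ * X * S) a b) * Complex.I ^ (2 * (d a - d b))) := by
  have hSu : IsUnit S.det := hS.inv
  have hSS : S * S⁻¹ = 1 := Matrix.mul_nonsing_inv S hSu
  have hT : mconj S * mconj S⁻¹ = 1 := by rw [← e06_mul, hSS, e06_one]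
  have hSt : S⁻¹ᵀ * Sᵀ = 1 := by rw [← Matrix.transpose_mul, hSS, Matrix.transpose_one]
  set D : Matrix (Fin n) (Fin n) ℂ := Matrix.diagonal (fun a => Complex.I ^ (wt - 2 * d a)) with hD
  have hon : Sᵀ * im Q * mconj S = D := hS.on
  set x := S⁻¹ * X * S with hx
  set z := mconj S⁻¹ * X * mconj S with hz
  have e1 : xᵀ * D = Sᵀ * (Xᵀ * im Q) * mconj S := by
    calc xᵀ * D = Sᵀ * Xᵀ * (S⁻¹ᵀ * Sᵀ) * im Q * mconj S := by
          rw [← hon, hx, Matrix.transpose_mul, Matrix.transpose_mul]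
          simp only [Matrix.mul_assoc]
      _ = _ := by rw [hSt]; simp only [Matrix.mul_assoc, Matrix.mul_one]
  have e2 : D * z = Sᵀ * (im Q * X) * mconj S := by
    calc D * z = Sᵀ * im Q * (mconj S * mconj S⁻¹) * X * mconj S := by
          rw [← hon, hz]
          simp only [Matrix.mul_assoc]
      _ = _ := by rw [hT]; simp only [Matrix.mul_assoc, Matrix.mul_one]
  have key : xᵀ * D + D * z = 0 := by
    rw [e1, e2, ← Matrix.add_mul, ← Matrix.mul_add, hX, Matrix.mul_zero, Matrix.zero_mul]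
  have hzc : mconj z = S⁻¹ * mconj X * S := by
    rw [hz, e06_mul, e06_mul, e06_mconj_mconj, e06_mconj_mconj]
  have hk := congrFun (congrFun key b) a
  rw [Matrix.add_apply, hD, Matrix.mul_diagonal, Matrix.diagonal_mul, Matrix.transpose_apply,
    Matrix.zero_apply] at hk
  have hI : ∀ k : ℤ, Complex.I ^ k ≠ 0 := fun k => zpow_ne_zero _ Complex.I_ne_zero
  have hzba : z b a = -(x a b * Complex.I ^ (2 * (d b - d a))) := by
    have h1 : Complex.I ^ (wt - 2 * d b) * z b a = Complex.I ^ (wt - 2 * d b) *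
        (-(x a b * Complex.I ^ (2 * (d b - d a)))) := by
      have h2 : Complex.I ^ (wt - 2 * d b) * (-(x a b * Complex.I ^ (2 * (d b - d a)))) =
          -(x a b * (Complex.I ^ (wt - 2 * d b) * Complex.I ^ (2 * (d b - d a)))) := by ring
      rw [h2, ← zpow_add₀ Complex.I_ne_zero]
      have h3 : wt - 2 * d b + 2 * (d b - d a) = wt - 2 * d a := by ring
      rw [h3]
      linear_combination hk
    exact mul_left_cancel₀ (hI _) h1
  have h4 : (S⁻¹ * mconj X * S) b a = (starRingEnd ℂ) (z b a) := by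
    rw [← hzc]
    rfl
  rw [h4, hzba, map_neg, map_mul, e06_conj_zpow]
  have h5 : -(2 * (d b - d a)) = 2 * (d a - d b) := by ring
  rw [h5]

/-- in an adapted basis the conjugate of the Higgs field is its adjoint -/
theorem E3_adj {n : ℕ} (V : PolVHS n) {z : ℂ} (hz : 0 < z.im) {S : Matrix (Fin n) (Fin n) ℂ}
    {d : Fin n → ℤ} (hS : Adapted V.wt V.Q (fun p => V.F p z) S d) :
    S⁻¹ * mconj (TV V z) * S = (S⁻¹ * TV V z * S)ᴴ := by
  ext b a
  rw [Matrix.conjTranspose_apply, E3_rel hS (TV V z) (TV_skew V hz) a b, RCLike.star_def]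
  by_cases h : (S⁻¹ * TV V z * S) a b = 0
  · rw [h]
    simp
  · rw [L01_deg V hz hS a b h]
    have h5 : Complex.I ^ (2 * (d a - (d a + 1))) = -1 := by
      have : Complex.I ^ (2 * (d a - (d a + 1))) = (Complex.I ^ (2 : ℕ))⁻¹ := by
        rw [show (2 * (d a - (d a + 1))) = -((2 : ℕ) : ℤ) by push_cast; ring, _root_.zpow_neg,
          zpow_natCast]
      rw [this, Complex.I_sq]
      norm_num
    rw [h5]
    ring

/-- Cauchy-Schwarz for vectors -/
theorem E3_cs {n : ℕ} (x y : Fin n → ℂ) : ‖star x ⬝ᵥ y‖ ^ 2 ≤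
    (∑ a, Complex.normSq (x a)) * ∑ a, Complex.normSq (y a) := by
  have h1 : ‖star x ⬝ᵥ y‖ ≤ ∑ a, ‖x a‖ * ‖y a‖ := by
    unfold dotProduct
    refine (norm_sum_le _ _).trans (le_of_eq ?_)
    refine Finset.sum_congr rfl fun a _ => ?_
    rw [norm_mul, Pi.star_apply, norm_star]
  have h2 := Finset.sum_mul_sq_le_sq_mul_sq (Finset.univ : Finset (Fin n)) (fun a => ‖x a‖)
    (fun a => ‖y a‖)
  have h3 : ∀ w : ℂ, Complex.normSq w = ‖w‖ ^ 2 := fun w => Complex.normSq_eq_norm_sq w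
  simp only [h3]
  exact (pow_le_pow_left₀ (norm_nonneg _) h1 2).trans h2

theorem E3_self {n : ℕ} (x : Fin n → ℂ) : star x ⬝ᵥ x = ((∑ a, Complex.normSq (x a) : ℝ) : ℂ) := by
  unfold dotProduct
  rw [Complex.ofReal_sum]
  refine Finset.sum_congr rfl fun a _ => ?_
  rw [Pi.star_apply, RCLike.star_def, mul_comm, Complex.mul_conj]

theorem E3_alg {n : ℕ} (t : Matrix (Fin n) (Fin n) ℂ) (x : Fin n → ℂ) :
    4 * ‖star x ⬝ᵥ (t *ᵥ x)‖ ^ 2 ≤ (∑ a, Complex.normSq (x a)) *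
      (2 * star x ⬝ᵥ ((t * tᴴ + tᴴ * t) *ᵥ x)).re := by
  have h1 : star x ⬝ᵥ ((t * tᴴ + tᴴ * t) *ᵥ x) =
      ((∑ a, Complex.normSq ((tᴴ *ᵥ x) a) + ∑ a, Complex.normSq ((t *ᵥ x) a) : ℝ) : ℂ) := by
    have a1 : star x ⬝ᵥ ((t * tᴴ) *ᵥ x) = star (tᴴ *ᵥ x) ⬝ᵥ (tᴴ *ᵥ x) := by
      rw [← Matrix.mulVec_mulVec, Matrix.dotProduct_mulVec, Matrix.star_mulVec,
        Matrix.conjTranspose_conjTranspose]
    have a2 : star x ⬝ᵥ ((tᴴ * t) *ᵥ x) = star (t *ᵥ x) ⬝ᵥ (t *ᵥ x) := by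
      rw [← Matrix.mulVec_mulVec, Matrix.dotProduct_mulVec, Matrix.star_mulVec]
    rw [Matrix.add_mulVec, dotProduct_add, a1, a2, Complex.ofReal_add, ← E3_self, ← E3_self]
  have h2 := E3_cs x (t *ᵥ x)
  have h3 : ‖star x ⬝ᵥ (t *ᵥ x)‖ ^ 2 ≤
      (∑ a, Complex.normSq ((tᴴ *ᵥ x) a)) * ∑ a, Complex.normSq (x a) := by
    have h4 := E3_cs (tᴴ *ᵥ x) x
    rwa [Matrix.star_mulVec, Matrix.conjTranspose_conjTranspose, ← Matrix.dotProduct_mulVec] at h4
  rw [h1]
  have h5 : (2 * ((∑ a, Complex.normSq ((tᴴ *ᵥ x) a) + ∑ a, Complex.normSq ((t *ᵥ x) a) : ℝ) : ℂ)).re =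
      2 * (∑ a, Complex.normSq ((tᴴ *ᵥ x) a) + ∑ a, Complex.normSq ((t *ᵥ x) a)) := by
    rw [show (2 : ℂ) = ((2 : ℝ) : ℂ) by norm_num, ← Complex.ofReal_mul, Complex.ofReal_re]
  rw [h5]
  nlinarith [h2, h3]

/-- the second derivative of the Hodge norm -/
theorem E3_second {n : ℕ} (V : PolVHS n) {z : ℂ} (hz : 0 < z.im) (v : Fin n → ℂ) :
    dz (fun y => hf V y v v) z = -2 * hf V z v (TV V z *ᵥ v) ∧
    db (dz (fun y => hf V y v v)) z = 2 * hf V z v
      ((TV V z * mconj (TV V z) + mconj (TV V z) * TV V z) *ᵥ v) := by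
  have key : ∀ y : ℂ, 0 < y.im → dz (fun y => hf V y v v) y = Complex.I ^ V.wt *
      (star v ⬝ᵥ (im V.Q *ᵥ (((2 : ℂ) • (TV V y * CV V y)) *ᵥ v))) := by
    intro y hy
    rw [L02_dz_hf V hy, CV_dz V hy]
  have hT := TV_smooth V hz
  have hC := CV_smooth V hz
  constructor
  · rw [key z hz]
    have h2 : ((2 : ℂ) • (TV V z * CV V z)) = (-2 : ℂ) • (CV V z * TV V z) := by
      rw [CV_TV V hz, smul_neg, neg_smul, neg_neg]
    rw [h2, Matrix.smul_mulVec, Matrix.mulVec_smul, dotProduct_smul, ← Matrix.mulVec_mulVec]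
    unfold hf
    rw [smul_eq_mul]
    ring
  · have h1 : dz (fun y => hf V y v v) =ᶠ[𝓝 z] fun y => Complex.I ^ V.wt *
        (star v ⬝ᵥ (im V.Q *ᵥ ((fun y => (2 : ℂ) • (TV V y * CV V y)) y *ᵥ v))) := by
      filter_upwards [j03_im hz] with y hy
      exact key y hy
    rw [db_congr h1, E3_db (im V.Q) (Complex.I ^ V.wt) v ((hT.mul hC).smulc 2), Db_smulc _ (hT.mul hC),
      Db_mul hT hC, TV_db V hz, CV_db V hz]
    have h2 : -br (TV V z) (mconj (TV V z)) * CV V z +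
        TV V z * ((2 : ℂ) • (mconj (TV V z) * CV V z)) =
        CV V z * (TV V z * mconj (TV V z) + mconj (TV V z) * TV V z) := by
      have e1 := CV_TV V hz
      have e2 := L02_TVc V hz
      have e3 : CV V z * (TV V z * mconj (TV V z)) = TV V z * mconj (TV V z) * CV V z := by
        rw [← Matrix.mul_assoc, e1, Matrix.neg_mul, Matrix.mul_assoc, e2, Matrix.mul_neg, neg_neg,
          Matrix.mul_assoc]
      have e4 : CV V z * (mconj (TV V z) * TV V z) = mconj (TV V z) * TV V z * CV V z := by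
        rw [← Matrix.mul_assoc, e2, Matrix.neg_mul, Matrix.mul_assoc, e1, Matrix.mul_neg, neg_neg,
          Matrix.mul_assoc]
      rw [Matrix.mul_add, e3, e4, Matrix.mul_smul, two_smul]
      unfold br
      noncomm_ring
    rw [h2, Matrix.smul_mulVec, Matrix.mulVec_smul, dotProduct_smul, ← Matrix.mulVec_mulVec]
    unfold hf
    rw [smul_eq_mul]
    ring

theorem log_qf_sub {n : ℕ} (V : PolVHS n) (v : Fin n → ℂ) (hv : v ≠ 0) :
    SubL (fun z => Real.log (qf V z v)) := by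
  intro z hz
  have hsm := qf_smooth V hz v
  have hP : 0 < qf V z v := qf_pos V hz hv
  refine ⟨hsm.log hP.ne', ?_⟩
  have hreal : ∀ y : ℂ, 0 < y.im → hf V y v v = ((qf V y v : ℝ) : ℂ) := by
    intro y hy
    obtain ⟨S, d, hS⟩ := exists_adapted (V.phs y hy)
    rw [qf_adapted V hy hS, hf_adapted V hy hS, Complex.ofReal_sum]
    refine Finset.sum_congr rfl fun a _ => ?_
    rw [mul_comm, Complex.mul_conj]
  have hev : (fun y => ((qf V y v : ℝ) : ℂ)) =ᶠ[𝓝 z] fun y => hf V y v v := by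
    filter_upwards [j03_im hz] with y hy
    exact (hreal y hy).symm
  have hev2 : dz (fun y => ((qf V y v : ℝ) : ℂ)) =ᶠ[𝓝 z] dz (fun y => hf V y v v) := by
    filter_upwards [hev.eventuallyEq_nhds] with y hy
    exact dz_congr hy
  obtain ⟨d1, d2⟩ := dz_real hsm
  rw [dz_congr hev] at d1
  rw [db_congr hev2] at d2
  obtain ⟨g1, g2⟩ := E3_second V hz v
  rw [g1] at d1
  rw [g2] at d2
  have hmain : ‖-2 * hf V z v (TV V z *ᵥ v)‖ ^ 2 ≤ qf V z v * (2 * hf V z v
      ((TV V z * mconj (TV V z) + mconj (TV V z) * TV V z) *ᵥ v)).re := by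
    obtain ⟨S, d, hS⟩ := exists_adapted (V.phs z hz)
    rw [hf_adapted V hz hS, hf_adapted V hz hS, qf_adapted V hz hS]
    have k1 : S⁻¹ *ᵥ (TV V z *ᵥ v) = (S⁻¹ * TV V z * S) *ᵥ (S⁻¹ *ᵥ v) := E03_coord hS.inv _ v
    have k2 : S⁻¹ *ᵥ ((TV V z * mconj (TV V z) + mconj (TV V z) * TV V z) *ᵥ v) =
        ((S⁻¹ * TV V z * S) * (S⁻¹ * TV V z * S)ᴴ + (S⁻¹ * TV V z * S)ᴴ * (S⁻¹ * TV V z * S)) *ᵥ
          (S⁻¹ *ᵥ v) := by
      rw [E03_coord hS.inv _ v, ← E3_adj V hz hS]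
      congr 1
      have hSi : S * S⁻¹ = 1 := Matrix.mul_nonsing_inv S hS.inv
      rw [Matrix.mul_add, Matrix.add_mul]
      congr 1
      · calc S⁻¹ * (TV V z * mconj (TV V z)) * S = S⁻¹ * TV V z * 1 * mconj (TV V z) * S := by
              simp only [Matrix.mul_one, Matrix.mul_assoc]
          _ = _ := by rw [← hSi]; simp only [Matrix.mul_assoc]
      · calc S⁻¹ * (mconj (TV V z) * TV V z) * S = S⁻¹ * mconj (TV V z) * 1 * TV V z * S := by
              simp only [Matrix.mul_one, Matrix.mul_assoc]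
          _ = _ := by rw [← hSi]; simp only [Matrix.mul_assoc]
    rw [k1, k2]
    have h4 := E3_alg (S⁻¹ * TV V z * S) (S⁻¹ *ᵥ v)
    have h5 : ∀ w : Fin n → ℂ, (∑ a, (starRingEnd ℂ) ((S⁻¹ *ᵥ v) a) * w a) =
        star (S⁻¹ *ᵥ v) ⬝ᵥ w := fun w => rfl
    rw [h5, h5, norm_mul, mul_pow]
    have h6 : ‖(-2 : ℂ)‖ ^ 2 = 4 := by
      rw [norm_neg]
      norm_num
    rw [h6]
    exact h4
  have e1 : px (px (fun z => Real.log (qf V z v))) z =
      (qf V z v * px (px (fun y => qf V y v)) z - (px (fun y => qf V y v) z) ^ 2) / (qf V z v) ^ 2 :=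
    T06_log hsm hP 1
  have e2 : py (py (fun z => Real.log (qf V z v))) z =
      (qf V z v * py (py (fun y => qf V y v)) z - (py (fun y => qf V y v) z) ^ 2) / (qf V z v) ^ 2 :=
    T06_log hsm hP Complex.I
  rw [d1, d2] at hmain
  rw [e1, e2, ← add_div]
  apply div_nonneg _ (by positivity)
  nlinarith [hmain]

end MP2794d1.PG
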