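import Pool.Agent.Lib.MP_2794d1_ag.PG.E1
import Pool.Agent.Lib.MP_2794d1_ag.PG.E3
import Pool.Agent.Lib.MP_2794d1_ag.T10

/-!
E4: Hodge norms are bounded near a cusp with trivial monodromy. `v = 0`: `qf = 0` (`hf` with zero vector). Otherwise
`f z = Real.log (qf V z v)` is `SubL` (`log_qf_sub`), `f (w + 1) = f w` (`c.T_eq`, `c.exp_eq`, `uexp 0 1 = 1` so
`im (V.rho c.T) = 1`; `qf_equiv`, J07), growth from `qf_growth V 1` (`mob_one`): `qf V w v ≤ C w.im ^ K qf V i v`, so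
`f w ≤ log (C qf V i v) + K log w.im`. `f` is continuous, let `m` be its maximum on the compact segment `|re w| ≤ 1, im w = 1`.
`cusp_max` (T10): `f ≤ m`, so `qf ≤ exp m`. `height_cusp0`: the maximum over `i` of the bounds for `v = Pi.single i 1` and
`height_of_qf`.
-/

namespace MP2794d1.PG

open Matrix Complex Filter Topology
open scoped ContDiff

theorem e4_uexp_zero {n : ℕ} (s : ℂ) : uexp (0 : Matrix (Fin n) (Fin n) ℂ) s = 1 := by
  have h : ((s • (0 : Matrix (Fin n) (Fin n) ℂ))) = (0 : ℂ) • (0 : Matrix (Fin n) (Fin n) ℂ) := by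
    simp
  have h2 : uexp (0 : Matrix (Fin n) (Fin n) ℂ) s = uexp (0 : Matrix (Fin n) (Fin n) ℂ) 0 := by
    unfold uexp
    refine Finset.sum_congr rfl fun k _ => ?_
    rcases Nat.eq_zero_or_pos k with hk | hk
    · subst hk; simp
    · rw [zero_pow hk.ne']; simp
  rw [h2, uexp_zero]

theorem e4_rho {n : ℕ} (V : PolVHS n) (c : UCusp V) (hN : c.N = 0) :
    im (V.rho c.T : Matrix (Fin n) (Fin n) ℤ) = 1 := by
  rw [c.exp_eq, hN]
  have h : cm (0 : Matrix (Fin n) (Fin n) ℚ) = 0 := by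
    ext i j; simp [cm]
  rw [h, e4_uexp_zero]

theorem e4_seg : IsCompact {w : ℂ | |w.re| ≤ 1 ∧ w.im = 1} := by
  have h : {w : ℂ | |w.re| ≤ 1 ∧ w.im = 1} =
      (fun t : ℝ => (t : ℂ) + Complex.I) '' Set.Icc (-1) 1 := by
    ext w
    constructor
    · rintro ⟨h1, h2⟩
      refine ⟨w.re, abs_le.1 h1, ?_⟩
      apply Complex.ext <;> simp [h2]
    · rintro ⟨t, ht, rfl⟩
      refine ⟨?_, ?_⟩
      · simpa using abs_le.2 ht
      · simp
  rw [h]
  exact isCompact_Icc.image (by fun_prop)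

theorem qf_bounded {n : ℕ} (V : PolVHS n) (c : UCusp V) (hN : c.N = 0) (v : Fin n → ℂ) :
    ∃ m : ℝ, ∀ z : ℂ, |z.re| ≤ 1 → 1 ≤ z.im → qf V z v ≤ m := by
  by_cases hv : v = 0
  · refine ⟨0, fun z _ _ => ?_⟩
    rw [hv]
    simp [qf, hf]
  have hsub := log_qf_sub V v hv
  have hper : ∀ w : ℂ, 0 < w.im → Real.log (qf V (w + 1) v) = Real.log (qf V w v) := by
    intro w hw
    have h1 := qf_equiv V c.T hw v
    rw [c.T_eq, e4_rho V c hN, Matrix.one_mulVec] at h1
    rw [h1]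
  obtain ⟨C, K, hC, hgr⟩ := qf_growth V (1 : Matrix.SpecialLinearGroup (Fin 2) ℝ)
  have hI : 0 < (Complex.I).im := by simp
  have hqI : 0 < qf V Complex.I v := qf_pos V hI hv
  have hg : ∀ w : ℂ, |w.re| ≤ 1 → 1 ≤ w.im →
      Real.log (qf V w v) ≤ Real.log (C * qf V Complex.I v) + (K : ℝ) * Real.log w.im := by
    intro w hw1 hw2
    have hw0 : 0 < w.im := by linarith
    have h1 := (hgr w hw1 hw2 v).1
    rw [mob_one, mob_one] at h1
    have hq := qf_pos V hw0 hv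
    have h2 : Real.log (qf V w v) ≤ Real.log (C * w.im ^ K * qf V Complex.I v) :=
      Real.log_le_log hq h1
    have h3 : Real.log (C * w.im ^ K * qf V Complex.I v) =
        Real.log (C * qf V Complex.I v) + (K : ℝ) * Real.log w.im := by
      have e : C * w.im ^ K * qf V Complex.I v = (C * qf V Complex.I v) * w.im ^ K := by ring
      rw [e, Real.log_mul (by positivity) (by positivity), Real.log_pow]
    rw [h3] at h2
    exact h2
  have hcont : ContinuousOn (fun w => Real.log (qf V w v)) {w : ℂ | |w.re| ≤ 1 ∧ w.im = 1} := by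
    intro w hw
    have hw0 : 0 < w.im := by rw [hw.2]; exact one_pos
    exact ((hsub w hw0).1).continuousAt.continuousWithinAt
  obtain ⟨m, hm⟩ := e4_seg.bddAbove_image hcont
  have hmax := cusp_max hsub hper (Real.log (C * qf V Complex.I v)) K (Nat.cast_nonneg K) hg m
    (fun w hw1 hw2 => hm ⟨w, ⟨hw1, hw2⟩, rfl⟩)
  refine ⟨Real.exp m, fun z hz1 hz2 => ?_⟩
  have hz0 : 0 < z.im := by linarith
  have h1 := hmax z hz1 hz2
  have hq := qf_pos V hz0 hv
  calc qf V z v = Real.exp (Real.log (qf V z v)) := (Real.exp_log hq).symm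
    _ ≤ Real.exp m := Real.exp_le_exp.2 h1

theorem height_cusp0 {n : ℕ} (V : PolVHS n) (c : UCusp V) (hN : c.N = 0) :
    ∃ C : ℝ, 1 ≤ C ∧ ∀ z : ℂ, |z.re| ≤ 1 → 1 ≤ z.im → ∀ H : ℝ, 1 ≤ H → IsCMc V z H →
      IsCM V z (C * H) := by
  choose m hm using fun i : Fin n => qf_bounded V c hN (Pi.single i 1)
  obtain ⟨C, hC, hC2⟩ := height_of_qf V (∑ i, |m i|)
  refine ⟨C, hC, fun z hz1 hz2 H hH hcm => hC2 z (by linarith) (fun i => ?_) H hH hcm⟩
  calc qf V z (Pi.single i 1) ≤ m i := hm i z hz1 hz2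
    _ ≤ |m i| := le_abs_self _
    _ ≤ ∑ i, |m i| := Finset.single_le_sum (f := fun i => |m i|) (fun j _ => abs_nonneg _)
        (Finset.mem_univ i)

end MP2794d1.PG
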