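import Pool.Agent.Lib.MP_2794d1_ag.PG.G2
import Pool.Agent.Lib.MP_2794d1_ag.PG.D8
import Pool.Agent.Lib.MP_2794d1_ag.PG.E4

/-!
G3: the count in a strip at a cusp with `N = 0`. `c'` from `exists_cusp`, `D` from `exists_datum' V c' r hr`;
`D.G.E s = pt r (uexp (cm 0) s) = pt r 1 = 1` (`pt_one`; `cm 0 = 0`, `uexp 0 s = 1`: `uexp` with `N = 0` and `n ≥ 1`, for `n = 0` all
matrices are equal). `disc_count D` gives `Y`; `height_cusp0` (heights for `im z ≥ 1`). Points with `Y ≤ im z`: `disc_count` with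
`B = C₀ (C₁ h) ^ C₀`; points with `y₀ ≤ im z ≤ Y`: `compact_cmc`.
-/

namespace MP2794d1.PG

open Matrix Complex Filter Topology MP2794d1.PC

theorem g3_uexp {n : ℕ} (s : ℂ) : uexp (0 : Matrix (Fin n) (Fin n) ℂ) s = 1 := by
  rcases Nat.eq_zero_or_pos n with h | h
  · subst h
    exact Subsingleton.elim _ _
  · unfold uexp
    rw [Finset.sum_eq_single_of_mem 0 (Finset.mem_range.2 h)]
    · simp
    · intro j _ hj
      rw [zero_pow hj, smul_zero]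

theorem g3_cm {n : ℕ} : cm (0 : Matrix (Fin n) (Fin n) ℚ) = 0 := by
  ext i j
  simp [cm]

theorem cusp_count0 {n : ℕ} (V : PolVHS n) (c : UCusp V) (hN : c.N = 0)
    (r : Fin (len V) → ℕ) (hr : r = rk V) (α : Fin 3 → PIdx n (len V) r)
    (hLB : LB (PL V (len V) r) α) (y₀ : ℝ) (hy₀ : 0 < y₀) :
    ∃ C : ℝ, ∀ h : ℝ, 2 ≤ h → ∀ S : Finset ℂ,
      (∀ z ∈ S, |z.re| ≤ 1 ∧ y₀ ≤ z.im ∧ IsCMc V z h) → (S.card : ℝ) ≤ C * Real.log h ^ 5 := by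
  obtain ⟨c', -, hc'⟩ := exists_cusp V c
  obtain ⟨D, hDL, hDE⟩ := exists_datum' V c' r hr
  have hE : ∀ s : ℂ, D.G.E s = 1 := by
    intro s
    rw [hDE s, hc', hN, g3_cm, g3_uexp, pt_one]
  obtain ⟨C₀, hC₀, hCM⟩ := cm_rep' V r hr
  obtain ⟨C₁, hC₁, hht⟩ := height_cusp0 V c hN
  obtain ⟨Y, hY, C₂, hC₂, hdisc⟩ := disc_count D hE (κ := Fin n → Fin n) α (g2_LB hDL hLB)
  obtain ⟨C₃, h₃⟩ := compact_cmc V c r hr α hLB _ (SV4_compact y₀ Y)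
    (fun z hz => lt_of_lt_of_le hy₀ hz.2.1)
  obtain ⟨L, hL, hlog⟩ := g2_log (C₀ := C₀) (K₁ := 1) hC₀ le_rfl hC₁
  refine ⟨C₃ + C₂ * L ^ 4 * 2, fun h hh T hT => ?_⟩
  obtain ⟨hX, hB, -, hlB, hl⟩ := hlog h hh
  rw [pow_one] at hX hB hlB
  have hl0 : 0 ≤ Real.log h := by linarith
  have c1 : ((T.filter (fun z => z.im ≤ Y)).card : ℝ) ≤ C₃ * Real.log h ^ 5 := by
    apply h₃ h hh
    intro z hz
    rw [Finset.mem_filter] at hz
    exact ⟨⟨(hT z hz.1).1, (hT z hz.1).2.1, hz.2⟩, (hT z hz.1).2.2⟩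
  have c2 : ((T.filter (fun z => Y ≤ z.im)).card : ℝ) ≤
      C₂ * Real.log ((C₀ : ℝ) * (C₁ * h) ^ C₀) ^ 4 := by
    apply hdisc _ hB
    intro z hz
    rw [Finset.mem_filter] at hz
    obtain ⟨hz1, hz2, hz3⟩ := hT z hz.1
    obtain ⟨v, hv1, hv2⟩ := hCM z (lt_of_lt_of_le hy₀ hz2) (C₁ * h) (by linarith)
      (hht z hz1 (hY.trans hz.2) h (by linarith) hz3)
    exact ⟨hz1, hz.2, v, (hDL z v).2 hv1, hv2⟩
  have c4 : T.card ≤ (T.filter (fun z => z.im ≤ Y)).card +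
      (T.filter (fun z => Y ≤ z.im)).card := by
    have hsub : T ⊆ T.filter (fun z => z.im ≤ Y) ∪ T.filter (fun z => Y ≤ z.im) := by
      intro z hz
      simp only [Finset.mem_union, Finset.mem_filter]
      rcases le_total z.im Y with h3 | h3
      · exact Or.inl ⟨hz, h3⟩
      · exact Or.inr ⟨hz, h3⟩
    exact (Finset.card_le_card hsub).trans (Finset.card_union_le _ _)
  have c5 : (T.card : ℝ) ≤ ((T.filter (fun z => z.im ≤ Y)).card : ℝ) +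
      ((T.filter (fun z => Y ≤ z.im)).card : ℝ) := by exact_mod_cast c4
  have hlB0 : 0 ≤ Real.log ((C₀ : ℝ) * (C₁ * h) ^ C₀) := Real.log_nonneg (by linarith)
  have e1 : C₂ * Real.log ((C₀ : ℝ) * (C₁ * h) ^ C₀) ^ 4 ≤ C₂ * L ^ 4 * 2 * Real.log h ^ 5 := by
    calc C₂ * Real.log ((C₀ : ℝ) * (C₁ * h) ^ C₀) ^ 4
        ≤ C₂ * (L * Real.log h) ^ 4 :=
          mul_le_mul_of_nonneg_left (pow_le_pow_left₀ hlB0 hlB 4) hC₂.le
      _ = C₂ * L ^ 4 * (1 * Real.log h ^ 4) := by ring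
      _ ≤ C₂ * L ^ 4 * ((2 * Real.log h) * Real.log h ^ 4) :=
          mul_le_mul_of_nonneg_left (mul_le_mul_of_nonneg_right hl (by positivity))
            (by positivity)
      _ = C₂ * L ^ 4 * 2 * Real.log h ^ 5 := by ring
  calc (T.card : ℝ) ≤ C₃ * Real.log h ^ 5 + C₂ * L ^ 4 * 2 * Real.log h ^ 5 := by linarith
    _ = (C₃ + C₂ * L ^ 4 * 2) * Real.log h ^ 5 := by ring

end MP2794d1.PG
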