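import Pool.Agent.Lib.MP_2794d1_ag.PG.E1

/-!
E2: heights on a compact set: `z ↦ qf V z (Pi.single i 1)` is continuous on the half plane (`qf_smooth`, L02), so bounded on
`K` (`IsCompact.exists_bound_of_continuousOn` or `IsCompact.bddAbove_image`), take the maximum over `i`; `height_of_qf`.
-/

namespace MP2794d1.PG

open Matrix Complex Filter Topology

theorem height_compact {n : ℕ} (V : PolVHS n) (K : Set ℂ) (hK : IsCompact K)
    (hKH : ∀ z ∈ K, 0 < z.im) : ∃ C : ℝ, 1 ≤ C ∧ ∀ z ∈ K, ∀ H : ℝ, 1 ≤ H → IsCMc V z H →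
      IsCM V z (C * H) := by
  have h1 : ∀ i : Fin n, ∃ m : ℝ, ∀ z ∈ K, qf V z (Pi.single i 1) ≤ m := by
    intro i
    have hcont : ContinuousOn (fun z => qf V z (Pi.single i 1)) K := fun z hz =>
      (qf_smooth V (hKH z hz) (Pi.single i 1)).continuousAt.continuousWithinAt
    obtain ⟨m, hm⟩ := hK.bddAbove_image hcont
    exact ⟨m, fun z hz => hm ⟨z, hz, rfl⟩⟩
  choose m hm using h1
  obtain ⟨C, hC, hC2⟩ := height_of_qf V (∑ i, |m i|)
  refine ⟨C, hC, fun z hz H hH hcm => hC2 z (hKH z hz) (fun i => ?_) H hH hcm⟩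
  calc qf V z (Pi.single i 1) ≤ m i := hm i z hz
    _ ≤ |m i| := le_abs_self _
    _ ≤ ∑ i, |m i| := Finset.single_le_sum (f := fun i => |m i|) (fun j _ => abs_nonneg _)
        (Finset.mem_univ i)

end MP2794d1.PG
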