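import Pool.Agent.Lib.MP_2794d1_ag.PG.F1
import Mathlib.NumberTheory.MahlerMeasure
import Mathlib.LinearAlgebra.Matrix.Charpoly.Eigs

/-!
F2: the local monodromy is quasi-unipotent. `A` an integral matrix all of whose complex eigenvalues have absolute value one.
Every root `l` of `A.charpoly` (mapped to `ℂ`) has `‖l‖ = 1` (root of the characteristic polynomial of `im A`: there is an
eigenvector), so it is a root of unity: `Polynomial.pow_eq_one_of_mahlerMeasure_eq_one` (Mathlib.NumberTheory.MahlerMeasure; the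
polynomial is monic and the Mahler measure is the product of the `max 1 ‖l‖`), or Kronecker's theorem
`NumberField.Embeddings.pow_eq_one_of_norm_le_one`. Let `k` be the product of the orders over the roots. Then all the
eigenvalues of `im A ^ k` are `1` (roots of the characteristic polynomial of the power:
`Matrix.charpoly` / `Polynomial.aeval` / spectral mapping `spectrum.map_pow`, or triangularise), its characteristic polynomial is
`(X - 1) ^ n`, and by Cayley-Hamilton `(im A ^ k - 1) ^ n = 0`; `im` is injective.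
(Alternative: let `P = ∏ (X ^ k - 1)`: the minimal polynomial of `im A` divides `(X ^ k - 1) ^ n` since it divides `charpoly`, a
product of `n` linear factors `X - l` each dividing `X ^ k - 1`; so `(im A ^ k - 1) ^ n = aeval (im A) ((X ^ k - 1) ^ n) = 0`.)
-/

namespace MP2794d1.PG

open Matrix Complex Filter Topology

theorem F2_eig {n : ℕ} (M : Matrix (Fin n) (Fin n) ℂ) {l : ℂ} (hl : M.charpoly.eval l = 0) :
    ∃ v : Fin n → ℂ, v ≠ 0 ∧ M *ᵥ v = l • v := by
  rw [Matrix.eval_charpoly] at hl
  obtain ⟨v, hv, h⟩ := Matrix.exists_mulVec_eq_zero_iff.2 hl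
  refine ⟨v, hv, ?_⟩
  rw [Matrix.sub_mulVec] at h
  have h1 : (Matrix.scalar (Fin n) l) *ᵥ v = l • v := by
    rw [Matrix.scalar_apply, ← Matrix.smul_one_eq_diagonal, Matrix.smul_mulVec, Matrix.one_mulVec]
  rw [h1] at h
  exact (sub_eq_zero.1 h).symm

theorem F2_pow {n : ℕ} (M : Matrix (Fin n) (Fin n) ℂ) {k : ℕ}
    (h : ∀ l : ℂ, M.charpoly.eval l = 0 → l ^ k = 1) : (M ^ k - 1) ^ n = 0 := by
  have hmon : M.charpoly.Monic := Matrix.charpoly_monic M
  have hsp : M.charpoly = (M.charpoly.roots.map fun a => Polynomial.X - Polynomial.C a).prod := by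
    have := (IsAlgClosed.splits M.charpoly).eq_prod_roots
    rwa [hmon.leadingCoeff, Polynomial.C_1, one_mul] at this
  have hcard : M.charpoly.roots.card = n := by
    have h1 := (IsAlgClosed.splits M.charpoly).natDegree_eq_card_roots
    rw [← h1, Matrix.charpoly_natDegree_eq_dim, Fintype.card_fin]
  have hdvd : M.charpoly ∣ ((Polynomial.X : Polynomial ℂ) ^ k - 1) ^ n := by
    have h2 : (M.charpoly.roots.map fun a => Polynomial.X - Polynomial.C a).prod ∣
        (M.charpoly.roots.map fun _ => ((Polynomial.X : Polynomial ℂ) ^ k - 1)).prod := by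
      refine Multiset.prod_dvd_prod_of_dvd _ _ fun a ha => ?_
      rw [Polynomial.dvd_iff_isRoot, Polynomial.IsRoot.def, Polynomial.eval_sub,
        Polynomial.eval_pow, Polynomial.eval_X, Polynomial.eval_one,
        h a (Polynomial.isRoot_of_mem_roots ha), sub_self]
    rw [← hsp, Multiset.map_const', Multiset.prod_replicate, hcard] at h2
    exact h2
  obtain ⟨q, hq⟩ := hdvd
  have h3 : Polynomial.aeval M (((Polynomial.X : Polynomial ℂ) ^ k - 1) ^ n) = 0 := by
    rw [hq, map_mul, Matrix.aeval_self_charpoly, zero_mul]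
  rw [map_pow, map_sub, map_pow, Polynomial.aeval_X, map_one] at h3
  exact h3

theorem quasi_of_abs {n : ℕ} (A : Matrix (Fin n) (Fin n) ℤ)
    (h : ∀ (l : ℂ) (v : Fin n → ℂ), v ≠ 0 → im A *ᵥ v = l • v → ‖l‖ = 1) :
    ∃ k : ℕ, 1 ≤ k ∧ (A ^ k - 1) ^ n = 0 := by
  have him : ∀ M : Matrix (Fin n) (Fin n) ℤ, im M = (Int.castRingHom ℂ).mapMatrix M :=
    fun _ => rfl
  have hchar : (im A).charpoly = A.charpoly.map (Int.castRingHom ℂ) := by
    rw [him, RingHom.mapMatrix_apply, Matrix.charpoly_map]
  have hroot : ∀ l : ℂ, (im A).charpoly.eval l = 0 → ‖l‖ = 1 := fun l hl => by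
    obtain ⟨v, hv, he⟩ := F2_eig (im A) hl
    exact h l v hv he
  have hmah : (A.charpoly.map (Int.castRingHom ℂ)).mahlerMeasure = 1 := by
    rw [← hchar, Polynomial.mahlerMeasure_eq_leadingCoeff_mul_prod_roots,
      (Matrix.charpoly_monic (im A)).leadingCoeff, norm_one, one_mul]
    refine Multiset.prod_eq_one fun x hx => ?_
    obtain ⟨a, ha, rfl⟩ := Multiset.mem_map.1 hx
    rw [hroot a (Polynomial.isRoot_of_mem_roots ha), max_self]
  have hfin : ∀ l ∈ (im A).charpoly.roots.toFinset, ∃ k : ℕ, 0 < k ∧ l ^ k = 1 := by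
    intro l hl
    have hl' := Multiset.mem_toFinset.1 hl
    have hr := Polynomial.isRoot_of_mem_roots hl'
    refine Polynomial.pow_eq_one_of_mahlerMeasure_eq_one hmah (fun h0 => ?_) ?_
    · have := hroot l hr
      rw [h0, norm_zero] at this
      exact zero_ne_one this
    · unfold Polynomial.aroots
      rw [hchar] at hl'
      exact hl'
  choose! κ hκ0 hκ1 using hfin
  refine ⟨∏ l ∈ (im A).charpoly.roots.toFinset, κ l, ?_, ?_⟩
  · exact Nat.one_le_iff_ne_zero.2 (Finset.prod_ne_zero_iff.2 fun l hl => (hκ0 l hl).ne')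
  · have h1 := F2_pow (im A) (k := ∏ l ∈ (im A).charpoly.roots.toFinset, κ l) fun l hl => by
      have hmem : l ∈ (im A).charpoly.roots.toFinset := by
        rw [Multiset.mem_toFinset, Polynomial.mem_roots (Matrix.charpoly_monic (im A)).ne_zero]
        exact hl
      obtain ⟨q, hq⟩ := Finset.dvd_prod_of_mem κ hmem
      rw [hq, pow_mul, hκ1 l hmem, one_pow]
    rw [him] at h1
    have h2 : (Int.castRingHom ℂ).mapMatrix
        ((A ^ (∏ l ∈ ((Int.castRingHom ℂ).mapMatrix A).charpoly.roots.toFinset, κ l) - 1) ^ n)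
          = 0 := by
      rw [map_pow, map_sub, map_pow, map_one]
      exact h1
    have hinj : Function.Injective ((Int.castRingHom ℂ).mapMatrix (m := Fin n)) := by
      intro M M' hM
      ext i j
      have := congrFun (congrFun hM i) j
      simpa using this
    exact hinj (h2.trans (map_zero _).symm)

theorem quasi_unipotent {n : ℕ} (V : PolVHS n) (T : V.grp) (hT : ∀ z : ℂ, mob T z = z + 1) :
    ∃ k : ℕ, 1 ≤ k ∧ ((V.rho T : Matrix (Fin n) (Fin n) ℤ) ^ k - 1) ^ n = 0 :=
  quasi_of_abs _ fun l v hv he => eig_abs V T hT l v hv he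

end MP2794d1.PG
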