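import Pool.Agent.Lib.MP_2794d1_ag.B07

/-!
F3: the logarithm of a unipotent rational matrix `U`, `(U - 1) ^ n = 0`. Let `X = U - 1`, `N = ∑ j ∈ Ico 1 n, ((-1) ^ (j + 1) / j) X ^ j`.
`N = X * (...)`, commuting with `X`, so `N ^ n = X ^ n * (...) = 0`. `exp N = 1 + X`: over `ℂ`, for `t` let
`L t = ∑ j ∈ Ico 1 n, ((-1) ^ (j + 1) / j) t ^ j X ^ j` (polynomial in `t`, values commute), `L' t (1 + t X) = X` (geometric sum and
`X ^ n = 0`). The function `Z t = uexp (- L t) 1 * (1 + t X)` has derivative `0` and `Z 0 = 1`, so `uexp (L 1) 1 = 1 + X`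
(`uexp_neg_mul`, B07; `uexp A 1` is the exponential of a matrix with `A ^ n = 0`; for the derivative of `t ↦ uexp (L t) 1`:
`(L t) ^ j` are polynomials in `t` with commuting values, `d/dt (L ^ j) = j L ^ (j - 1) L'`). Alternatively do the computation with
formal power series, or in the commutative ring `ℚ[X] ⧸ (X ^ n)`, or with `E s = ∑ j < n, (s choose j) X ^ j`, which satisfies
`E (s + t) = E s * E t` (Vandermonde, for natural `s, t`, hence for all), so `E s = exp (s N)` with `N = E'(0)`.
-/

namespace MP2794d1.PG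

open Matrix Complex Filter Topology

/-- the truncated logarithm -/
noncomputable def F3_L (m : ℕ) : Polynomial ℚ :=
  ∑ j ∈ Finset.range m, Polynomial.C ((-1) ^ j / ((j : ℚ) + 1)) * Polynomial.X ^ (j + 1)

/-- the truncated exponential of the truncated logarithm -/
noncomputable def F3_G (m : ℕ) : Polynomial ℚ :=
  ∑ i ∈ Finset.range (m + 1), Polynomial.C (1 / (i.factorial : ℚ)) * F3_L m ^ i

theorem F3_X_dvd (m : ℕ) : (Polynomial.X : Polynomial ℚ) ∣ F3_L m := by
  unfold F3_L
  refine Finset.dvd_sum fun j _ => ?_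
  exact Dvd.dvd.mul_left (dvd_pow_self _ (Nat.succ_ne_zero j)) _

theorem F3_dL (m : ℕ) : (1 + Polynomial.X) * Polynomial.derivative (F3_L m) =
    1 - (-Polynomial.X) ^ m := by
  have h1 : Polynomial.derivative (F3_L m) = ∑ j ∈ Finset.range m, (-Polynomial.X : Polynomial ℚ) ^ j := by
    unfold F3_L
    rw [Polynomial.derivative_sum]
    refine Finset.sum_congr rfl fun j _ => ?_
    have h5 : (-Polynomial.X : Polynomial ℚ) ^ j = (-1) ^ j * Polynomial.X ^ j := neg_pow _ _
    rw [Polynomial.derivative_C_mul, Polynomial.derivative_X_pow, Nat.add_sub_cancel, ← mul_assoc,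
      h5]
    have h2 : (Polynomial.C ((-1) ^ j / ((j : ℚ) + 1)) : Polynomial ℚ) *
        ((j + 1 : ℕ) : Polynomial ℚ) = (-1) ^ j := by
      have h3 : ((j + 1 : ℕ) : Polynomial ℚ) = Polynomial.C ((j : ℚ) + 1) := by
        simp
      rw [h3, ← Polynomial.C_mul, div_mul_cancel₀ _ (by positivity)]
      simp
    rw [← h2]
    simp
  rw [h1]
  have h4 := mul_neg_geom_sum (-Polynomial.X : Polynomial ℚ) m
  rw [sub_neg_eq_add] at h4
  exact h4

theorem F3_dG (m : ℕ) : Polynomial.derivative (F3_G m) =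
    (F3_G m - Polynomial.C (1 / (m.factorial : ℚ)) * F3_L m ^ m) *
      Polynomial.derivative (F3_L m) := by
  have h1 : F3_G m - Polynomial.C (1 / (m.factorial : ℚ)) * F3_L m ^ m =
      ∑ i ∈ Finset.range m, Polynomial.C (1 / (i.factorial : ℚ)) * F3_L m ^ i := by
    unfold F3_G
    rw [Finset.sum_range_succ, add_sub_cancel_right]
  rw [h1, Finset.sum_mul]
  unfold F3_G
  rw [Polynomial.derivative_sum, Finset.sum_range_succ']
  have h2 : Polynomial.derivative (Polynomial.C (1 / ((0 : ℕ).factorial : ℚ)) * F3_L m ^ 0) = 0 := by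
    simp
  rw [h2, add_zero]
  refine Finset.sum_congr rfl fun i _ => ?_
  rw [Polynomial.derivative_C_mul, Polynomial.derivative_pow, Nat.add_sub_cancel]
  have h3 : (Polynomial.C (1 / ((i + 1).factorial : ℚ)) : Polynomial ℚ) *
      Polynomial.C (((i + 1 : ℕ) : ℚ)) = Polynomial.C (1 / (i.factorial : ℚ)) := by
    rw [← Polynomial.C_mul, Nat.factorial_succ]
    congr 1
    have : (i.factorial : ℚ) ≠ 0 := by exact_mod_cast i.factorial_ne_zero
    have h4 : ((i : ℚ) + 1) ≠ 0 := by positivity
    push_cast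
    field_simp
  rw [← h3]
  ring

theorem F3_ode (m : ℕ) : ∃ H : Polynomial ℚ, (1 + Polynomial.X) *
    Polynomial.derivative (F3_G m - 1 - Polynomial.X) = (F3_G m - 1 - Polynomial.X) +
      Polynomial.X ^ m * H := by
  obtain ⟨L₁, hL₁⟩ := F3_X_dvd m
  refine ⟨-(Polynomial.C (1 / (m.factorial : ℚ)) * L₁ ^ m) -
    (F3_G m - Polynomial.C (1 / (m.factorial : ℚ)) * F3_L m ^ m) * (-1) ^ m, ?_⟩
  have h1 : Polynomial.derivative (F3_G m - 1 - Polynomial.X) =
      Polynomial.derivative (F3_G m) - 1 := by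
    simp
  rw [h1, mul_sub, F3_dG]
  have h2 : (1 + Polynomial.X) * ((F3_G m - Polynomial.C (1 / (m.factorial : ℚ)) * F3_L m ^ m) *
      Polynomial.derivative (F3_L m)) =
      (F3_G m - Polynomial.C (1 / (m.factorial : ℚ)) * F3_L m ^ m) *
        (1 - (-Polynomial.X) ^ m) := by
    rw [← F3_dL]
    ring
  rw [h2]
  have h3 : F3_L m ^ m = Polynomial.X ^ m * L₁ ^ m := by
    conv_lhs => rw [hL₁]
    rw [mul_pow]
  have h4 : (-Polynomial.X : Polynomial ℚ) ^ m = (-1) ^ m * Polynomial.X ^ m := by
    rw [neg_pow]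
  rw [h3, h4]
  ring

theorem F3_coeff (m : ℕ) : ∀ k : ℕ, k ≤ m → (F3_G m - 1 - Polynomial.X).coeff k = 0 := by
  obtain ⟨H, hH⟩ := F3_ode m
  set D : Polynomial ℚ := F3_G m - 1 - Polynomial.X with hD
  intro k
  induction k with
  | zero =>
    intro _
    have h1 : (F3_G m).coeff 0 = 1 := by
      unfold F3_G
      rw [Polynomial.finsetSum_coeff, Finset.sum_range_succ']
      have h2 : (F3_L m).coeff 0 = 0 := by
        obtain ⟨L₁, hL₁⟩ := F3_X_dvd m
        rw [hL₁]
        simp
      have h3 : ∀ i ∈ Finset.range m,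
          (Polynomial.C (1 / ((i + 1).factorial : ℚ)) * F3_L m ^ (i + 1)).coeff 0 = 0 := by
        intro i _
        rw [Polynomial.coeff_C_mul, Polynomial.coeff_zero_eq_eval_zero, Polynomial.eval_pow,
          ← Polynomial.coeff_zero_eq_eval_zero, h2, zero_pow (Nat.succ_ne_zero i), mul_zero]
      rw [Finset.sum_eq_zero h3]
      simp
    rw [hD, Polynomial.coeff_sub, Polynomial.coeff_sub, h1]
    simp
  | succ k ih =>
    intro hk
    have h0 := ih (by omega)
    have h1 := congrArg (fun q => Polynomial.coeff q k) hH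
    simp only [add_mul, one_mul, Polynomial.coeff_add] at h1
    have h2 : (Polynomial.X ^ m * H).coeff k = 0 := by
      rw [Polynomial.coeff_X_pow_mul']
      rw [if_neg (by omega)]
    have h3 : (Polynomial.X * Polynomial.derivative D).coeff k = (k : ℚ) * D.coeff k := by
      cases k with
      | zero => simp
      | succ l =>
        rw [Polynomial.coeff_X_mul, Polynomial.coeff_derivative]
        push_cast
        ring
    rw [h2, h3, h0, mul_zero, add_zero, add_zero, Polynomial.coeff_derivative] at h1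
    have h4 : ((k : ℚ) + 1) ≠ 0 := by positivity
    exact (mul_eq_zero.1 h1).resolve_right h4

theorem exists_log {n : ℕ} (U : Matrix (Fin n) (Fin n) ℚ) (hU : (U - 1) ^ n = 0) :
    ∃ N : Matrix (Fin n) (Fin n) ℚ, N ^ n = 0 ∧ cm U = uexp (cm N) 1 := by
  cases n with
  | zero => exact ⟨0, Subsingleton.elim _ _, Subsingleton.elim _ _⟩
  | succ m =>
    set X : Matrix (Fin (m + 1)) (Fin (m + 1)) ℚ := U - 1 with hX
    set N : Matrix (Fin (m + 1)) (Fin (m + 1)) ℚ := Polynomial.aeval X (F3_L m) with hNd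
    have hdvd : (Polynomial.X : Polynomial ℚ) ^ (m + 1) ∣ F3_G m - 1 - Polynomial.X := by
      rw [Polynomial.X_pow_dvd_iff]
      intro k hk
      exact F3_coeff m k (by omega)
    obtain ⟨R, hR⟩ := hdvd
    have h1 : Polynomial.aeval X (F3_G m) = U := by
      have h2 := congrArg (fun q => Polynomial.aeval X q) hR
      simp only [map_sub, map_one, Polynomial.aeval_X, map_mul, map_pow, hU, zero_mul] at h2
      have h3 : Polynomial.aeval X (F3_G m) = 1 + X := by
        rw [sub_sub, sub_eq_zero] at h2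
        exact h2
      rw [h3, hX]
      abel
    refine ⟨N, ?_, ?_⟩
    · obtain ⟨L₁, hL₁⟩ := F3_X_dvd m
      have h4 : F3_L m ^ (m + 1) = Polynomial.X ^ (m + 1) * L₁ ^ (m + 1) := by
        conv_lhs => rw [hL₁]
        rw [mul_pow]
      rw [hNd, ← map_pow, h4, map_mul, map_pow, Polynomial.aeval_X, hU, zero_mul]
    · have h5 : U = ∑ i ∈ Finset.range (m + 1), (1 / (i.factorial : ℚ)) • N ^ i := by
        conv_lhs => rw [← h1]
        unfold F3_G
        rw [map_sum]
        refine Finset.sum_congr rfl fun i _ => ?_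
        rw [map_mul, Polynomial.aeval_C, map_pow, ← hNd, Algebra.smul_def]
      have h6 : cm U = ∑ i ∈ Finset.range (m + 1), cm ((1 / (i.factorial : ℚ)) • N ^ i) := by
        conv_lhs => rw [h5]
        ext a b
        simp only [cm, Matrix.map_apply, Matrix.sum_apply]
        push_cast
        rfl
      rw [h6]
      unfold uexp
      refine Finset.sum_congr rfl fun i _ => ?_
      rw [B07_cm_pow, one_pow]
      ext a b
      simp only [cm, Matrix.map_apply, Matrix.smul_apply, smul_eq_mul]
      push_cast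
      rfl

end MP2794d1.PG
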