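import Pool.Agent.Lib.MP_2794d1_ag.PG.A1
import Pool.Agent.Lib.MP_2794d1_ag.PG.F2
import Pool.Agent.Lib.MP_2794d1_ag.PG.F3

/-!
F4: every cusp of `Δ` is a `UCusp` of a pulled back variation. `mob_dg`: `(√k w) / (√k)⁻¹ = k w`. `mob_all`: if
`mob T z = z + 1` on the half plane then `(a z + b) = (z + 1) (c z + d)` there (denominator not zero), so as polynomials
(infinitely many zeros) `c = 0`, `a = d`, `b = d`, and `d ≠ 0` (`det = 1`), so it holds for all `z : ℂ`.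
`exists_ucusp`: `T₁ = σ⁻¹ * T * σ` is in `(V.pull σ).grp` (`σ * T₁ * σ⁻¹ = T`), `mob T₁ w = w + 1` for `0 < im w`
(`mob_mob`, `mob_inv_mob`), for all `w` by `mob_all`. `quasi_unipotent (V.pull σ) T₁` gives `k`; `(V.pull σ).rho T₁ = V.rho T`.
`exists_log` for `U = qm ((V.rho T) ^ k)` gives `N`. In `V.pull (σ * dg k)` take `T₂ = (dg k)⁻¹ * T₁ ^ k * dg k`:
`(σ * dg k) * T₂ * (σ * dg k)⁻¹ = T ^ k ∈ V.grp`, `rho T₂ = V.rho T ^ k`; `mob (T₁ ^ k) z = z + k` (induction),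
`mob T₂ w = k⁻¹ (k w + k) = w + 1`.
-/

namespace MP2794d1.PG

open Matrix Complex Filter Topology

/-- the diagonal matrix with entries `√k, 1 / √k`; it acts by `w ↦ k w` -/
noncomputable def dg (k : ℝ) (hk : 0 < k) : Matrix.SpecialLinearGroup (Fin 2) ℝ :=
  ⟨!![Real.sqrt k, 0; 0, (Real.sqrt k)⁻¹], by
    rw [Matrix.det_fin_two_of, mul_inv_cancel₀ (Real.sqrt_pos.2 hk).ne', mul_zero, sub_zero]⟩

theorem mob_dg (k : ℝ) (hk : 0 < k) (w : ℂ) : mob (dg k hk) w = (k : ℂ) * w := by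
  have h1 : (Real.sqrt k) ≠ 0 := (Real.sqrt_pos.2 hk).ne'
  have h2 : ((Real.sqrt k : ℝ) : ℂ) ≠ 0 := by exact_mod_cast h1
  have h3 : ((Real.sqrt k : ℝ) : ℂ) * ((Real.sqrt k : ℝ) : ℂ) = (k : ℂ) := by
    rw [← Complex.ofReal_mul, Real.mul_self_sqrt hk.le]
  unfold mob
  have e00 : (dg k hk) 0 0 = Real.sqrt k := rfl
  have e01 : (dg k hk) 0 1 = 0 := rfl
  have e10 : (dg k hk) 1 0 = 0 := rfl
  have e11 : (dg k hk) 1 1 = (Real.sqrt k)⁻¹ := rfl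
  rw [e00, e01, e10, e11, ← h3, Complex.ofReal_inv, Complex.ofReal_zero, zero_mul, add_zero, zero_add,
    div_inv_eq_mul]
  ring

theorem mob_all (T : Matrix.SpecialLinearGroup (Fin 2) ℝ)
    (h : ∀ z : ℂ, 0 < z.im → mob T z = z + 1) : ∀ z : ℂ, mob T z = z + 1 := by
  have key : ∀ t : ℝ, 0 < t → T 0 1 = -(T 1 0) * t ^ 2 + T 1 1 ∧ T 0 0 * t = (T 1 0 + T 1 1) * t := by
    intro t ht
    have him : 0 < ((t : ℂ) * Complex.I).im := by simpa using ht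
    have h1 := h _ him
    have hd := F07_den T _ him
    unfold mob at h1
    rw [div_eq_iff hd] at h1
    have hre := congrArg Complex.re h1
    have him2 := congrArg Complex.im h1
    simp only [Complex.add_re, Complex.mul_re, Complex.ofReal_re, Complex.ofReal_im, Complex.I_re,
      Complex.I_im, Complex.add_im, Complex.mul_im, Complex.one_re, Complex.one_im] at hre him2
    constructor
    · nlinarith
    · nlinarith
  obtain ⟨a1, a2⟩ := key 1 one_pos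
  obtain ⟨b1, _⟩ := key 2 two_pos
  have hc : T 1 0 = 0 := by linarith
  have hb : T 0 1 = T 1 1 := by rw [hc] at a1; linarith
  have ha : T 0 0 = T 1 1 := by rw [hc] at a2; linarith
  have hdet : T 0 0 * T 1 1 - T 0 1 * T 1 0 = 1 := by
    have := T.det_coe
    rwa [Matrix.det_fin_two] at this
  have hd0 : T 1 1 ≠ 0 := by
    intro h0
    rw [h0, hc] at hdet
    norm_num at hdet
  have hd0' : ((T 1 1 : ℝ) : ℂ) ≠ 0 := by exact_mod_cast hd0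
  intro z
  unfold mob
  rw [hc, hb, ha, Complex.ofReal_zero, zero_mul, zero_add, div_eq_iff hd0']
  ring

theorem f4_mem {n : ℕ} (V : PolVHS n) {g h : Matrix.SpecialLinearGroup (Fin 2) ℝ} (hg : g ∈ V.grp)
    (hh : h ∈ V.grp) (e : g = h) : V.rho ⟨g, hg⟩ = V.rho ⟨h, hh⟩ := by
  subst e
  rfl

theorem f4_pow {n : ℕ} (V : PolVHS n) {g : Matrix.SpecialLinearGroup (Fin 2) ℝ} (hg : g ∈ V.grp)
    (k : ℕ) : V.rho ⟨g ^ k, V.grp.pow_mem hg k⟩ = V.rho ⟨g, hg⟩ ^ k := by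
  rw [← map_pow]
  rfl

theorem f4_mob_pow (T : Matrix.SpecialLinearGroup (Fin 2) ℝ)
    (h : ∀ z : ℂ, 0 < z.im → mob T z = z + 1) (k : ℕ) :
    ∀ z : ℂ, 0 < z.im → mob (T ^ k) z = z + k := by
  induction k with
  | zero =>
    intro z _
    rw [pow_zero, mob_one, Nat.cast_zero, add_zero]
  | succ k ih =>
    intro z hz
    rw [pow_succ, ← mob_mob _ _ _ hz, h z hz, ih (z + 1) (by simpa using hz)]
    push_cast
    ring

theorem exists_ucusp {n : ℕ} (V : PolVHS n) (σ T : Matrix.SpecialLinearGroup (Fin 2) ℝ)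
    (hT : T ∈ V.grp) (h : ∀ w : ℂ, 0 < w.im → mob T (mob σ w) = mob σ (w + 1)) :
    ∃ (k : ℕ) (hk : 0 < (k : ℝ)), Nonempty (UCusp (V.pull (σ * dg k hk))) := by
  obtain ⟨T₁, hT₁⟩ : ∃ T₁, T₁ = σ⁻¹ * T * σ := ⟨_, rfl⟩
  have e1 : σ * T₁ * σ⁻¹ = T := by rw [hT₁]; group
  have hm0 : σ * T₁ * σ⁻¹ ∈ V.grp := by rw [e1]; exact hT
  have hm1 : T₁ ∈ (V.pull σ).grp := hm0
  have hmob : ∀ w : ℂ, 0 < w.im → mob T₁ w = w + 1 := by
    intro w hw
    have h2 : mob T₁ w = mob σ⁻¹ (mob T (mob σ w)) := by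
      rw [mob_mob T σ w hw, mob_mob σ⁻¹ (T * σ) w hw, hT₁, mul_assoc]
    rw [h2, h w hw]
    exact (mob_inv_mob σ (w + 1) (by simpa using hw)).1
  have hmob' := mob_all T₁ hmob
  obtain ⟨k, hk1, hq⟩ := quasi_unipotent (V.pull σ) ⟨T₁, hm1⟩ hmob'
  have hk : 0 < (k : ℝ) := by exact_mod_cast hk1
  have hrho : (V.pull σ).rho ⟨T₁, hm1⟩ = V.rho ⟨T, hT⟩ := f4_mem V hm0 hT e1
  rw [hrho] at hq
  set A : Matrix (Fin n) (Fin n) ℤ := (V.rho ⟨T, hT⟩ : Matrix (Fin n) (Fin n) ℤ) with hA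
  have hU : (qm (A ^ k) - 1) ^ n = 0 := by
    have h3 : qm ((A ^ k - 1) ^ n) = (qm (A ^ k) - 1) ^ n := by
      have h4 : ∀ X : Matrix (Fin n) (Fin n) ℤ, qm X = (Int.castRingHom ℚ).mapMatrix X := fun X => rfl
      rw [h4, h4, map_pow, map_sub, map_one]
    rw [← h3, hq]
    ext i j
    simp [qm]
  obtain ⟨N, hN, hexp⟩ := exists_log (qm (A ^ k)) hU
  refine ⟨k, hk, ⟨?_⟩⟩
  have e2 : (σ * dg k hk) * ((dg k hk)⁻¹ * T₁ ^ k * dg k hk) * (σ * dg k hk)⁻¹ = T ^ k := by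
    rw [← e1, conj_pow]
    group
  have hm2 : (σ * dg k hk) * ((dg k hk)⁻¹ * T₁ ^ k * dg k hk) * (σ * dg k hk)⁻¹ ∈ V.grp := by
    rw [e2]
    exact V.grp.pow_mem hT k
  refine ⟨⟨(dg k hk)⁻¹ * T₁ ^ k * dg k hk, hm2⟩, mob_all _ fun z hz => ?_, N, hN, ?_⟩
  · show mob ((dg k hk)⁻¹ * T₁ ^ k * dg k hk) z = z + 1
    have h5 : mob ((dg k hk)⁻¹ * T₁ ^ k * dg k hk) z =
        mob (dg k hk)⁻¹ (mob (T₁ ^ k) (mob (dg k hk) z)) := by
      rw [mob_mob (T₁ ^ k) (dg k hk) z hz, mob_mob (dg k hk)⁻¹ (T₁ ^ k * dg k hk) z hz, mul_assoc]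
    have hz1 : 0 < (z + 1).im := by simpa using hz
    have h6 : mob (T₁ ^ k) (mob (dg k hk) z) = mob (dg k hk) (z + 1) := by
      rw [f4_mob_pow T₁ hmob k _ (mob_im_pos _ z hz), mob_dg, mob_dg]
      push_cast
      ring
    rw [h5, h6]
    exact (mob_inv_mob (dg k hk) (z + 1) hz1).1
  · have h7 : (V.pull (σ * dg k hk)).rho ⟨(dg k hk)⁻¹ * T₁ ^ k * dg k hk, hm2⟩ =
        V.rho ⟨T, hT⟩ ^ k := by
      rw [← f4_pow V hT k]
      exact f4_mem V hm2 _ e2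
    rw [← hexp, h7, Units.val_pow_eq_pow_val, ← hA]
    ext i j
    simp [cm, qm, im]

end MP2794d1.PG
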