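import Pool.Agent.Lib.MP_2794d1_ag.PG.G4

/-!
G5: the global count. `K, m, σ` from `hΔ`. For the points of `K`: `compact_cmc V c (rk V) rfl α hLB K`; for every `i : Fin m`:
`count_at` for `σ i`. `SV4_finite` (PC/SV4) turns the bounds for finite subsets into: the sets
`{z ∈ K | IsCMc V z h}`, `{w | |re w| ≤ 1, 1 ≤ im w, IsCMc V (mob (σ i) w) h}` are finite with `ncard ≤ C (log h) ^ 5`. `S` is the union of
the first set and the images under `mob (σ i)` of the others (`Finset.card_union_le`, `Finset.card_biUnion_le`,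
`Finset.card_image_le`). For a CM point `z` take `g` from `hΔ`: `mob g z ∈ S` (`U04_equiv`), and `z = mob g⁻¹ (mob g z)`.
-/

namespace MP2794d1.PG

open Matrix Complex Filter Topology MP2794d1.PC

theorem g5_equiv {n : ℕ} (V : PolVHS n) (g : V.grp) (z : ℂ) (hz : 0 < z.im) (H : ℝ)
    (h : IsCMc V z H) : IsCMc V (mob g z) H := by
  obtain ⟨A, hA1, hA2, hA3⟩ := h
  set P : Matrix (Fin n) (Fin n) ℤ := (V.rho g : Matrix (Fin n) (Fin n) ℤ) with hP
  set P' : Matrix (Fin n) (Fin n) ℤ := (V.rho g⁻¹ : Matrix (Fin n) (Fin n) ℤ) with hP'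
  have h1 : P * P' = 1 := by
    rw [hP, hP', ← Units.val_mul, ← map_mul, mul_inv_cancel, map_one, Units.val_one]
  have h2 : P' * P = 1 := by
    rw [hP, hP', ← Units.val_mul, ← map_mul, inv_mul_cancel, map_one, Units.val_one]
  have hmul : ∀ X Y : Matrix (Fin n) (Fin n) ℤ, im (X * Y) = im X * im Y := fun X Y => by
    ext i j
    simp [im, Matrix.mul_apply]
  have hone : im (1 : Matrix (Fin n) (Fin n) ℤ) = 1 := by
    ext i j
    by_cases h : i = j
    · subst h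
      simp [im]
    · simp [im, Matrix.one_apply_ne h]
  have h3 : im P * im P' = 1 := by rw [← hmul, h1, hone]
  have h4 : im P' * im P = 1 := by rw [← hmul, h2, hone]
  refine ⟨P * A * P', ?_, ?_, ?_⟩
  · rw [hmul, hmul]
    rw [u04_charpoly (im A) (im P) (im P') h3 h4]
    exact hA1
  · intro p x hx
    rw [V.equiv g p z hz] at hx ⊢
    obtain ⟨y, hy, rfl⟩ := hx
    refine ⟨im A *ᵥ y, hA2 p y hy, ?_⟩
    simp only [Matrix.mulVecLin_apply]
    rw [hmul, hmul, Matrix.mulVec_mulVec, Matrix.mulVec_mulVec]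
    congr 1
    show im P * im A = im P * im A * im P' * im P
    rw [Matrix.mul_assoc (im P * im A), h4, Matrix.mul_one]
  · rw [u04_trace V.Q A P P' h1 h2 (V.flat g)]
    exact hA3

theorem global_count {n : ℕ} (V : PolVHS n) (hΔ : FiniteType V.grp) (c : UCusp V)
    (hns : ∀ N, ¬ IsShimuraLine V N) (α : Fin 3 → PIdx n (len V) (rk V))
    (hLB : LB (PL V (len V) (rk V)) α) :
    ∃ C : ℝ, ∀ h : ℝ, 2 ≤ h → ∃ S : Finset ℂ, (S.card : ℝ) ≤ C * Real.log h ^ 5 ∧
      ∀ z : ℂ, 0 < z.im → IsCMc V z h → ∃ g : V.grp, ∃ w ∈ S, z = mob g w := by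
  classical
  obtain ⟨K, m, σ, hK, hKH, hT, hcov⟩ := id hΔ
  obtain ⟨CK, hCK⟩ := compact_cmc V c (rk V) rfl α hLB K hK hKH
  have hC : ∀ i : Fin m, ∃ C : ℝ, ∀ h : ℝ, 2 ≤ h → ∀ S : Finset ℂ,
      (∀ w ∈ S, |w.re| ≤ 1 ∧ 1 ≤ w.im ∧ IsCMc V (mob (σ i) w) h) →
      (S.card : ℝ) ≤ C * Real.log h ^ 5 := by
    intro i
    obtain ⟨T, hT1, hT2⟩ := hT i
    exact count_at V hΔ hns α hLB (σ i) T hT1 hT2
  choose C hC using hC
  refine ⟨CK + ∑ i, C i, fun h hh => ?_⟩
  obtain ⟨hAf, hAc⟩ := SV4_finite {z | z ∈ K ∧ IsCMc V z h} (CK * Real.log h ^ 5)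
    (fun T hT => hCK h hh T hT)
  have hB : ∀ i : Fin m, {w : ℂ | |w.re| ≤ 1 ∧ 1 ≤ w.im ∧ IsCMc V (mob (σ i) w) h}.Finite ∧
      (({w : ℂ | |w.re| ≤ 1 ∧ 1 ≤ w.im ∧ IsCMc V (mob (σ i) w) h}.ncard : ℕ) : ℝ) ≤
        C i * Real.log h ^ 5 := fun i => SV4_finite _ _ (fun T hT => hC i h hh T hT)
  refine ⟨hAf.toFinset ∪ Finset.univ.biUnion
    (fun i => (hB i).1.toFinset.image (fun w => mob (σ i) w)), ?_, ?_⟩
  · have h1 : (hAf.toFinset.card : ℝ) ≤ CK * Real.log h ^ 5 := by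
      rw [← Set.ncard_eq_toFinset_card _ hAf]; exact hAc
    have h2 : ∀ i : Fin m, (((hB i).1.toFinset.image (fun w => mob (σ i) w)).card : ℝ) ≤
        C i * Real.log h ^ 5 := by
      intro i
      have h3 : (((hB i).1.toFinset).card : ℝ) ≤ C i * Real.log h ^ 5 := by
        rw [← Set.ncard_eq_toFinset_card _ (hB i).1]; exact (hB i).2
      have h4 : (((hB i).1.toFinset.image (fun w => mob (σ i) w)).card : ℝ) ≤
          ((hB i).1.toFinset.card : ℝ) := by exact_mod_cast Finset.card_image_le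
      exact h4.trans h3
    have h5 : ((Finset.univ.biUnion
        (fun i => (hB i).1.toFinset.image (fun w => mob (σ i) w))).card : ℝ) ≤
        ∑ i, C i * Real.log h ^ 5 := by
      have h6 : ((Finset.univ.biUnion
        (fun i => (hB i).1.toFinset.image (fun w => mob (σ i) w))).card : ℝ) ≤
        ∑ i, (((hB i).1.toFinset.image (fun w => mob (σ i) w)).card : ℝ) := by
        exact_mod_cast Finset.card_biUnion_le
      exact h6.trans (Finset.sum_le_sum fun i _ => h2 i)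
    have h7 := Finset.card_union_le hAf.toFinset (Finset.univ.biUnion
      (fun i => (hB i).1.toFinset.image (fun w => mob (σ i) w)))
    have h8 : ((hAf.toFinset ∪ Finset.univ.biUnion
        (fun i => (hB i).1.toFinset.image (fun w => mob (σ i) w))).card : ℝ) ≤
        (hAf.toFinset.card : ℝ) + ((Finset.univ.biUnion
        (fun i => (hB i).1.toFinset.image (fun w => mob (σ i) w))).card : ℝ) := by
      exact_mod_cast h7
    rw [add_mul, Finset.sum_mul]
    linarith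
  · intro z hz hcm
    obtain ⟨g, hg, hor⟩ := hcov z hz
    have hz' : 0 < (mob g z).im := mob_im_pos g z hz
    have hcm' : IsCMc V (mob g z) h := g5_equiv V ⟨g, hg⟩ z hz h hcm
    have hback : z = mob (⟨g, hg⟩⁻¹ : V.grp) (mob g z) := by
      have h1 : mob ((⟨g, hg⟩⁻¹ : V.grp) : Matrix.SpecialLinearGroup (Fin 2) ℝ) (mob g z)
          = mob g⁻¹ (mob g z) := rfl
      rw [h1, mob_mob _ _ _ hz, inv_mul_cancel, mob_one]
    refine ⟨(⟨g, hg⟩⁻¹ : V.grp), mob g z, ?_, hback⟩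
    rw [Finset.mem_union]
    rcases hor with h1 | ⟨i, w, h1, h2, h3⟩
    · exact Or.inl (hAf.mem_toFinset.2 ⟨h1, hcm'⟩)
    · refine Or.inr ?_
      rw [Finset.mem_biUnion]
      refine ⟨i, Finset.mem_univ i, Finset.mem_image.2 ⟨w, ?_, h3.symm⟩⟩
      rw [h3] at hcm'
      exact (hB i).1.mem_toFinset.2 ⟨h1, h2, hcm'⟩

end MP2794d1.PG
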