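import Pool.Agent.Lib.MP_2794d1_ag.PG.C2
import Pool.Agent.Lib.MP_2794d1_ag.PC.CP3
import Pool.Agent.Lib.MP_2794d1_ag.PC.CP9
import Pool.Agent.Lib.MP_2794d1_ag.PC.CP10
import Pool.Agent.Lib.MP_2794d1_ag.PC.CP11
import Pool.Agent.Lib.MP_2794d1_ag.J06

/-!
C3: the vector `M`, its derivative and its image under `dG` are independent. By `CP3_loc` choose analytic frames `W z p` near
`z₁` (`rk V p` columns), `M z = pmin (rk V) (W z)` (analytic, `CP3_minor`; `D.L z (M z)` near `z₁` by `hL`). Let `W₁ = W z₁`, `W'` the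
derivatives of the entries, `T = TV V z₁`, `N = cm c.N`. `section_theta` (J06) for every column of `W · p` (a section of
`V.F (lo + p)`): the columns of `W' p - T * W₁ p` are in the range of `W₁ p`, so `W' p = T * W₁ p + W₁ p * B p`. `dpm_curve`:
`M' z₁ f = dpm W₁ W' f = dpm W₁ (T W₁) f + (∑ tr B p) M z₁ f` (`dpm_add`, `dpm_right`). `hG` and `pmin_mul`:
`D.G.E s *ᵥ M z₁ = pmin (uexp N s * W₁)`; the derivative at `s = 0` is `D.dG *ᵥ M z₁` (entries of `G.P` are polynomials; compare
CB6, CP10) and `dpm W₁ (N W₁)` (`dpm_curve`, the derivative of `uexp N s` at `0` is `N`, see CP10). Suppose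
`a • M z₁ + b • M' z₁ + c' • (dG *ᵥ M z₁) = 0`. Then with `X = b T + c' N`: `dpm W₁ (X W₁) f = a' * pmin W₁ f`, `a' = -a - b ∑ tr B`
(linearity), so `tangent` (CP9) with `A t = 1 + t • X` (`dpm_curve` for the curve `(1 + t X) W₁`) gives that `X` preserves all the
`V.F (lo + p)`, `p < len V`, hence all `V.F q` (`f04_top`, `f04_bot`), `X ∈ FEnd 0`, `b = c' = 0` by `hI`, then `a = 0` as `M z₁ ≠ 0`
(`PL_ne`). `exists_minor3'`: three linearly independent vectors of `ℂ^ι` have a nonzero minor: see the proof of `exists_minor3`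
(CB7), which uses only independence.
-/

namespace MP2794d1.PG

open Matrix Complex Filter Topology MP2794d1.PC

theorem exists_minor3' {ι : Type} [Fintype ι] [DecidableEq ι] (u v w : ι → ℂ)
    (h : ∀ a b c : ℂ, a • u + b • v + c • w = 0 → a = 0 ∧ b = 0 ∧ c = 0) :
    ∃ α : Fin 3 → ι, (Matrix.of ![fun i => u (α i), fun i => v (α i), fun i => w (α i)]).det ≠ 0 := by
  let e := Fintype.equivFin ι
  let x : Fin 3 → ι → ℂ := ![u, v, w]
  let W : Matrix (Fin (Fintype.card ι)) (Fin 3) ℂ := Matrix.of fun a l => x l (e.symm a)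
  have hW : LinearIndependent ℂ Wᵀ := by
    rw [Fintype.linearIndependent_iff]
    intro c hc
    have h1 : c 0 • u + c 1 • v + c 2 • w = 0 := by
      funext i
      have h2 := congrFun hc (e i)
      rw [Fin.sum_univ_three] at h2
      have h3 : ∀ l, Wᵀ l (e i) = x l i := by
        intro l
        show x l (e.symm (e i)) = x l i
        rw [Equiv.symm_apply_apply]
      simp only [Pi.add_apply, Pi.smul_apply, h3, Pi.zero_apply] at h2
      exact h2
    obtain ⟨h0, h1, h2⟩ := h _ _ _ h1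
    intro l
    fin_cases l
    · exact h0
    · exact h1
    · exact h2
  obtain ⟨f, hf⟩ := exists_minor_ne W hW
  refine ⟨fun i => e.symm (f i), ?_⟩
  have h1 : (Matrix.of ![fun i => u (e.symm (f i)), fun i => v (e.symm (f i)),
      fun i => w (e.symm (f i))]) = (W.submatrix f id)ᵀ := by
    ext l i
    fin_cases l <;> rfl
  rw [h1, Matrix.det_transpose]
  exact hf

theorem transversal {n : ℕ} (V : PolVHS n) (c : Cusp V)
    (D : Datum V.grp (PIdx n (len V) (rk V))) (hL : ∀ z v, D.L z v ↔ PL V (len V) (rk V) z v)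
    (hG : ∀ s : ℂ, D.G.E s = pt (rk V) (uexp (cm c.N) s)) (z₁ : ℂ) (h₁ : 0 < z₁.im)
    (hI : ∀ a b : ℂ, a • cm c.N + b • TV V z₁ ∈ FEnd (fun p => V.F p z₁) 0 → a = 0 ∧ b = 0) :
    ∃ M : ℂ → PIdx n (len V) (rk V) → ℂ, (∀ i, AnalyticAt ℂ (fun z => M z i) z₁) ∧
      (∀ᶠ z in 𝓝 z₁, D.L z (M z)) ∧
      ∀ a b c' : ℂ, a • M z₁ + b • (fun i => deriv (fun z => M z i) z₁) + c' • (D.dG *ᵥ M z₁) = 0 →
        a = 0 ∧ b = 0 ∧ c' = 0 := by
  choose W hW1 hW2 using CP3_loc V z₁ h₁
  have hW0 : ∀ p, LinearIndependent ℂ (W p z₁)ᵀ ∧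
      V.F (V.lo + ((p : ℕ) : ℤ)) z₁ = LinearMap.range (W p z₁).mulVecLin :=
    fun p => (hW2 p).self_of_nhds
  let W1 : (p : Fin (len V)) → Matrix (Fin n) (Fin (rk V p)) ℂ := fun p => W p z₁
  have hPL : PL V (len V) (rk V) z₁ (pmin (rk V) W1) :=
    ⟨W1, 1, one_ne_zero, hW0, by rw [one_smul]⟩
  have hM0 : pmin (rk V) W1 ≠ 0 := PL_ne V _ _ z₁ _ hPL
  refine ⟨fun z => pmin (rk V) (fun p => W p z), fun f => ?_, ?_, ?_⟩
  · show AnalyticAt ℂ (fun z => ∏ p, minor (W p z) (f p)) z₁
    apply Finset.analyticAt_fun_prod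
    intro p _
    exact CP3_minor (W p) z₁ (hW1 p) (f p)
  · filter_upwards [eventually_all.2 hW2] with z hz
    rw [hL]
    exact ⟨fun p => W p z, 1, one_ne_zero, fun p => hz p, by rw [one_smul]⟩
  intro a b c' habc
  set T := TV V z₁ with hT
  set N := cm c.N with hN
  have hNn := cm_pow c.N c.nil
  let W' : (p : Fin (len V)) → Matrix (Fin n) (Fin (rk V p)) ℂ :=
    fun p => Matrix.of fun i j => deriv (fun z => W p z i j) z₁
  have hder : ∀ p i j, HasDerivAt (fun z => W p z i j) (W' p i j) z₁ :=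
    fun p i j => (hW1 p i j).differentiableAt.hasDerivAt
  have hB : ∀ p, ∃ B : Matrix (Fin (rk V p)) (Fin (rk V p)) ℂ, W' p = T * W1 p + W1 p * B := by
    intro p
    have hcol : ∀ j, ∃ y : Fin (rk V p) → ℂ,
        W1 p *ᵥ y = (fun i => W' p i j) - T *ᵥ (fun i => W1 p i j) := by
      intro j
      have h2 := section_theta V h₁ (V.lo + ((p : ℕ) : ℤ)) (fun z i => W p z i j)
        (fun i => hW1 p i j) (by
          filter_upwards [hW2 p] with z hz
          rw [hz.2]
          refine ⟨Pi.single j 1, ?_⟩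
          rw [Matrix.mulVecLin_apply, Matrix.mulVec_single_one]
          rfl)
      rw [(hW0 p).2] at h2
      obtain ⟨y, hy⟩ := h2
      exact ⟨y, hy⟩
    choose y hy using hcol
    refine ⟨Matrix.of fun i j => y j i, ?_⟩
    ext i j
    have h3 := congrFun (hy j) i
    have h4 : (W1 p * (Matrix.of fun i j => y j i : Matrix (Fin (rk V p)) (Fin (rk V p)) ℂ)) i j =
        (W1 p *ᵥ y j) i := rfl
    have h5 : (T * W1 p) i j = (T *ᵥ fun i => W1 p i j) i := rfl
    rw [Matrix.add_apply, h4, h5, h3, Pi.sub_apply]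
    ring
  choose B hB using hB
  set tr : ℂ := ∑ p, (B p).trace with htr
  have hMd : ∀ f, deriv (fun z => pmin (rk V) (fun p => W p z) f) z₁ =
      dpm (rk V) W1 (fun p => T * W1 p) f + tr * pmin (rk V) W1 f := by
    intro f
    have h1 := (dpm_curve (rk V) (fun z p => W p z) W' z₁ hder f).deriv
    have h2 : W' = fun p => T * W1 p + W1 p * B p := funext hB
    have h3 := dpm_add (rk V) W1 (fun p => T * W1 p) (fun p => W1 p * B p) f
    rw [dpm_right (rk V) W1 B f] at h3
    rw [h1, h2]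
    exact h3
  have hU : ∀ i j, HasDerivAt (fun s => uexp N s i j) (N i j) 0 := by
    intro i j
    have h1 := uexp_deriv N hNn 0 i j
    rw [uexp_zero, Matrix.mul_one] at h1
    exact h1
  have hGd : ∀ f, (D.dG *ᵥ pmin (rk V) W1) f = dpm (rk V) W1 (fun p => N * W1 p) f := by
    intro f
    have h1 : HasDerivAt (fun s => ∑ g, D.G.E s f g * pmin (rk V) W1 g)
        (∑ g, D.dG f g * pmin (rk V) W1 g) 0 :=
      HasDerivAt.fun_sum fun g _ => ((D.G.P f g).hasDerivAt_aeval (0 : ℂ)).mul_const _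
    have h2 := dpm_curve (rk V) (fun s p => uexp N s * W1 p) (fun p => N * W1 p) 0
      (fun p i j => CP9_mul (W1 p) (fun s => uexp N s) N hU i j) f
    simp only [uexp_zero, Matrix.one_mul] at h2
    have h3 : (fun s => pmin (rk V) (fun p => uexp N s * W1 p) f) =
        fun s => ∑ g, D.G.E s f g * pmin (rk V) W1 g := by
      funext s
      rw [pmin_mul, ← hG]
      rfl
    rw [h3] at h2
    exact h1.unique h2
  set X : Matrix (Fin n) (Fin n) ℂ := b • T + c' • N with hX
  have hdX : ∀ f, dpm (rk V) W1 (fun p => X * W1 p) f = (-(a + b * tr)) * pmin (rk V) W1 f := by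
    intro f
    have h1 := dpm_add (rk V) W1 (fun p => b • (T * W1 p)) (fun p => c' • (N * W1 p)) f
    rw [dpm_smul, dpm_smul, ← hGd] at h1
    have h2 : (fun p => X * W1 p) = fun p => b • (T * W1 p) + c' • (N * W1 p) := by
      funext p
      rw [hX, Matrix.add_mul, Matrix.smul_mul, Matrix.smul_mul]
    have h3 := congrFun habc f
    simp only [Pi.add_apply, Pi.smul_apply, smul_eq_mul, Pi.zero_apply] at h3
    rw [hMd f] at h3
    rw [h2, h1]
    have h4 : (D.dG *ᵥ pmin (rk V) fun p => W p z₁) f = (D.dG *ᵥ pmin (rk V) W1) f := rfl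
    have h5 : (pmin (rk V) (fun p => W p z₁)) f = pmin (rk V) W1 f := rfl
    rw [h4, h5] at h3
    linear_combination h3
  have hXA : ∀ i j, HasDerivAt (fun t : ℂ => (1 + t • X) i j) (X i j) 0 := by
    intro i j
    have h2 : HasDerivAt (fun t : ℂ => (1 : Matrix (Fin n) (Fin n) ℂ) i j + t * X i j)
        (1 * X i j) 0 :=
      ((hasDerivAt_id (0 : ℂ)).mul_const (X i j)).const_add _
    rw [one_mul] at h2
    exact h2
  have htan := tangent (rk V) W1 (fun p => (hW0 p).1) (fun t => 1 + t • X) X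
    (by rw [zero_smul, add_zero]) hXA (-(a + b * tr)) (by
      intro f
      have h2 := dpm_curve (rk V) (fun (t : ℂ) p => (1 + t • X) * W1 p) (fun p => X * W1 p) 0
        (fun p i j => CP9_mul (W1 p) (fun t => 1 + t • X) X hXA i j) f
      simp only [zero_smul, add_zero, Matrix.one_mul] at h2
      rw [hdX f] at h2
      exact h2)
  have hXF : X ∈ FEnd (fun p => V.F p z₁) 0 := by
    intro p x hx
    show X *ᵥ x ∈ V.F (p + 0) z₁
    rw [add_zero]
    have hx' : x ∈ V.F p z₁ := hx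
    rcases le_or_gt p V.lo with hp | hp
    · rw [f04_top V h₁ hp]; exact Submodule.mem_top
    · rcases le_or_gt V.hi p with hp2 | hp2
      · rw [f04_bot V h₁ hp2, Submodule.mem_bot] at hx'
        rw [hx', Matrix.mulVec_zero]
        exact Submodule.zero_mem _
      · have hlt : (p - V.lo).toNat < len V := by
          unfold len; omega
        have hpk : V.lo + (((⟨(p - V.lo).toNat, hlt⟩ : Fin (len V)) : ℕ) : ℤ) = p := by
          show V.lo + (((p - V.lo).toNat : ℕ) : ℤ) = p
          omega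
        have h1 := (hW0 ⟨(p - V.lo).toNat, hlt⟩).2
        rw [hpk] at h1
        rw [h1] at hx' ⊢
        exact htan ⟨(p - V.lo).toNat, hlt⟩ x hx'
  obtain ⟨hc, hb⟩ := hI c' b (by rw [add_comm]; exact hXF)
  refine ⟨?_, hb, hc⟩
  rw [hb, hc, zero_smul, zero_smul, add_zero, add_zero] at habc
  exact (smul_eq_zero.1 habc).resolve_right hM0

end MP2794d1.PG
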