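import Pool.Agent.Lib.MP_2794d1_ag.PG.A1

/-!
A2: the generic Mumford-Tate Lie algebra and the Shimura alternative do not change under pull back. `mob σ` is a bijection of
the half plane (`mob_inv_mob`, `mob_im_pos`): `IsGrading (V.pull σ) w μ` is (by `Iff.rfl`) `IsGrading V (mob σ w) μ`, so the two
sets in the definition of `genericMT` are equal (a point `z` is `mob σ (mob σ⁻¹ z)`). `pull_shimura`: every field of
`IsShimuraLine V N` at `z` is the field of `IsShimuraLine (V.pull σ) N` at `mob σ⁻¹ z` (rewrite `pull_genericMT`).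
-/

namespace MP2794d1.PG

open Matrix Complex Filter Topology MP2794d1.PC

theorem A2_grading {n : ℕ} (V : PolVHS n) (σ : Matrix.SpecialLinearGroup (Fin 2) ℝ) (w : ℂ)
    (μ : Matrix (Fin n) (Fin n) ℂ) : IsGrading (V.pull σ) w μ ↔ IsGrading V (mob σ w) μ := Iff.rfl

theorem A2_point (σ : Matrix.SpecialLinearGroup (Fin 2) ℝ) (z : ℂ) (hz : 0 < z.im) :
    ∃ w : ℂ, 0 < w.im ∧ mob σ w = z :=
  ⟨mob σ⁻¹ z, mob_im_pos _ _ hz, (mob_inv_mob σ z hz).2⟩

theorem pull_genericMT {n : ℕ} (V : PolVHS n) (σ : Matrix.SpecialLinearGroup (Fin 2) ℝ) :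
    genericMT (V.pull σ) = genericMT V := by
  have h : {m : Submodule ℚ (Matrix (Fin n) (Fin n) ℚ) | IsLie m ∧ ∀ z : ℂ, 0 < z.im → ∀ μ,
        IsGrading (V.pull σ) z μ → μ ∈ cx (m : Set (Matrix (Fin n) (Fin n) ℚ))} =
      {m | IsLie m ∧ ∀ z : ℂ, 0 < z.im → ∀ μ, IsGrading V z μ →
        μ ∈ cx (m : Set (Matrix (Fin n) (Fin n) ℚ))} := by
    ext m
    constructor
    · rintro ⟨h1, h2⟩
      refine ⟨h1, fun z hz μ hμ => ?_⟩
      obtain ⟨w, hw, rfl⟩ := A2_point σ z hz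
      exact h2 w hw μ hμ
    · rintro ⟨h1, h2⟩
      exact ⟨h1, fun z hz μ hμ => h2 (mob σ z) (mob_im_pos σ z hz) μ hμ⟩
  unfold genericMT
  rw [h]

theorem pull_shimura {n : ℕ} (V : PolVHS n) (σ : Matrix.SpecialLinearGroup (Fin 2) ℝ)
    (N : Matrix (Fin n) (Fin n) ℚ) (h : IsShimuraLine (V.pull σ) N) : IsShimuraLine V N := by
  have hg := pull_genericMT V σ
  refine ⟨fun z hz => ?_, ?_, fun z hz => ?_, fun z hz => ?_, ?_, fun z hz => ?_⟩
  · obtain ⟨w, hw, rfl⟩ := A2_point σ z hz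
    have := h.grading w hw
    rw [hg] at this
    exact this
  · have := h.lie
    rwa [hg] at this
  · obtain ⟨w, hw, rfl⟩ := A2_point σ z hz
    have := h.sv1 w hw
    rw [hg] at this
    exact this
  · obtain ⟨w, hw, rfl⟩ := A2_point σ z hz
    have := h.line w hw
    rw [hg] at this
    exact this
  · have := h.mem
    rwa [hg] at this
  · obtain ⟨w, hw, rfl⟩ := A2_point σ z hz
    exact h.ne w hw

end MP2794d1.PG
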