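import Pool.Agent.Lib.MP_2794d1_ag.U04

/-!
E1: adapted frames and heights at points where the Hodge norms of the standard basis vectors are bounded. `qf_adapted` (L01):
`qf V z (e_i) = ∑ a, normSq (S⁻¹ a i)`, so `‖S⁻¹ a i‖ ≤ 1 + m` (`L05_norm_le`; `m ≥ 0` if such a point exists, `qf_nonneg`).
`Adapted.on`: `Sᵀ * im Q * mconj S = diagonal (I ^ (wt - 2 d a))`, so `mconj S = (im Q)⁻¹ * (S⁻¹)ᵀ * diagonal _`
(`im_Q_unit`, J01), entries `≤ (∑ ‖(im Q)⁻¹ i j‖) (1 + m)` (`n` terms). `height_of_qf`: `A` as in `IsCMc`, `S` adapted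
(`exists_adapted`), `im A = S * (S⁻¹ * im A * S) * S⁻¹`, the entries of the middle factor are `≤ H` (`rosati_frob`, U01, as in
the proof of `cm_height`, U04), `U04_prod`: `|A i j| ≤ n ^ 2 C ^ 2 H`.
-/

namespace MP2794d1.PG

open Matrix Complex Filter Topology

theorem frame_bound {n : ℕ} (V : PolVHS n) (m : ℝ) : ∃ C : ℝ, 0 ≤ C ∧ ∀ z : ℂ, 0 < z.im →
    (∀ i, qf V z (Pi.single i 1) ≤ m) → ∀ (S : Matrix (Fin n) (Fin n) ℂ) (d : Fin n → ℤ),
      Adapted V.wt V.Q (fun p => V.F p z) S d → ∀ a b, ‖S a b‖ ≤ C ∧ ‖S⁻¹ a b‖ ≤ C := by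
  set M : ℝ := ∑ a, ∑ b, ‖(im V.Q)⁻¹ a b‖ with hM
  have hM0 : 0 ≤ M := by positivity
  refine ⟨(1 + |m|) * (1 + M), by positivity, fun z hz hq S d hS a b => ?_⟩
  have hm : m ≤ |m| := le_abs_self m
  have hm0 : 0 ≤ |m| := abs_nonneg m
  have hinv : ∀ a b, ‖S⁻¹ a b‖ ≤ 1 + |m| := by
    intro a b
    have h1 := hq b
    rw [qf_adapted V hz hS] at h1
    have h4 := L05_norm_le _ (h1.trans hm) a
    have h5 : (S⁻¹ *ᵥ (Pi.single b 1)) a = S⁻¹ a b := by
      rw [Matrix.mulVec_single_one]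
      rfl
    rwa [h5] at h4
  constructor
  · have hQu := im_Q_unit (V.phs z hz)
    have hSt : (S⁻¹)ᵀ * Sᵀ = 1 := by
      rw [← Matrix.transpose_mul, Matrix.mul_nonsing_inv S hS.inv, Matrix.transpose_one]
    have h1 : mconj S = (im V.Q)⁻¹ * ((S⁻¹)ᵀ *
        Matrix.diagonal (fun a => Complex.I ^ (V.wt - 2 * d a))) := by
      rw [← hS.on]
      calc mconj S = ((im V.Q)⁻¹ * im V.Q) * mconj S := by
            rw [Matrix.nonsing_inv_mul _ hQu, Matrix.one_mul]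
        _ = (im V.Q)⁻¹ * (((S⁻¹)ᵀ * Sᵀ) * im V.Q * mconj S) := by
            rw [hSt, Matrix.one_mul, Matrix.mul_assoc]
        _ = _ := by simp only [Matrix.mul_assoc]
    have h2 : ‖S a b‖ = ‖mconj S a b‖ := by
      show ‖S a b‖ = ‖(starRingEnd ℂ) (S a b)‖
      rw [RCLike.norm_conj]
    rw [h2, h1, Matrix.mul_apply]
    calc ‖∑ c, (im V.Q)⁻¹ a c * ((S⁻¹)ᵀ *
          Matrix.diagonal (fun a => Complex.I ^ (V.wt - 2 * d a))) c b‖
        ≤ ∑ c, ‖(im V.Q)⁻¹ a c * ((S⁻¹)ᵀ *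
          Matrix.diagonal (fun a => Complex.I ^ (V.wt - 2 * d a))) c b‖ := norm_sum_le _ _
      _ ≤ ∑ c, ‖(im V.Q)⁻¹ a c‖ * (1 + |m|) := by
          refine Finset.sum_le_sum fun c _ => ?_
          rw [norm_mul]
          apply mul_le_mul_of_nonneg_left _ (norm_nonneg _)
          rw [Matrix.mul_diagonal, norm_mul, norm_zpow, Complex.norm_I, _root_.one_zpow, mul_one]
          exact hinv b c
      _ = (∑ c, ‖(im V.Q)⁻¹ a c‖) * (1 + |m|) := by rw [Finset.sum_mul]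
      _ ≤ M * (1 + |m|) := by
          apply mul_le_mul_of_nonneg_right _ (by positivity)
          rw [hM]
          exact Finset.single_le_sum (f := fun a => ∑ b, ‖(im V.Q)⁻¹ a b‖)
            (fun _ _ => by positivity) (Finset.mem_univ a)
      _ ≤ (1 + |m|) * (1 + M) := by nlinarith
  · refine (hinv a b).trans ?_
    nlinarith

theorem height_of_qf {n : ℕ} (V : PolVHS n) (m : ℝ) : ∃ C : ℝ, 1 ≤ C ∧ ∀ z : ℂ, 0 < z.im →
    (∀ i, qf V z (Pi.single i 1) ≤ m) → ∀ H : ℝ, 1 ≤ H → IsCMc V z H → IsCM V z (C * H) := by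
  obtain ⟨E, hE0, hfr⟩ := frame_bound V m
  refine ⟨1 + (n : ℝ) ^ 2 * E ^ 2, by nlinarith [mul_nonneg (sq_nonneg (n : ℝ)) (sq_nonneg E)],
    fun z hz hq H hH hcm => ?_⟩
  obtain ⟨A, hA1, hA2, hA3⟩ := hcm
  refine ⟨A, ?_, hA1, hA2⟩
  obtain ⟨S, d, hS⟩ := exists_adapted (V.phs z hz)
  have hent := hfr z hz hq S d hS
  have hfrob := rosati_frob (V.phs z hz) hS A hA2
  rw [hfrob] at hA3
  set M : Matrix (Fin n) (Fin n) ℂ := S⁻¹ * im A * S with hM
  have hMle : ∀ a b, ‖M a b‖ ≤ H := by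
    intro a b
    have b1 : Complex.normSq (M a b) ≤ ∑ a, ∑ b, Complex.normSq (M a b) := by
      refine le_trans ?_ (Finset.single_le_sum (f := fun a => ∑ b, Complex.normSq (M a b))
        (fun a _ => Finset.sum_nonneg fun b _ => Complex.normSq_nonneg _) (Finset.mem_univ a))
      exact Finset.single_le_sum (f := fun b => Complex.normSq (M a b))
        (fun b _ => Complex.normSq_nonneg _) (Finset.mem_univ b)
    rw [Complex.normSq_eq_norm_sq] at b1
    exact le_of_sq_le_sq (b1.trans hA3) (by linarith)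
  have hSu := hS.inv
  have hAeq : im A = S * M * S⁻¹ := by
    rw [hM]
    calc im A = (S * S⁻¹) * im A * (S * S⁻¹) := by
          rw [Matrix.mul_nonsing_inv _ hSu, Matrix.one_mul, Matrix.mul_one]
      _ = _ := by simp only [Matrix.mul_assoc]
  intro i j
  have hnorm : |(A i j : ℝ)| = ‖im A i j‖ := by
    simp [im]
  have h5 : ‖im A i j‖ ≤ (n : ℝ) ^ 2 * (E ^ 2 * H) := by
    rw [hAeq, Matrix.mul_apply]
    have b1 : ∀ b : Fin n, ‖(S * M) i b * S⁻¹ b j‖ ≤ (n : ℝ) * (E ^ 2 * H) := by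
      intro b
      rw [norm_mul, Matrix.mul_apply]
      have b2 : ‖∑ a, S i a * M a b‖ ≤ (n : ℝ) * (E * H) := by
        refine (norm_sum_le _ _).trans ?_
        refine (Finset.sum_le_card_nsmul _ _ (E * H) fun a _ => ?_).trans ?_
        · rw [norm_mul]
          exact mul_le_mul (hent i a).1 (hMle a b) (norm_nonneg _) hE0
        · simp
      calc ‖∑ a, S i a * M a b‖ * ‖S⁻¹ b j‖ ≤ ((n : ℝ) * (E * H)) * E :=
            mul_le_mul b2 (hent b j).2 (norm_nonneg _) (by positivity)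
        _ = (n : ℝ) * (E ^ 2 * H) := by ring
    refine (norm_sum_le _ _).trans ?_
    refine (Finset.sum_le_card_nsmul _ _ _ fun b _ => b1 b).trans ?_
    simp only [Finset.card_univ, Fintype.card_fin, nsmul_eq_mul]
    exact le_of_eq (by ring)
  rw [hnorm]
  refine h5.trans ?_
  nlinarith

end MP2794d1.PG
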