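import Pool.Agent.Lib.MP_2794d1_ag.PG.G6
import Pool.Agent.Lib.MP_2794d1_ag.QU.Q5

/-!
G7: the main theorem with a local monodromy of infinite order.
-/

namespace MP2794d1.PG

open Matrix Complex Filter Topology MP2794d1.PC

theorem G7_im (g : Matrix.SpecialLinearGroup (Fin 2) ℝ) (w : ℂ) (h : 0 < (mob g w).im) :
    0 < w.im := by
  have hdet := F07_det g
  by_contra hw
  push Not at hw
  have h1 : (mob g w).im = w.im / Complex.normSq (((g 1 0 : ℝ) : ℂ) * w + ((g 1 1 : ℝ) : ℂ)) := by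
    unfold mob
    rw [Complex.div_im]
    simp only [Complex.add_im, Complex.mul_im, Complex.ofReal_re, Complex.ofReal_im, zero_mul,
      add_zero, Complex.add_re, Complex.mul_re, sub_zero]
    rw [← sub_div]
    congr 1
    linear_combination w.im * hdet
  rw [h1] at h
  have h2 : w.im / Complex.normSq (((g 1 0 : ℝ) : ℂ) * w + ((g 1 1 : ℝ) : ℂ)) ≤ 0 :=
    div_nonpos_of_nonpos_of_nonneg hw (Complex.normSq_nonneg _)
  linarith

theorem main_global_inf {n : ℕ} (V : PolVHS n) (hΔ : FiniteType V.grp)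
    (σ : Matrix.SpecialLinearGroup (Fin 2) ℝ) (T : V.grp)
    (hT : ∀ w : ℂ, 0 < w.im → mob T (mob σ w) = mob σ (w + 1))
    (hinf : ∀ k : ℕ, 0 < k → V.rho T ^ k ≠ 1) :
    (∃ N, IsShimuraLine V N) ∨
    ∃ C : ℝ, ∀ h : ℝ, 2 ≤ h → ∃ S : Finset ℂ, (S.card : ℝ) ≤ C * Real.log h ^ 5 ∧
      ∀ z : ℂ, 0 < z.im → IsCMc V z h → ∃ g : V.grp, ∃ w ∈ S, z = mob g w := by
  obtain ⟨m, hm, c, hc⟩ := MP2794d1.exists_ucusp V σ T hT
  have hN : c.N ≠ 0 := by
    rcases hc with h | h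
    · exact h
    · exact absurd h (hinf m hm)
  rcases main_global (cjV V (σ * scl m)) (cjG_finite (σ * scl m) hΔ) c hN with ⟨N, h⟩ | ⟨C, h⟩
  · exact Or.inl ⟨N, (cjV_shimura V _ N).1 h⟩
  · refine Or.inr ⟨C, fun x hx => ?_⟩
    obtain ⟨S, hS1, hS2⟩ := h x hx
    refine ⟨S.image (mob (σ * scl m)), ?_, ?_⟩
    · refine le_trans ?_ hS1
      exact_mod_cast Finset.card_image_le
    · intro z hz hcm
      set τ := σ * scl m with hτ
      have hz' : 0 < (mob τ⁻¹ z).im := mob_im_pos _ z hz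
      have hcm' : IsCMc (cjV V τ) (mob τ⁻¹ z) x := by
        rw [cjV_IsCMc, Q4_inv' τ hz]
        exact hcm
      obtain ⟨g, w, hw, hgw⟩ := hS2 _ hz' hcm'
      refine ⟨cjH V.grp τ g, mob τ w, Finset.mem_image_of_mem _ hw, ?_⟩
      have h1 : z = mob τ (mob τ⁻¹ z) := (Q4_inv' τ hz).symm
      have hw0 : 0 < w.im := G7_im _ w (by rw [← hgw]; exact hz')
      rw [h1, hgw, cjH_coe, mob_mob _ _ _ hw0, mob_mob _ _ _ hw0]
      congr 1
      group

end MP2794d1.PG
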