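import Pool.Agent.Lib.MP_2794d1_ag.PC.CP11

/-!
C1: the datum of a variation, with an arbitrary rank function `r = rk V` (`subst`, then the proof of `exists_datum`, CP11:
the datum constructed there has `L := PL V (len V) (rk V)`, so the first property is `Iff.rfl`, `G` from `exists_ptGroup`, ...).
`cm_rep'`: `subst`, `cm_rep`.
-/

namespace MP2794d1.PG

open Matrix Complex Filter Topology MP2794d1.PC

theorem exists_datum' {n : ℕ} (V : PolVHS n) (c : Cusp V) (r : Fin (len V) → ℕ) (hr : r = rk V) :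
    ∃ D : Datum V.grp (PIdx n (len V) r), (∀ z v, D.L z v ↔ PL V (len V) r z v) ∧
      (∀ s : ℂ, D.G.E s = pt r (uexp (cm c.N) s)) := by
  subst hr
  classical
  obtain ⟨G, hG⟩ := exists_ptGroup (rk V) c.N c.nil
  refine ⟨
    { R := rhoZ V (rk V) (ptZ_one _) (ptZ_mul _)
      T := c.T
      T_eq := c.T_eq
      G := G
      G_one := ?_
      L := PL V (len V) (rk V)
      L_ne := fun z v _ h => PL_ne V _ _ z v h
      L_smul := fun z v a _ ha h => PL_smul V _ _ z v a ha h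
      L_uniq := fun z v v' _ h h' => PL_uniq V _ _ z v v' h h'
      L_lift := PL_lift V
      L_equiv := ?_
      L_cusp := ?_ }, fun z v => Iff.rfl, hG⟩
  · show ic (ptZ (rk V) (V.rho c.T : Matrix (Fin n) (Fin n) ℤ)) = G.E 1
    rw [ic_ptZ, hG, c.exp_eq]
  · intro g z v hz h
    show PL V (len V) (rk V) (mob g z)
      (ic (ptZ (rk V) (V.rho g : Matrix (Fin n) (Fin n) ℤ)) *ᵥ v)
    rw [ic_ptZ]
    exact PL_equiv V _ _ g z hz v h
  · obtain ⟨a, M, hM, hM0, h⟩ := PL_cusp V c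
    refine ⟨a, M, hM, hM0, fun z hz hz0 => ?_⟩
    rw [hG]
    exact h z hz hz0

theorem cm_rep' {n : ℕ} (V : PolVHS n) (r : Fin (len V) → ℕ) (hr : r = rk V) :
    ∃ C : ℕ, 1 ≤ C ∧ ∀ z : ℂ, 0 < z.im → ∀ h : ℝ, 1 ≤ h →
      IsCM V z h → ∃ v, PL V (len V) r z v ∧ IntRep (Fin n → Fin n) (C * h ^ C) v := by
  subst hr
  exact cm_rep V

end MP2794d1.PG
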