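import Pool.Agent.Lib.MP_2794d1_ag.PG.Defs
import Pool.Agent.Lib.MP_2794d1_ag.PC.CP3

/-!
A1: first properties of the pulled back variation `V.pull σ`. Everything except `pull_rk` is `Iff.rfl` / `rfl`.
`pull_rk`: `rk (V.pull σ) p` is the rank of `V.F (lo + p)` at `mob σ i`; use `rank_const` (CP3).
-/

namespace MP2794d1.PG

open Matrix Complex Filter Topology MP2794d1.PC

theorem pull_F {n : ℕ} (V : PolVHS n) (σ : Matrix.SpecialLinearGroup (Fin 2) ℝ) (p : ℤ) (w : ℂ) :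
    (V.pull σ).F p w = V.F p (mob σ w) := rfl

theorem pull_mem {n : ℕ} (V : PolVHS n) (σ g : Matrix.SpecialLinearGroup (Fin 2) ℝ) :
    g ∈ (V.pull σ).grp ↔ σ * g * σ⁻¹ ∈ V.grp := Iff.rfl

theorem pull_rho {n : ℕ} (V : PolVHS n) (σ g : Matrix.SpecialLinearGroup (Fin 2) ℝ)
    (hg : σ * g * σ⁻¹ ∈ V.grp) : (V.pull σ).rho ⟨g, hg⟩ = V.rho ⟨σ * g * σ⁻¹, hg⟩ := rfl

theorem pull_isCMc {n : ℕ} (V : PolVHS n) (σ : Matrix.SpecialLinearGroup (Fin 2) ℝ) (w : ℂ) (h : ℝ) :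
    IsCMc (V.pull σ) w h ↔ IsCMc V (mob σ w) h := Iff.rfl

theorem pull_isCM {n : ℕ} (V : PolVHS n) (σ : Matrix.SpecialLinearGroup (Fin 2) ℝ) (w : ℂ) (h : ℝ) :
    IsCM (V.pull σ) w h ↔ IsCM V (mob σ w) h := Iff.rfl

theorem pull_len {n : ℕ} (V : PolVHS n) (σ : Matrix.SpecialLinearGroup (Fin 2) ℝ) :
    len (V.pull σ) = len V := rfl

theorem pull_PL {n : ℕ} (V : PolVHS n) (σ : Matrix.SpecialLinearGroup (Fin 2) ℝ) (m : ℕ)
    (r : Fin m → ℕ) (w : ℂ) (v : PIdx n m r → ℂ) :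
    PL (V.pull σ) m r w v ↔ PL V m r (mob σ w) v := Iff.rfl

theorem pull_rk {n : ℕ} (V : PolVHS n) (σ : Matrix.SpecialLinearGroup (Fin 2) ℝ) :
    rk (V.pull σ) = rk V := by
  funext p
  exact rank_const V _ _ _ (mob_im_pos σ _ (by simp)) (by simp)

end MP2794d1.PG
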