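import Pool.Agent.Lib.MP_2794d1_ag.PG.Defs

namespace MP2794d1.PG

open Matrix Complex Filter Topology MP2794d1.PC

theorem LB_pull {ι : Type} [Fintype ι] (L : ℂ → (ι → ℂ) → Prop) (α : Fin 3 → ι) (h : LB L α)
    (σ : Matrix.SpecialLinearGroup (Fin 2) ℝ) : LB (fun w v => L (mob σ w) v) α := by
  intro w₁ hw₁ δ₁ hδ₁
  have hz₁ := mob_im_pos σ w₁ hw₁
  have hcont := (mob_analytic σ⁻¹ (mob σ w₁) hz₁).1.continuousAt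
  have hb : mob σ⁻¹ (mob σ w₁) = w₁ := (mob_inv_mob σ w₁ hw₁).1
  have hmem : Metric.ball w₁ δ₁ ∈ 𝓝 (mob σ⁻¹ (mob σ w₁)) := by
    rw [hb]
    exact Metric.ball_mem_nhds _ hδ₁
  obtain ⟨δ', hδ', hsub⟩ := Metric.mem_nhds_iff.1 (hcont hmem)
  obtain ⟨C, hC, hall⟩ := h (mob σ w₁) hz₁ δ' hδ'
  refine ⟨C, hC, fun k hk c A hA h1 h2 ε hε h3 => hall k hk c A hA h1 h2 ε hε ?_⟩
  intro z hz hz0 v hv
  have e := (mob_inv_mob σ z hz0).2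
  apply h3 (mob σ⁻¹ z) (hsub hz) (mob_im_pos _ _ hz0) v
  show L (mob σ (mob σ⁻¹ z)) v
  rw [e]
  exact hv

end MP2794d1.PG
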