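import Mathlib

namespace MP2794d1.PG

open Polynomial

theorem B1_iter (p : Polynomial ℂ) (l : ℕ) :
    iteratedDeriv l (fun x => p.eval x) = fun x => (derivative^[l] p).eval x := by
  induction l with
  | zero => simp
  | succ l ih =>
    rw [iteratedDeriv_succ, ih]
    funext x
    rw [Polynomial.deriv, Function.iterate_succ_apply']

theorem B1_cauchy (x₀ : ℂ) (ρ : ℝ) (hρ : 0 < ρ) (p : Polynomial ℂ) (m : ℝ)
    (h : ∀ x ∈ Metric.sphere x₀ ρ, ‖p.eval x‖ ≤ m) (l : ℕ) :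
    ‖(taylor x₀ p).coeff l‖ ≤ m / ρ ^ l := by
  have h1 : ‖iteratedDeriv l (fun x => p.eval x) x₀‖ ≤ l.factorial * m / ρ ^ l :=
    Complex.norm_iteratedDeriv_le_of_forall_mem_sphere_norm_le l hρ
      p.differentiable.diffContOnCl h
  rw [B1_iter] at h1
  change ‖(derivative^[l] p).eval x₀‖ ≤ _ at h1
  have h2 : (derivative^[l] p).eval x₀ = (l.factorial : ℂ) * (taylor x₀ p).coeff l := by
    rw [taylor_coeff, ← factorial_smul_hasseDeriv]
    simp
  rw [h2, norm_mul] at h1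
  have h3 : ‖((l.factorial : ℕ) : ℂ)‖ = (l.factorial : ℝ) := by
    rw [Complex.norm_natCast]
  rw [h3, mul_div_assoc] at h1
  have h4 : (0 : ℝ) < l.factorial := by exact_mod_cast l.factorial_pos
  exact le_of_mul_le_mul_left h1 h4

theorem one_var (x₀ : ℂ) (r : ℝ) (hr : 0 < r) : ∃ C : ℝ, 1 ≤ C ∧ ∀ (N : ℕ) (p : Polynomial ℂ),
    p.natDegree ≤ N → ∀ m : ℝ, (∀ x ∈ Metric.ball x₀ r, ‖p.eval x‖ ≤ m) →
    ∀ i, ‖p.coeff i‖ ≤ C ^ N * m := by
  obtain ⟨ρ, hρ⟩ : ∃ ρ : ℝ, ρ = r / 2 := ⟨_, rfl⟩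
  have hρ0 : 0 < ρ := by rw [hρ]; positivity
  set M : ℝ := max 1 ((1 + ‖x₀‖) / ρ) with hM
  have hM1 : 1 ≤ M := le_max_left _ _
  have hM2 : (1 + ‖x₀‖) / ρ ≤ M := le_max_right _ _
  refine ⟨2 * M, by linarith, fun N p hp m h i => ?_⟩
  have hm : 0 ≤ m := (norm_nonneg _).trans (h x₀ (Metric.mem_ball_self hr))
  have hc : ∀ l, ‖(taylor x₀ p).coeff l‖ ≤ m / ρ ^ l := fun l => by
    apply B1_cauchy x₀ ρ hρ0
    intro x hx
    apply h
    rw [Metric.mem_sphere] at hx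
    rw [Metric.mem_ball, hx]
    linarith
  have hsum : p = ∑ l ∈ Finset.range (N + 1), Polynomial.C ((taylor x₀ p).coeff l) *
      (X - Polynomial.C x₀) ^ l := by
    have h1 := sum_taylor_eq p x₀
    conv_lhs => rw [← h1]
    rw [Polynomial.sum_over_range' _ _ (N + 1)]
    · rw [natDegree_taylor]
      omega
    · intro l
      simp
  have hcoef : p.coeff i = ∑ l ∈ Finset.range (N + 1), (taylor x₀ p).coeff l *
      ((-x₀) ^ (l - i) * (l.choose i : ℂ)) := by
    conv_lhs => rw [hsum]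
    rw [finsetSum_coeff]
    refine Finset.sum_congr rfl fun l _ => ?_
    rw [coeff_C_mul, sub_eq_add_neg, ← Polynomial.C_neg, coeff_X_add_C_pow]
  rw [hcoef]
  have hterm : ∀ l ∈ Finset.range (N + 1), ‖(taylor x₀ p).coeff l *
      ((-x₀) ^ (l - i) * (l.choose i : ℂ))‖ ≤ m * M ^ N := by
    intro l hl
    rw [norm_mul, norm_mul, norm_pow, norm_neg, Complex.norm_natCast]
    have hb : ‖x₀‖ ^ (l - i) * (l.choose i : ℝ) ≤ (1 + ‖x₀‖) ^ l := by
      by_cases hil : i ≤ l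
      · rw [add_comm, add_pow]
        have := Finset.single_le_sum (f := fun j => ‖x₀‖ ^ j * 1 ^ (l - j) * (l.choose j : ℝ))
          (fun j _ => by positivity) (Finset.mem_range.2 (show l - i < l + 1 by omega))
        simp only [one_pow, mul_one] at this ⊢
        rwa [Nat.choose_symm hil] at this
      · rw [Nat.choose_eq_zero_of_lt (by omega)]
        simp only [Nat.cast_zero, mul_zero]
        positivity
    calc ‖(taylor x₀ p).coeff l‖ * (‖x₀‖ ^ (l - i) * (l.choose i : ℝ)) ≤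
          (m / ρ ^ l) * (1 + ‖x₀‖) ^ l := by
            apply mul_le_mul (hc l) hb (by positivity) (by positivity)
      _ = m * ((1 + ‖x₀‖) / ρ) ^ l := by rw [div_pow, div_mul_eq_mul_div, mul_div_assoc]
      _ ≤ m * M ^ l := by gcongr
      _ ≤ m * M ^ N := by
          apply mul_le_mul_of_nonneg_left _ hm
          apply pow_le_pow_right₀ hM1
          rw [Finset.mem_range] at hl
          omega
  refine (norm_sum_le _ _).trans ((Finset.sum_le_sum hterm).trans ?_)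
  rw [Finset.sum_const, Finset.card_range, nsmul_eq_mul, mul_pow]
  have h2 : ((N + 1 : ℕ) : ℝ) ≤ 2 ^ N := by
    exact_mod_cast Nat.lt_two_pow_self
  calc ((N + 1 : ℕ) : ℝ) * (m * M ^ N) ≤ 2 ^ N * (m * M ^ N) := by gcongr
    _ = 2 ^ N * M ^ N * m := by ring

end MP2794d1.PG
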