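import Pool.Agent.Lib.MP_2794d1_ag.PG.B1
import Pool.Agent.Lib.MP_2794d1_ag.PC.Defs

/-!
B2: the coefficients of a ternary form `hp k c` which is small near a point `x₀`. Step 1: for `x₁, x₂` with
`‖x₁ - x₀ 1‖ < r`, `‖x₂ - x₀ 2‖ < r` the polynomial `∑ i, (∑ j, c i j x₁ ^ j x₂ ^ (2 k - i - j)) X ^ i` of degree `≤ k` is
bounded by `m` on `ball (x₀ 0) r` (sup norm on `Fin 3 → ℂ`), so by `one_var` its coefficients are `≤ C₁ ^ k m`. Step 2: for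
fixed `i` and `x₂` the polynomial `∑ j, (c i j x₂ ^ (2 k - i - j)) X ^ j` of degree `≤ k` is bounded by `C₁ ^ k m` on
`ball (x₀ 1) r`: coefficients `≤ C₂ ^ k C₁ ^ k m`. Step 3: choose `x₂` with `‖x₂ - x₀ 2‖ < r` and `‖x₂‖ ≥ ρ := min (r / 4) 1`
(if `‖x₀ 2‖ ≥ r / 4` take `x₀ 2`, else `x₀ 2 + r / 2`): `‖x₂‖ ^ (2 k - i - j) ≥ ρ ^ (2 k)`. `C = C₁ C₂ ρ⁻¹ ^ 2`.
-/

namespace MP2794d1.PG

open MP2794d1.PC

/-- a polynomial with given coefficients -/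
noncomputable def b2_poly {k : ℕ} (f : Fin (k + 1) → ℂ) : Polynomial ℂ :=
  ∑ i : Fin (k + 1), Polynomial.C (f i) * Polynomial.X ^ (i : ℕ)

theorem b2_deg {k : ℕ} (f : Fin (k + 1) → ℂ) : (b2_poly f).natDegree ≤ k := by
  unfold b2_poly
  refine Polynomial.natDegree_sum_le_of_forall_le _ _ fun i _ => ?_
  exact (Polynomial.natDegree_C_mul_X_pow_le _ _).trans (Nat.lt_succ_iff.1 i.2)

theorem b2_coeff {k : ℕ} (f : Fin (k + 1) → ℂ) (i : Fin (k + 1)) :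
    (b2_poly f).coeff (i : ℕ) = f i := by
  unfold b2_poly
  rw [Polynomial.finsetSum_coeff, Finset.sum_eq_single i]
  · rw [Polynomial.coeff_C_mul_X_pow]
    simp
  · intro j _ hj
    rw [Polynomial.coeff_C_mul_X_pow, if_neg]
    intro h
    exact hj (Fin.ext h.symm)
  · intro h
    exact absurd (Finset.mem_univ i) h

theorem b2_eval {k : ℕ} (f : Fin (k + 1) → ℂ) (x : ℂ) :
    (b2_poly f).eval x = ∑ i, f i * x ^ (i : ℕ) := by
  unfold b2_poly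
  rw [Polynomial.eval_finsetSum]
  refine Finset.sum_congr rfl fun i _ => ?_
  rw [Polynomial.eval_mul, Polynomial.eval_C, Polynomial.eval_pow, Polynomial.eval_X]

theorem b2_norm (x₀ : Fin 3 → ℂ) (r : ℝ) (hr : 0 < r) {a b c : ℂ}
    (ha : a ∈ Metric.ball (x₀ 0) r) (hb : b ∈ Metric.ball (x₀ 1) r)
    (hc : c ∈ Metric.ball (x₀ 2) r) : ‖(![a, b, c] : Fin 3 → ℂ) - x₀‖ < r := by
  rw [pi_norm_lt_iff hr]
  intro i
  rw [mem_ball_iff_norm] at ha hb hc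
  fin_cases i
  · exact ha
  · exact hb
  · exact hc

theorem b2_choose (z : ℂ) (r : ℝ) (hr : 0 < r) :
    ∃ w ∈ Metric.ball z r, min (r / 4) 1 ≤ ‖w‖ := by
  by_cases h : r / 4 ≤ ‖z‖
  · exact ⟨z, Metric.mem_ball_self hr, (min_le_left _ _).trans h⟩
  · push Not at h
    refine ⟨z + ((r / 2 : ℝ) : ℂ), ?_, (min_le_left _ _).trans ?_⟩
    · rw [mem_ball_iff_norm, add_sub_cancel_left, Complex.norm_real, Real.norm_eq_abs,
        abs_of_pos (by linarith)]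
      linarith
    · have h1 : ‖((r / 2 : ℝ) : ℂ)‖ = r / 2 := by
        rw [Complex.norm_real, Real.norm_eq_abs, abs_of_pos (by linarith)]
      have h2 : ‖((r / 2 : ℝ) : ℂ)‖ ≤ ‖z + ((r / 2 : ℝ) : ℂ)‖ + ‖z‖ := by
        have := norm_sub_le (z + ((r / 2 : ℝ) : ℂ)) z
        rwa [add_sub_cancel_left] at this
      rw [h1] at h2
      linarith

theorem coeff_bound (x₀ : Fin 3 → ℂ) (r : ℝ) (hr : 0 < r) : ∃ C : ℝ, 1 ≤ C ∧
    ∀ (k : ℕ) (c : Fin (k + 1) → Fin (k + 1) → ℤ) (m : ℝ),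
      (∀ x : Fin 3 → ℂ, ‖x - x₀‖ < r → ‖hp k c x‖ ≤ m) →
      ∀ i j, |(c i j : ℝ)| ≤ C ^ k * m := by
  obtain ⟨C₁, hC₁, h₁⟩ := one_var (x₀ 0) r hr
  obtain ⟨C₂, hC₂, h₂⟩ := one_var (x₀ 1) r hr
  obtain ⟨w, hw, hwn⟩ := b2_choose (x₀ 2) r hr
  set ρ : ℝ := min (r / 4) 1 with hρ
  have hρ0 : 0 < ρ := lt_min (by linarith) one_pos
  have hρ1 : ρ ≤ 1 := min_le_right _ _
  have hinv : 1 ≤ ρ⁻¹ := (one_le_inv₀ hρ0).2 hρ1
  refine ⟨C₁ * C₂ * ρ⁻¹ ^ 2, ?_, ?_⟩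
  · have h3 : 1 ≤ C₁ * C₂ := one_le_mul_of_one_le_of_one_le hC₁ hC₂
    exact one_le_mul_of_one_le_of_one_le h3 (one_le_pow₀ hinv)
  · intro k c m hm i j
    have hm0 : 0 ≤ m := (norm_nonneg _).trans (hm x₀ (by simpa using hr))
    -- step 1
    have s1 : ∀ b ∈ Metric.ball (x₀ 1) r, ∀ i : Fin (k + 1),
        ‖∑ j : Fin (k + 1), (c i j : ℂ) * (b ^ (j : ℕ) * w ^ (2 * k - (i : ℕ) - (j : ℕ)))‖ ≤
          C₁ ^ k * m := by
      intro b hb i
      have h3 := h₁ k (b2_poly fun i => ∑ j : Fin (k + 1),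
        (c i j : ℂ) * (b ^ (j : ℕ) * w ^ (2 * k - (i : ℕ) - (j : ℕ)))) (b2_deg _) m (by
        intro a ha
        have h4 := hm ![a, b, w] (b2_norm x₀ r hr ha hb hw)
        have h5 : (b2_poly fun i => ∑ j : Fin (k + 1),
            (c i j : ℂ) * (b ^ (j : ℕ) * w ^ (2 * k - (i : ℕ) - (j : ℕ)))).eval a =
            hp k c ![a, b, w] := by
          rw [b2_eval]
          unfold hp
          refine Finset.sum_congr rfl fun i _ => ?_
          rw [Finset.sum_mul]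
          refine Finset.sum_congr rfl fun j _ => ?_
          have e0 : (![a, b, w] : Fin 3 → ℂ) 0 = a := rfl
          have e1 : (![a, b, w] : Fin 3 → ℂ) 1 = b := rfl
          have e2 : (![a, b, w] : Fin 3 → ℂ) 2 = w := rfl
          rw [e0, e1, e2]
          ring
        rw [h5]
        exact h4) i
      rw [b2_coeff] at h3
      exact h3
    -- step 2
    have s2 := h₂ k (b2_poly fun j => (c i j : ℂ) * w ^ (2 * k - (i : ℕ) - (j : ℕ)))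
      (b2_deg _) (C₁ ^ k * m) (by
        intro b hb
        have h4 := s1 b hb i
        have h5 : (b2_poly fun j => (c i j : ℂ) * w ^ (2 * k - (i : ℕ) - (j : ℕ))).eval b =
            ∑ j : Fin (k + 1), (c i j : ℂ) * (b ^ (j : ℕ) * w ^ (2 * k - (i : ℕ) - (j : ℕ))) := by
          rw [b2_eval]
          refine Finset.sum_congr rfl fun j _ => ?_
          ring
        rw [h5]
        exact h4) j
    rw [b2_coeff, norm_mul, norm_pow] at s2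
    have e1 : ‖(c i j : ℂ)‖ = |(c i j : ℝ)| := by
      rw [Complex.norm_intCast]
    rw [e1] at s2
    -- step 3
    have hle : ρ ^ (2 * k) ≤ ‖w‖ ^ (2 * k - (i : ℕ) - (j : ℕ)) :=
      calc ρ ^ (2 * k) ≤ ρ ^ (2 * k - (i : ℕ) - (j : ℕ)) :=
            pow_le_pow_of_le_one hρ0.le hρ1 (by omega)
        _ ≤ ‖w‖ ^ (2 * k - (i : ℕ) - (j : ℕ)) := pow_le_pow_left₀ hρ0.le hwn _
    have h6 : |(c i j : ℝ)| * ρ ^ (2 * k) ≤ C₂ ^ k * (C₁ ^ k * m) :=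
      (mul_le_mul_of_nonneg_left hle (abs_nonneg _)).trans s2
    have hρk : 0 < ρ ^ (2 * k) := pow_pos hρ0 _
    have h7 : |(c i j : ℝ)| ≤ C₂ ^ k * (C₁ ^ k * m) / ρ ^ (2 * k) := by
      rw [le_div_iff₀ hρk]
      exact h6
    refine h7.trans (le_of_eq ?_)
    rw [mul_pow, mul_pow, ← pow_mul, inv_pow]
    field_simp

end MP2794d1.PG
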