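import Mathlib

/-!
B3: Lagrange interpolation at `0, 1, ..., d`. `p = ∑ j ≤ d, p.eval j • basis j`
(`Lagrange.eq_interpolate_of_eval_eq` / `Lagrange.eq_interpolate`), `basis j` at `s` is `∏ i ≠ j, (s - i) / (j - i)`. For `‖s‖ ≤ 1`:
`∏ i ≠ j, ‖s - i‖ ≤ ∏ i ≠ j, (i + 1) ≤ (d + 1)!` and `∏ i ≠ j, |j - i| = j! (d - j)!`, so
`‖p.eval s‖ ≤ m ∑ j, (d + 1)! / (j! (d - j)!) = m (d + 1) ∑ j, d.choose j = m (d + 1) 2 ^ d`.
-/

namespace MP2794d1.PG

open Polynomial

theorem B3_fact (n : ℕ) : ∏ j ∈ Finset.range n, ((j : ℝ) + 1) = (n.factorial : ℝ) := by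
  rw [← Finset.prod_range_add_one_eq_factorial]
  push_cast
  rfl

theorem B3_den (a c : ℕ) : ∏ j ∈ (Finset.range (a + 1 + c)).erase a, |(a : ℝ) - j| =
    (a.factorial : ℝ) * c.factorial := by
  have h1 : ∏ j ∈ (Finset.range (a + 1 + c)).erase a, |(a : ℝ) - j| =
      ∏ j ∈ (Finset.range (a + 1 + c)).erase a, (if j = a then 1 else |(a : ℝ) - j|) := by
    refine Finset.prod_congr rfl (fun j hj => ?_)
    rw [if_neg (Finset.ne_of_mem_erase hj)]
  rw [h1, Finset.prod_erase _ (by rw [if_pos rfl]), Finset.prod_range_add,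
    Finset.prod_range_succ, if_pos rfl, mul_one]
  congr 1
  · rw [← B3_fact, ← Finset.prod_range_reflect]
    refine Finset.prod_congr rfl (fun j hj => ?_)
    rw [Finset.mem_range] at hj
    rw [if_neg (by omega)]
    have e : ((a - 1 - j : ℕ) : ℝ) = (a : ℝ) - 1 - j := by
      rw [Nat.cast_sub (by omega), Nat.cast_sub (by omega), Nat.cast_one]
    rw [e, show (a : ℝ) - ((a : ℝ) - 1 - j) = (j : ℝ) + 1 by ring, abs_of_pos (by positivity)]
  · rw [← B3_fact]
    refine Finset.prod_congr rfl (fun j _ => ?_)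
    rw [if_neg (by omega)]
    push_cast
    rw [show (a : ℝ) - ((a : ℝ) + 1 + j) = -((j : ℝ) + 1) by ring, abs_neg,
      abs_of_pos (by positivity)]

theorem B3_num (d a : ℕ) (ha : a ≤ d) (s : ℂ) (hs : ‖s‖ ≤ 1) :
    ∏ j ∈ (Finset.range (d + 1)).erase a, ‖s - j‖ ≤ ((d + 1).factorial : ℝ) := by
  have h1 : ∏ j ∈ (Finset.range (d + 1)).erase a, ‖s - j‖ ≤
      ∏ j ∈ (Finset.range (d + 1)).erase a, ((j : ℝ) + 1) := by
    refine Finset.prod_le_prod (fun _ _ => norm_nonneg _) (fun j _ => ?_)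
    refine (norm_sub_le _ _).trans ?_
    rw [Complex.norm_natCast]
    linarith
  refine h1.trans ?_
  rw [← B3_fact, ← Finset.mul_prod_erase (Finset.range (d + 1)) (fun j : ℕ => (j : ℝ) + 1)
    (Finset.mem_range.2 (Nat.lt_succ_of_le ha))]
  refine le_mul_of_one_le_left (Finset.prod_nonneg (fun j _ => by positivity)) ?_
  have : (0 : ℝ) ≤ a := Nat.cast_nonneg a
  linarith

theorem interp (d : ℕ) (p : Polynomial ℂ) (hp : p.natDegree ≤ d) (m : ℝ)
    (h : ∀ n : ℕ, n ≤ d → ‖p.eval (n : ℂ)‖ ≤ m) (s : ℂ) (hs : ‖s‖ ≤ 1) :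
    ‖p.eval s‖ ≤ ((d : ℝ) + 1) * 2 ^ d * m := by
  have hm : 0 ≤ m := (norm_nonneg _).trans (h 0 (Nat.zero_le _))
  have hinj : Set.InjOn (fun n : ℕ => (n : ℂ)) (Finset.range (d + 1)) :=
    fun a _ b _ hab => Nat.cast_injective hab
  have e1 : p = Lagrange.interpolate (Finset.range (d + 1)) (fun n : ℕ => (n : ℂ))
      (fun n => p.eval (n : ℂ)) := by
    refine Lagrange.eq_interpolate_of_eval_eq _ hinj ?_ (fun i _ => rfl)
    rw [Finset.card_range]
    refine lt_of_le_of_lt Polynomial.degree_le_natDegree ?_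
    exact_mod_cast Nat.lt_succ_of_le hp
  have e2 : p.eval s = ∑ a ∈ Finset.range (d + 1), p.eval (a : ℂ) *
      ∏ j ∈ (Finset.range (d + 1)).erase a, (((a : ℂ) - j)⁻¹ * (s - j)) := by
    conv_lhs => rw [e1]
    rw [Lagrange.interpolate_apply, Polynomial.eval_finsetSum]
    refine Finset.sum_congr rfl (fun a _ => ?_)
    rw [Polynomial.eval_mul, Polynomial.eval_C]
    congr 1
    unfold Lagrange.basis Lagrange.basisDivisor
    rw [Polynomial.eval_prod]
    refine Finset.prod_congr rfl (fun j _ => ?_)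
    simp
  rw [e2]
  refine (norm_sum_le _ _).trans ?_
  have h3 : ∀ a ∈ Finset.range (d + 1), ‖p.eval (a : ℂ) *
      ∏ j ∈ (Finset.range (d + 1)).erase a, (((a : ℂ) - j)⁻¹ * (s - j))‖ ≤
      m * (((d : ℝ) + 1) * (d.choose a : ℝ)) := by
    intro a ha
    rw [Finset.mem_range] at ha
    have had : a ≤ d := by omega
    rw [norm_mul]
    refine mul_le_mul (h a had) ?_ (norm_nonneg _) hm
    rw [norm_prod]
    have h4 : ∏ j ∈ (Finset.range (d + 1)).erase a, ‖((a : ℂ) - j)⁻¹ * (s - j)‖ =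
        (∏ j ∈ (Finset.range (d + 1)).erase a, |(a : ℝ) - j|)⁻¹ *
          ∏ j ∈ (Finset.range (d + 1)).erase a, ‖s - j‖ := by
      rw [← Finset.prod_inv_distrib, ← Finset.prod_mul_distrib]
      refine Finset.prod_congr rfl (fun j _ => ?_)
      rw [norm_mul, norm_inv]
      congr 2
      have : (a : ℂ) - j = (((a : ℝ) - j : ℝ) : ℂ) := by push_cast; rfl
      rw [this, Complex.norm_real, Real.norm_eq_abs]
    rw [h4]
    obtain ⟨c, rfl⟩ := Nat.exists_eq_add_of_le had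
    have h5 := B3_den a c
    rw [show a + 1 + c = a + c + 1 by ring] at h5
    rw [h5]
    have h6 := B3_num (a + c) a had s hs
    have h7 : ((a + c).choose a : ℝ) = ((a + c).factorial : ℝ) / (a.factorial * c.factorial) := by
      rw [Nat.cast_choose ℝ had, Nat.add_sub_cancel_left]
    rw [h7]
    have h8 : ((a + c + 1).factorial : ℝ) = (((a + c : ℕ) : ℝ) + 1) * (a + c).factorial := by
      rw [Nat.factorial_succ]
      push_cast
      rfl
    calc ((a.factorial : ℝ) * c.factorial)⁻¹ * ∏ j ∈ (Finset.range (a + c + 1)).erase a, ‖s - j‖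
        ≤ ((a.factorial : ℝ) * c.factorial)⁻¹ * ((a + c + 1).factorial : ℝ) :=
          mul_le_mul_of_nonneg_left h6 (by positivity)
      _ = (((a + c : ℕ) : ℝ) + 1) * (((a + c).factorial : ℝ) / (a.factorial * c.factorial)) := by
          rw [h8]
          ring
  refine (Finset.sum_le_sum h3).trans ?_
  rw [← Finset.mul_sum, ← Finset.mul_sum]
  have h9 : ∑ a ∈ Finset.range (d + 1), (d.choose a : ℝ) = 2 ^ d := by
    exact_mod_cast Nat.sum_range_choose d
  rw [h9]
  apply le_of_eq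
  ring

end MP2794d1.PG
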