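import Pool.Agent.Lib.MP_2794d1_ag.PC.CA5
import Pool.Agent.Lib.MP_2794d1_ag.PC.CA9

/-!
B4: transport through the cusp with one power of the parabolic element. `y₀` from `step_cusp`. `step_chain` from `(z₁, δ₁)` to
`i y₀` gives `δ, θ, X`; `step_cusp` with `δ` gives `δ', c, C`; `step_chain` from `(i y₀, δ')` to `z₂` gives `δ₂, θ', X'`.
`step_comp` twice: matrix `1 * ic (D.R (D.T ^ n)) * 1`, exponent `θ (c / (n + 1) ^ 2) θ'`, factor `X C (n + 1) ^ C X'`.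
Constant `c' = θ c θ'`, and `C'` a natural number `≥ C` with `X C X' ≤ C'` (`step_mono`; compare the proof of `transport`, CA10).
-/

namespace MP2794d1.PG

open Matrix Complex MP2794d1.PC

variable {Γ : Subgroup (Matrix.SpecialLinearGroup (Fin 2) ℝ)} {ι : Type} [Fintype ι]
  [DecidableEq ι]

private def B4_S (D : Datum Γ ι) (A : Matrix ι ι ℂ) (z₁ : ℂ) (δ₁ : ℝ) (z₂ : ℂ) (δ₂ θ X : ℝ) :
    Prop := 0 < θ ∧ θ ≤ 1 ∧ 1 ≤ X ∧ Step D A z₁ δ₁ z₂ δ₂ θ X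

private theorem B4_comp (D : Datum Γ ι) {A A' : Matrix ι ι ℂ} {z₁ z₂ z₃ : ℂ}
    {δ₁ δ₂ δ₃ θ θ' X X' : ℝ} (h : B4_S D A z₁ δ₁ z₂ δ₂ θ X)
    (h' : B4_S D A' z₂ δ₂ z₃ δ₃ θ' X') : B4_S D (A * A') z₁ δ₁ z₃ δ₃ (θ * θ') (X * X') := by
  obtain ⟨h1, h2, h3, h4⟩ := h
  obtain ⟨k1, k2, k3, k4⟩ := h'
  exact ⟨mul_pos h1 k1, mul_le_one₀ h2 k1.le k2, one_le_mul_of_one_le_of_one_le h3 k3,
    step_comp D h3 k3 h1 h2 k1 k2 h4 k4⟩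

theorem transport1 (D : Datum Γ ι) (z₁ z₂ : ℂ) (h₁ : 0 < z₁.im) (h₂ : 0 < z₂.im) (δ₁ : ℝ)
    (hδ₁ : 0 < δ₁) :
    ∃ δ₂ : ℝ, 0 < δ₂ ∧ ∃ c : ℝ, 0 < c ∧ c ≤ 1 ∧ ∃ C : ℕ, 1 ≤ C ∧ ∀ n : ℕ,
      Step D (ic (D.R (D.T ^ n))) z₁ δ₁ z₂ δ₂ (c / ((n : ℝ) + 1) ^ 2)
        ((C : ℝ) * ((n : ℝ) + 1) ^ C) := by
  obtain ⟨y₀, hy₀, hcusp⟩ := step_cusp D
  obtain ⟨o, ho⟩ : ∃ o : ℂ, o = (y₀ : ℂ) * Complex.I := ⟨_, rfl⟩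
  rw [← ho] at hcusp
  have hoi : 0 < o.im := by rw [ho]; simpa using hy₀
  obtain ⟨a1, ha1, t1, X1, ht1, ht1', hX1, s1⟩ := step_chain D z₁ o h₁ hoi δ₁ hδ₁
  obtain ⟨a3, ha3, c3, hc3, hc3', C3, hC3, s3⟩ := hcusp a1 ha1
  obtain ⟨a4, ha4, t4, X4, ht4, ht4', hX4, s4⟩ := step_chain D o z₂ hoi h₂ a3 ha3
  obtain ⟨X0, hX0⟩ : ∃ X0, X0 = X1 * X4 := ⟨_, rfl⟩
  have hX0' : 1 ≤ X0 := by
    rw [hX0]
    exact one_le_mul_of_one_le_of_one_le hX1 hX4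
  obtain ⟨C, hC⟩ : ∃ C : ℕ, C = ⌈X0 * C3⌉₊ + C3 := ⟨_, rfl⟩
  have hCX : X0 * C3 ≤ C := by
    have h1 := Nat.le_ceil (X0 * C3)
    rw [hC]
    push_cast
    have h2 : (0 : ℝ) ≤ C3 := Nat.cast_nonneg _
    linarith
  have hC3' : C3 ≤ C := by rw [hC]; omega
  refine ⟨a4, ha4, t1 * t4 * c3, by positivity, ?_, C, le_trans hC3 hC3', ?_⟩
  · exact mul_le_one₀ (mul_le_one₀ ht1' ht4.le ht4') hc3.le hc3'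
  intro n
  have p0 : (0 : ℝ) ≤ n := Nat.cast_nonneg _
  have p1 : (1 : ℝ) ≤ (n : ℝ) + 1 := by linarith
  have hcs : 0 < c3 / ((n : ℝ) + 1) ^ 2 ∧ c3 / ((n : ℝ) + 1) ^ 2 ≤ 1 := by
    have h2 : (1 : ℝ) ≤ ((n : ℝ) + 1) ^ 2 := one_le_pow₀ p1
    refine ⟨by positivity, ?_⟩
    rw [div_le_one (by positivity)]
    linarith
  have hCs : (1 : ℝ) ≤ (C3 : ℝ) * ((n : ℝ) + 1) ^ C3 := by
    have h1 : (1 : ℝ) ≤ C3 := by exact_mod_cast hC3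
    exact one_le_mul_of_one_le_of_one_le h1 (one_le_pow₀ p1)
  have S1 : B4_S D 1 z₁ δ₁ o a1 t1 X1 := ⟨ht1, ht1', hX1, s1⟩
  have S3 : B4_S D (ic (D.R (D.T ^ n))) o a1 o a3 (c3 / ((n : ℝ) + 1) ^ 2)
      ((C3 : ℝ) * ((n : ℝ) + 1) ^ C3) := ⟨hcs.1, hcs.2, hCs, s3 n⟩
  have S4 : B4_S D 1 o a3 z₂ a4 t4 X4 := ⟨ht4, ht4', hX4, s4⟩
  obtain ⟨q1, q2, q3, q4⟩ := B4_comp D (B4_comp D S1 S3) S4
  have hmat : (1 : Matrix ι ι ℂ) * ic (D.R (D.T ^ n)) * 1 = ic (D.R (D.T ^ n)) := by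
    rw [one_mul, mul_one]
  rw [hmat] at q4
  refine step_mono D q3 ?_ ?_ ?_ q2 le_rfl q4
  · have p3 : ((n : ℝ) + 1) ^ C3 ≤ ((n : ℝ) + 1) ^ C := pow_le_pow_right₀ p1 hC3'
    calc X1 * ((C3 : ℝ) * ((n : ℝ) + 1) ^ C3) * X4
        = (X0 * C3) * ((n : ℝ) + 1) ^ C3 := by rw [hX0]; ring
      _ ≤ (C : ℝ) * ((n : ℝ) + 1) ^ C :=
          mul_le_mul hCX p3 (by positivity) (Nat.cast_nonneg _)
  · positivity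
  · apply le_of_eq
    have p1 : ((n : ℝ) + 1) ≠ 0 := by positivity
    field_simp

end MP2794d1.PG
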