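import Pool.Agent.Lib.MP_2794d1_ag.PC.CA8

/-!
B5: the map `f (t, s, z) = t • ((G.E s *ᵥ M z) ∘ α)`, `ℂ × ℂ × ℂ → (Fin 3 → ℂ)`, is a local homeomorphism at `(1, 0, z₁)`. It is
analytic (polynomial in `t, s`, analytic in `z`), so `HasStrictFDerivAt` (`AnalyticAt.hasStrictFDerivAt`), with derivative
`(a, b, c) ↦ a • (M z₁ ∘ α) + b • ((D.dG *ᵥ M z₁) ∘ α) + c • (fun i => deriv (fun z => M z (α i)) z₁)` (`G.E 0 = 1`, the derivative
of `G.E` at `0` is `dG`: entries are polynomials), which is surjective since the determinant is not zero.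
`HasStrictFDerivAt.map_nhds_eq_of_surj`: the image of the neighbourhood `‖t‖ < 2, ‖s‖ < 1, z ∈ ball z₁ δ` of `(1, 0, z₁)` is a
neighbourhood of `M z₁ ∘ α`, so contains a ball of radius `r`.
-/

namespace MP2794d1.PG

open Matrix Complex MP2794d1.PC
open scoped Topology

variable {Γ : Subgroup (Matrix.SpecialLinearGroup (Fin 2) ℝ)} {ι : Type} [Fintype ι]
  [DecidableEq ι]

theorem open_image (D : Datum Γ ι) (z₁ : ℂ) (M : ℂ → ι → ℂ)
    (hM : ∀ i, AnalyticAt ℂ (fun z => M z i) z₁) (α : Fin 3 → ι)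
    (hdet : (Matrix.of ![fun i => M z₁ (α i), fun i => deriv (fun z => M z (α i)) z₁,
      fun i => (D.dG *ᵥ M z₁) (α i)]).det ≠ 0) (δ : ℝ) (hδ : 0 < δ) :
    ∃ r : ℝ, 0 < r ∧ ∀ x : Fin 3 → ℂ, ‖x - (fun i => M z₁ (α i))‖ < r →
      ∃ t s z : ℂ, ‖t‖ ≤ 2 ∧ ‖s‖ ≤ 1 ∧ z ∈ Metric.ball z₁ δ ∧ x = t • ((D.G.E s *ᵥ M z) ∘ α) := by
  set f : ℂ × ℂ × ℂ → (Fin 3 → ℂ) := fun p => p.1 • ((D.G.E p.2.1 *ᵥ M p.2.2) ∘ α) with hf
  have hfi : ∀ (p : ℂ × ℂ × ℂ) (i : Fin 3), f p i =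
      p.1 * ∑ k, Polynomial.aeval p.2.1 (D.G.P (α i) k) * M p.2.2 k := fun p i => rfl
  have hE0 : D.G.E 0 = 1 := D.G.zero'
  have hp0 : f (1, 0, z₁) = fun i => M z₁ (α i) := by
    rw [hf]
    simp only
    rw [hE0, one_mulVec, one_smul]
    rfl
  have hfa : AnalyticAt ℂ f (1, 0, z₁) := by
    refine analyticAt_pi_iff.2 (fun i => ?_)
    have e : (fun p : ℂ × ℂ × ℂ => f p i) = fun p =>
        p.1 * ∑ k, Polynomial.aeval p.2.1 (D.G.P (α i) k) * M p.2.2 k := rfl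
    rw [e]
    refine analyticAt_fst.mul (Finset.analyticAt_fun_sum _ (fun k _ => ?_))
    have h1 : AnalyticAt ℂ (fun p : ℂ × ℂ × ℂ => p.2.1) (1, 0, z₁) :=
      analyticAt_fst.comp (x := ((1, 0, z₁) : ℂ × ℂ × ℂ)) analyticAt_snd
    have h2 : AnalyticAt ℂ (fun p : ℂ × ℂ × ℂ => p.2.2) (1, 0, z₁) :=
      analyticAt_snd.comp (x := ((1, 0, z₁) : ℂ × ℂ × ℂ)) analyticAt_snd
    have h3 : AnalyticAt ℂ (fun s : ℂ => Polynomial.aeval s (D.G.P (α i) k)) 0 :=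
      (Polynomial.differentiable_aeval (D.G.P (α i) k)).analyticAt 0
    have h4 : AnalyticAt ℂ (fun p : ℂ × ℂ × ℂ => Polynomial.aeval p.2.1 (D.G.P (α i) k))
        (1, 0, z₁) :=
      AnalyticAt.comp (g := fun s : ℂ => Polynomial.aeval s (D.G.P (α i) k))
        (f := fun p : ℂ × ℂ × ℂ => p.2.1) (x := (1, 0, z₁)) h3 h1
    have h5 : AnalyticAt ℂ (fun p : ℂ × ℂ × ℂ => M p.2.2 k) (1, 0, z₁) :=
      AnalyticAt.comp (g := fun z : ℂ => M z k)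
        (f := fun p : ℂ × ℂ × ℂ => p.2.2) (x := (1, 0, z₁)) (hM k) h2
    exact h4.mul h5
  have hst := hfa.hasStrictFDerivAt
  have hfd := hst.hasFDerivAt
  have e1 : fderiv ℂ f (1, 0, z₁) (1, 0, 0) = fun i => M z₁ (α i) := by
    have a1 : HasDerivAt (fun t : ℂ => ((t, 0, z₁) : ℂ × ℂ × ℂ)) (1, 0, 0) 1 :=
      (hasDerivAt_id (1 : ℂ)).prodMk ((hasDerivAt_const _ _).prodMk (hasDerivAt_const _ _))
    have a2 := HasFDerivAt.comp_hasDerivAt (1 : ℂ) (l := f)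
      (f := fun t : ℂ => ((t, 0, z₁) : ℂ × ℂ × ℂ)) hfd a1
    have a3 : HasDerivAt (f ∘ fun t : ℂ => ((t, 0, z₁) : ℂ × ℂ × ℂ))
        (fun i => M z₁ (α i)) 1 := by
      have e : (f ∘ fun t : ℂ => ((t, 0, z₁) : ℂ × ℂ × ℂ)) =
          fun t : ℂ => t • (fun i => M z₁ (α i)) := by
        funext t
        change t • ((D.G.E 0 *ᵥ M z₁) ∘ α) = _
        rw [hE0, one_mulVec]
        rfl
      rw [e]
      have := (hasDerivAt_id (1 : ℂ)).smul_const (fun i => M z₁ (α i))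
      rwa [one_smul] at this
    exact a2.unique a3
  have e2 : fderiv ℂ f (1, 0, z₁) (0, 1, 0) = fun i => (D.dG *ᵥ M z₁) (α i) := by
    have a1 : HasDerivAt (fun s : ℂ => ((1, s, z₁) : ℂ × ℂ × ℂ)) (0, 1, 0) 0 :=
      (hasDerivAt_const _ _).prodMk ((hasDerivAt_id (0 : ℂ)).prodMk (hasDerivAt_const _ _))
    have a2 := HasFDerivAt.comp_hasDerivAt (0 : ℂ) (l := f)
      (f := fun s : ℂ => ((1, s, z₁) : ℂ × ℂ × ℂ)) hfd a1
    have a3 : HasDerivAt (f ∘ fun s : ℂ => ((1, s, z₁) : ℂ × ℂ × ℂ))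
        (fun i => (D.dG *ᵥ M z₁) (α i)) 0 := by
      refine hasDerivAt_pi.2 (fun i => ?_)
      have e : (fun s : ℂ => (f ∘ fun s : ℂ => ((1, s, z₁) : ℂ × ℂ × ℂ)) s i) =
          fun s : ℂ => ∑ k, Polynomial.aeval s (D.G.P (α i) k) * M z₁ k := by
        funext s
        change 1 * ∑ k, Polynomial.aeval s (D.G.P (α i) k) * M z₁ k = _
        rw [one_mul]
      rw [e]
      exact HasDerivAt.fun_sum (fun k _ =>
        ((D.G.P (α i) k).hasDerivAt_aeval (0 : ℂ)).mul_const (M z₁ k))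
    exact a2.unique a3
  have e3 : fderiv ℂ f (1, 0, z₁) (0, 0, 1) = fun i => deriv (fun z => M z (α i)) z₁ := by
    have a1 : HasDerivAt (fun z : ℂ => ((1, 0, z) : ℂ × ℂ × ℂ)) (0, 0, 1) z₁ :=
      (hasDerivAt_const _ _).prodMk ((hasDerivAt_const _ _).prodMk (hasDerivAt_id z₁))
    have a2 := HasFDerivAt.comp_hasDerivAt z₁ (l := f)
      (f := fun z : ℂ => ((1, 0, z) : ℂ × ℂ × ℂ)) hfd a1
    have a3 : HasDerivAt (f ∘ fun z : ℂ => ((1, 0, z) : ℂ × ℂ × ℂ))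
        (fun i => deriv (fun z => M z (α i)) z₁) z₁ := by
      refine hasDerivAt_pi.2 (fun i => ?_)
      have e : (fun z : ℂ => (f ∘ fun z : ℂ => ((1, 0, z) : ℂ × ℂ × ℂ)) z i) =
          fun z : ℂ => M z (α i) := by
        funext z
        change ((1 : ℂ) • ((D.G.E 0 *ᵥ M z) ∘ α)) i = _
        rw [hE0, one_mulVec, one_smul]
        rfl
      rw [e]
      exact (hM (α i)).differentiableAt.hasDerivAt
    exact a2.unique a3
  set A : Matrix (Fin 3) (Fin 3) ℂ := Matrix.of ![fun i => M z₁ (α i),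
    fun i => deriv (fun z => M z (α i)) z₁, fun i => (D.dG *ᵥ M z₁) (α i)] with hA
  have hsurj : (fderiv ℂ f (1, 0, z₁)).range = ⊤ := by
    rw [LinearMap.range_eq_top]
    intro y
    set c : Fin 3 → ℂ := y ᵥ* A⁻¹ with hc
    have hcA : c ᵥ* A = y := by
      rw [hc, vecMul_vecMul, nonsing_inv_mul _ (isUnit_iff_ne_zero.2 hdet), vecMul_one]
    refine ⟨(c 0, c 2, c 1), ?_⟩
    have e4 : ((c 0, c 2, c 1) : ℂ × ℂ × ℂ) = c 0 • ((1, 0, 0) : ℂ × ℂ × ℂ) +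
        c 2 • ((0, 1, 0) : ℂ × ℂ × ℂ) + c 1 • ((0, 0, 1) : ℂ × ℂ × ℂ) := by
      simp
    change fderiv ℂ f (1, 0, z₁) (c 0, c 2, c 1) = y
    rw [e4, map_add, map_add, map_smul, map_smul, map_smul, e1, e2, e3, ← hcA]
    funext i
    simp only [vecMul, dotProduct, Fin.sum_univ_three, hA, Matrix.of_apply, Pi.add_apply,
      Pi.smul_apply, smul_eq_mul, Matrix.cons_val_zero, Matrix.cons_val_one, Matrix.cons_val]
    ring
  have hmap := hst.map_nhds_eq_of_surj hsurj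
  set U : Set (ℂ × ℂ × ℂ) := {p | ‖p.1‖ < 2 ∧ ‖p.2.1‖ < 1 ∧ p.2.2 ∈ Metric.ball z₁ δ} with hU
  have hUo : U ∈ 𝓝 ((1, 0, z₁) : ℂ × ℂ × ℂ) := by
    have o1 : IsOpen {p : ℂ × ℂ × ℂ | ‖p.1‖ < 2} :=
      isOpen_lt (continuous_norm.comp continuous_fst) continuous_const
    have o2 : IsOpen {p : ℂ × ℂ × ℂ | ‖p.2.1‖ < 1} :=
      isOpen_lt (continuous_norm.comp (continuous_fst.comp continuous_snd)) continuous_const
    have o3 : IsOpen {p : ℂ × ℂ × ℂ | p.2.2 ∈ Metric.ball z₁ δ} :=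
      Metric.isOpen_ball.preimage (continuous_snd.comp continuous_snd)
    refine (o1.inter (o2.inter o3)).mem_nhds ⟨?_, ?_, ?_⟩
    · change ‖(1 : ℂ)‖ < 2
      rw [norm_one]
      norm_num
    · change ‖(0 : ℂ)‖ < 1
      rw [norm_zero]
      norm_num
    · exact Metric.mem_ball_self hδ
  have himg : f '' U ∈ 𝓝 (f (1, 0, z₁)) := by
    rw [← hmap]
    exact Filter.image_mem_map hUo
  rw [hp0] at himg
  obtain ⟨r, hr, hball⟩ := Metric.mem_nhds_iff.1 himg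
  refine ⟨r, hr, fun x hx => ?_⟩
  obtain ⟨p, hp, rfl⟩ := hball (by rwa [Metric.mem_ball, dist_eq_norm] : x ∈ Metric.ball _ r)
  exact ⟨p.1, p.2.1, p.2.2, hp.1.le, hp.2.1.le, hp.2.2, rfl⟩

end MP2794d1.PG
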