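import Pool.Agent.Lib.MP_2794d1_ag.PC.Defs

/-!
B6: `s ↦ hp k c ((G.E s *ᵥ v) ∘ α)` is a polynomial of degree at most `2 k D₀`, `D₀` a bound for the degrees of the entries of
`G.P`. The entry `(G.E s *ᵥ v) i = ∑ j, (aeval s (G.P i j)) * v j` is the value at `s` of the polynomial
`∑ j, (G.P i j).map (algebraMap ℚ ℂ) * C (v j)` of degree `≤ D₀`; a monomial `x 0 ^ i x 1 ^ j x 2 ^ (2 k - i - j)` in them has
degree `≤ (i + j + (2 k - i - j)) D₀ = 2 k D₀` (`i, j ≤ k`).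
-/

namespace MP2794d1.PG

open Matrix Complex MP2794d1.PC

/-- the entry of `G.E s *ᵥ v` as a polynomial in `s` -/
noncomputable def B6_q {ι : Type} [Fintype ι] [DecidableEq ι] (G : PolyGroup ι) (v : ι → ℂ)
    (i : ι) : Polynomial ℂ :=
  ∑ j, (G.P i j).map (algebraMap ℚ ℂ) * Polynomial.C (v j)

theorem B6_eval {ι : Type} [Fintype ι] [DecidableEq ι] (G : PolyGroup ι) (v : ι → ℂ) (i : ι)
    (s : ℂ) : (B6_q G v i).eval s = (G.E s *ᵥ v) i := by
  unfold B6_q PolyGroup.E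
  rw [Polynomial.eval_finsetSum]
  unfold Matrix.mulVec dotProduct
  refine Finset.sum_congr rfl fun j _ => ?_
  rw [Polynomial.eval_mul, Polynomial.eval_C, Polynomial.eval_map_algebraMap]
  rfl

theorem poly_in_s {ι : Type} [Fintype ι] [DecidableEq ι] (G : PolyGroup ι) : ∃ D₀ : ℕ,
    ∀ (k : ℕ) (c : Fin (k + 1) → Fin (k + 1) → ℤ) (α : Fin 3 → ι) (v : ι → ℂ),
      ∃ p : Polynomial ℂ, p.natDegree ≤ 2 * k * D₀ ∧
        ∀ s : ℂ, p.eval s = hp k c ((G.E s *ᵥ v) ∘ α) := by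
  obtain ⟨D₀, hD⟩ : ∃ D₀ : ℕ, ∀ i j, (G.P i j).natDegree ≤ D₀ :=
    ⟨Finset.univ.sup fun x : ι × ι => (G.P x.1 x.2).natDegree, fun i j =>
      Finset.le_sup (f := fun x : ι × ι => (G.P x.1 x.2).natDegree) (Finset.mem_univ (i, j))⟩
  have hq : ∀ (v : ι → ℂ) (i : ι), (B6_q G v i).natDegree ≤ D₀ := fun v i => by
    unfold B6_q
    refine Polynomial.natDegree_sum_le_of_forall_le _ _ fun j _ => ?_
    exact (Polynomial.natDegree_mul_C_le _ _).trans
      ((Polynomial.natDegree_map_le).trans (hD i j))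
  refine ⟨D₀, fun k c α v => ?_⟩
  refine ⟨∑ i : Fin (k + 1), ∑ j : Fin (k + 1), Polynomial.C (c i j : ℂ) *
    (B6_q G v (α 0) ^ (i : ℕ) * B6_q G v (α 1) ^ (j : ℕ) *
      B6_q G v (α 2) ^ (2 * k - (i : ℕ) - (j : ℕ))), ?_, fun s => ?_⟩
  · refine Polynomial.natDegree_sum_le_of_forall_le _ _ fun i _ =>
      Polynomial.natDegree_sum_le_of_forall_le _ _ fun j _ => ?_
    refine (Polynomial.natDegree_C_mul_le _ _).trans (Polynomial.natDegree_mul_le.trans ?_)
    have h1 : (B6_q G v (α 0) ^ (i : ℕ) * B6_q G v (α 1) ^ (j : ℕ)).natDegree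
        ≤ i * D₀ + j * D₀ :=
      Polynomial.natDegree_mul_le.trans (add_le_add
        (Polynomial.natDegree_pow_le.trans (Nat.mul_le_mul_left _ (hq v _)))
        (Polynomial.natDegree_pow_le.trans (Nat.mul_le_mul_left _ (hq v _))))
    have h2 : (B6_q G v (α 2) ^ (2 * k - (i : ℕ) - (j : ℕ))).natDegree
        ≤ (2 * k - i - j) * D₀ :=
      Polynomial.natDegree_pow_le.trans (Nat.mul_le_mul_left _ (hq v _))
    have hi := i.2
    have hj := j.2
    have h3 : (i : ℕ) * D₀ + j * D₀ + (2 * k - i - j) * D₀ = 2 * k * D₀ := by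
      rw [← Nat.add_mul, ← Nat.add_mul]
      congr 1
      omega
    omega
  · unfold hp
    rw [Polynomial.eval_finsetSum]
    refine Finset.sum_congr rfl fun i _ => ?_
    rw [Polynomial.eval_finsetSum]
    refine Finset.sum_congr rfl fun j _ => ?_
    rw [Polynomial.eval_mul, Polynomial.eval_C, Polynomial.eval_mul, Polynomial.eval_mul,
      Polynomial.eval_pow, Polynomial.eval_pow, Polynomial.eval_pow, B6_eval, B6_eval, B6_eval]
    rfl

end MP2794d1.PG
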