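import Mathlib

/-!
B7: numerics for the lower bound. Let `d = 2 k D₀`, `θ = c₁ / (d + 1) ^ 2 ∈ (0, 1]`. If `ε = 0` the right side of `h` is `0`
(`Real.zero_rpow`), contradiction; so `ε > 0`. `ε ^ θ (((k + 1) ^ 2 A) ^ (1 - θ)) = A (ε / A) ^ θ ((k + 1) ^ 2) ^ (1 - θ)
≤ A (ε / A) ^ θ (k + 1) ^ 2`. Divide by `A`:
`1 ≤ C₃ ^ k 4 ^ k (d + 1) 2 ^ d (C₁ (d + 1) ^ C₁ M') ^ (2 k) (k + 1) ^ 2 (ε / A) ^ θ`. Logarithms, with `ℓ = log (k + 1) ≥ 1 / 2` and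
`log (d + 1) ≤ (2 D₀ + 1) 2 ℓ`-type bounds (`d + 1 ≤ (2 D₀ + 1)(k + 1)`, `log (2 D₀ + 1) ≤ 2 D₀ ≤ 4 D₀ ℓ`):
`- θ log (ε / A) ≤ C' k ℓ`, so `- log (ε / A) ≤ (C' / c₁) k ℓ (d + 1) ^ 2 ≤ C k ^ 3 ℓ` as `d + 1 ≤ (2 D₀ + 1) k`. Then
`ε ≥ A exp (- C k ^ 3 ℓ)`. (Compare the proof of `exists_slb`, PC/CC1, which has the same kind of estimate.)
-/

namespace MP2794d1.PG

theorem num_LB (D₀ C₁ : ℕ) (c₁ C₃ M' : ℝ) (hc₁ : 0 < c₁) (hc1 : c₁ ≤ 1) (hC₁ : 1 ≤ C₁)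
    (hC₃ : 1 ≤ C₃) (hM' : 1 ≤ M') : ∃ C : ℝ, 0 < C ∧ ∀ k : ℕ, 1 ≤ k → ∀ A ε : ℝ, 0 < A → 0 ≤ ε →
    A ≤ C₃ ^ k * (4 ^ k * ((((2 * k * D₀ : ℕ) : ℝ) + 1) * 2 ^ (2 * k * D₀) *
      (((C₁ : ℝ) * (((2 * k * D₀ : ℕ) : ℝ) + 1) ^ C₁) ^ (2 * k) *
        (ε ^ (c₁ / (((2 * k * D₀ : ℕ) : ℝ) + 1) ^ 2) *
          (((k : ℝ) + 1) ^ 2 * A) ^ (1 - c₁ / (((2 * k * D₀ : ℕ) : ℝ) + 1) ^ 2)) *
        M' ^ (2 * k)))) →
    A * Real.exp (-(C * ((k : ℝ) ^ 3 * Real.log ((k : ℝ) + 1)))) ≤ ε := by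
  set b : ℝ := 2 * Real.log C₃ + 2 * Real.log 4 + (4 * D₀ + 1) + 4 * D₀ * Real.log 2 +
    4 * Real.log C₁ + 2 * C₁ * (4 * D₀ + 1) + 2 + 4 * Real.log M' with hb
  have hC₁r : (1 : ℝ) ≤ C₁ := by exact_mod_cast hC₁
  have hD0 : (0 : ℝ) ≤ D₀ := Nat.cast_nonneg D₀
  have l1 : 0 ≤ Real.log C₃ := Real.log_nonneg hC₃
  have l2 : 0 ≤ Real.log 4 := Real.log_nonneg (by norm_num)
  have l3 : 0 ≤ Real.log 2 := Real.log_nonneg (by norm_num)
  have l4 : 0 ≤ Real.log C₁ := Real.log_nonneg hC₁r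
  have l5 : 0 ≤ Real.log M' := Real.log_nonneg hM'
  have hb0 : 0 < b := by positivity
  refine ⟨b * (2 * D₀ + 1) ^ 2 / c₁, by positivity, ?_⟩
  intro k hk A ε hA hε h
  have hk1 : (1 : ℝ) ≤ k := by exact_mod_cast hk
  have hk0 : (0 : ℝ) < k := by linarith
  set D : ℝ := ((2 * k * D₀ : ℕ) : ℝ) + 1 with hD
  have hDe : D = 2 * k * D₀ + 1 := by rw [hD]; push_cast; ring
  have hD1 : 1 ≤ D := by rw [hDe]; nlinarith [mul_nonneg hk0.le hD0]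
  have hDp : 0 < D := by linarith
  set θ : ℝ := c₁ / D ^ 2 with hθ
  have hθ0 : 0 < θ := by positivity
  have hθ1 : θ ≤ 1 := by
    rw [hθ, div_le_one (by positivity)]
    exact hc1.trans (one_le_pow₀ hD1)
  have hεp : 0 < ε := by
    rcases hε.eq_or_lt with h0 | h0
    · exfalso
      rw [← h0, Real.zero_rpow hθ0.ne'] at h
      simp only [zero_mul, mul_zero] at h
      linarith
    · exact h0
  set ℓ : ℝ := Real.log ((k : ℝ) + 1) with hℓ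
  have hℓ2 : 1 / 2 ≤ ℓ := by
    have h1 := Real.log_two_gt_d9
    have h2 : Real.log 2 ≤ ℓ := Real.log_le_log (by norm_num) (by linarith)
    linarith
  have hkk : (0 : ℝ) < (k : ℝ) + 1 := by linarith
  have hC₃0 : 0 < C₃ := by linarith
  have hC₁0 : (0 : ℝ) < C₁ := by linarith
  have hM0 : 0 < M' := by linarith
  have hZ : 0 < ((k : ℝ) + 1) ^ 2 * A := by positivity
  have hlog := Real.log_le_log hA h
  rw [Real.log_mul (by positivity) (by positivity), Real.log_mul (by positivity) (by positivity),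
    Real.log_mul (by positivity) (by positivity), Real.log_mul (by positivity) (by positivity),
    Real.log_mul (by positivity) (by positivity), Real.log_mul (by positivity) (by positivity),
    Real.log_mul (by positivity) (by positivity), Real.log_rpow hεp, Real.log_rpow hZ,
    Real.log_mul (by positivity) (by positivity), Real.log_pow, Real.log_pow, Real.log_pow,
    Real.log_pow, Real.log_mul (by positivity) (by positivity), Real.log_pow, Real.log_pow,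
    Real.log_pow] at hlog
  have hlD : Real.log D ≤ (4 * D₀ + 1) * ℓ := by
    have h1 : D ≤ (2 * D₀ + 1) * ((k : ℝ) + 1) := by rw [hDe]; nlinarith
    have h2 := Real.log_le_log hDp h1
    rw [Real.log_mul (by positivity) (by positivity)] at h2
    have h3 : Real.log (2 * D₀ + 1) ≤ 2 * D₀ := by
      have := Real.log_le_sub_one_of_pos (by positivity : (0 : ℝ) < 2 * D₀ + 1)
      linarith
    nlinarith
  have hlD0 : 0 ≤ Real.log D := Real.log_nonneg hD1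
  have hkl : (k : ℝ) ≤ 2 * (k * ℓ) := by nlinarith
  have hll : ℓ ≤ k * ℓ := by nlinarith
  have hkl0 : 0 ≤ (k : ℝ) * ℓ := by positivity
  have r1 : (k : ℝ) * Real.log C₃ ≤ 2 * Real.log C₃ * (k * ℓ) := by nlinarith
  have r2 : (k : ℝ) * Real.log 4 ≤ 2 * Real.log 4 * (k * ℓ) := by nlinarith
  have r3 : Real.log D ≤ (4 * D₀ + 1) * (k * ℓ) :=
    hlD.trans (mul_le_mul_of_nonneg_left hll (by positivity))
  have r4 : (2 * (k : ℝ) * D₀) * Real.log 2 ≤ 4 * D₀ * Real.log 2 * (k * ℓ) := by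
    calc (2 * (k : ℝ) * D₀) * Real.log 2 = 2 * D₀ * Real.log 2 * k := by ring
      _ ≤ 2 * D₀ * Real.log 2 * (2 * (k * ℓ)) := by gcongr
      _ = _ := by ring
  have r5 : 2 * (k : ℝ) * Real.log C₁ ≤ 4 * Real.log C₁ * (k * ℓ) := by
    calc 2 * (k : ℝ) * Real.log C₁ = 2 * Real.log C₁ * k := by ring
      _ ≤ 2 * Real.log C₁ * (2 * (k * ℓ)) := by gcongr
      _ = _ := by ring
  have r6 : 2 * (k : ℝ) * (C₁ * Real.log D) ≤ 2 * C₁ * (4 * D₀ + 1) * (k * ℓ) := by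
    calc 2 * (k : ℝ) * (C₁ * Real.log D) ≤ 2 * (k : ℝ) * (C₁ * ((4 * D₀ + 1) * ℓ)) := by gcongr
      _ = _ := by ring
  have r7 : (1 - θ) * (2 * ℓ) ≤ 2 * (k * ℓ) := by
    have h1 : 0 ≤ θ * ℓ := by positivity
    nlinarith
  have r8 : 2 * (k : ℝ) * Real.log M' ≤ 4 * Real.log M' * (k * ℓ) := by
    calc 2 * (k : ℝ) * Real.log M' = 2 * Real.log M' * k := by ring
      _ ≤ 2 * Real.log M' * (2 * (k * ℓ)) := by gcongr
      _ = _ := by ring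
  have hmain : θ * (Real.log A - Real.log ε) ≤ b * (k * ℓ) := by
    push_cast at hlog
    rw [hb]
    linarith
  have hfin : Real.log A - Real.log ε ≤ b * (2 * D₀ + 1) ^ 2 / c₁ * ((k : ℝ) ^ 3 * ℓ) := by
    have h1 : Real.log A - Real.log ε ≤ b * (k * ℓ) / θ := by
      rw [le_div_iff₀ hθ0]
      linarith
    have h2 : D ≤ (2 * D₀ + 1) * k := by rw [hDe]; nlinarith
    calc Real.log A - Real.log ε ≤ b * (k * ℓ) / θ := h1
      _ = b * (k * ℓ) * D ^ 2 / c₁ := by rw [hθ]; field_simp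
      _ ≤ b * (k * ℓ) * ((2 * D₀ + 1) * k) ^ 2 / c₁ := by gcongr
      _ = _ := by ring
  calc A * Real.exp (-(b * (2 * D₀ + 1) ^ 2 / c₁ * ((k : ℝ) ^ 3 * ℓ)))
      = Real.exp (Real.log A - b * (2 * D₀ + 1) ^ 2 / c₁ * ((k : ℝ) ^ 3 * ℓ)) := by
        rw [sub_eq_add_neg, Real.exp_add, Real.exp_log hA]
    _ ≤ Real.exp (Real.log ε) := Real.exp_le_exp.mpr (by linarith)
    _ = ε := Real.exp_log hεp

end MP2794d1.PG
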