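import Pool.Agent.Lib.MP_2794d1_ag.PG.Defs
import Pool.Agent.Lib.MP_2794d1_ag.PG.B2
import Pool.Agent.Lib.MP_2794d1_ag.PG.B3
import Pool.Agent.Lib.MP_2794d1_ag.PG.B4
import Pool.Agent.Lib.MP_2794d1_ag.PG.B5
import Pool.Agent.Lib.MP_2794d1_ag.PG.B6
import Pool.Agent.Lib.MP_2794d1_ag.PG.B7
import Pool.Agent.Lib.MP_2794d1_ag.PC.CB2

/-!
B8: the lower bound. Let `w₁` be the base point (`z₁` below). Given `z₂, δ₂` (the point of `LB`), `transport1 D z₂ z₁ _ _ δ₂`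
gives `δ', c₁, C₁`. Choose `0 < δ ≤ δ'` such that on `ball z₁ δ`: `0 < im z`, `D.L z (M z)`, `‖M z‖ ≤ M'`, `M' ≥ 1` (continuity).
`open_image` with `δ` gives `r`; `coeff_bound` at `x₀ = M z₁ ∘ α`, `r` gives `C₃`; `D₀` from `poly_in_s D.G`; `C` from `num_LB`.
Let `k, c, A, ε` be given, `F v = hp k c (v ∘ α)`, `B = (k + 1) ^ 2 A` (`hp_form`). If `ε ≥ B` then
`A exp (-...) ≤ A ≤ B ≤ ε`. Otherwise `Good D (2 k) z₂ δ₂ ε B F`; let `d = 2 k D₀`. For `n ≤ d`, `z ∈ ball z₁ δ`: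
`‖F (G.E n *ᵥ M z)‖ ≤ X ^ (2 k) (ε ^ θ_n B ^ (1 - θ_n)) ‖M z‖ ^ (2 k)` (`transport1`, `R_pow`), `X = C₁ (n + 1) ^ C₁`,
`≤ η := (C₁ (d + 1) ^ C₁) ^ (2 k) (ε ^ θ B ^ (1 - θ)) M' ^ (2 k)`, `θ = c₁ / (d + 1) ^ 2` (`interp_anti`, CA3). By `interp`
`‖F (G.E s *ᵥ M z)‖ ≤ (d + 1) 2 ^ d η` for `‖s‖ ≤ 1`. For `‖x - x₀‖ < r`: `x = t • ((G.E s *ᵥ M z) ∘ α)`, `‖hp k c x‖ ≤
‖t‖ ^ (2 k) _ ≤ 4 ^ k (d + 1) 2 ^ d η` (`hp_smul`). `coeff_bound` with the entry `|c i j| = A`, then `num_LB`.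
-/

namespace MP2794d1.PG

open Matrix Complex Filter Topology MP2794d1.PC

variable {Γ : Subgroup (Matrix.SpecialLinearGroup (Fin 2) ℝ)} {ι : Type} [Fintype ι]
  [DecidableEq ι]

theorem exists_LB (D : Datum Γ ι) (z₁ : ℂ) (h₁ : 0 < z₁.im) (M : ℂ → ι → ℂ)
    (hM : ∀ i, AnalyticAt ℂ (fun z => M z i) z₁) (hL : ∀ᶠ z in 𝓝 z₁, D.L z (M z)) (α : Fin 3 → ι)
    (hdet : (Matrix.of ![fun i => M z₁ (α i), fun i => deriv (fun z => M z (α i)) z₁,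
      fun i => (D.dG *ᵥ M z₁) (α i)]).det ≠ 0) : LB D.L α := by
  classical
  intro z₂ h₂ δ₂ hδ₂
  obtain ⟨δ', hδ', c₁, hc₁, hc₁1, C₁, hC₁, hstep⟩ := transport1 D z₂ z₁ h₂ h₁ δ₂ hδ₂
  -- the ball around `z₁`
  have hcont : ContinuousAt M z₁ := continuousAt_pi.mpr fun i => (hM i).continuousAt
  have e1 : ∀ᶠ z in 𝓝 z₁, ‖M z‖ < ‖M z₁‖ + 1 :=
    hcont.norm.eventually (gt_mem_nhds (by linarith))
  have e2 : ∀ᶠ z : ℂ in 𝓝 z₁, 0 < z.im :=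
    (isOpen_lt continuous_const Complex.continuous_im).mem_nhds h₁
  obtain ⟨δ'', hδ'', hball⟩ := Metric.eventually_nhds_iff.1 (e1.and (e2.and hL))
  set δ : ℝ := min δ' δ'' with hδd
  have hδ : 0 < δ := lt_min hδ' hδ''
  obtain ⟨r, hr, himg⟩ := open_image D z₁ M hM α hdet δ hδ
  obtain ⟨C₃, hC₃, hco⟩ := coeff_bound (fun i => M z₁ (α i)) r hr
  obtain ⟨D₀, hpoly⟩ := poly_in_s D.G
  set M' : ℝ := ‖M z₁‖ + 1 with hM'
  have hM'1 : 1 ≤ M' := by have := norm_nonneg (M z₁); linarith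
  obtain ⟨C, hC, hnum⟩ := num_LB D₀ C₁ c₁ C₃ M' hc₁ hc₁1 hC₁ hC₃ hM'1
  refine ⟨C, hC, ?_⟩
  intro k hk c A hA hcA hex ε hε hsm
  have hk0 : (0 : ℝ) ≤ k := Nat.cast_nonneg k
  set B : ℝ := ((k : ℝ) + 1) ^ 2 * A with hB
  have hAB : A ≤ B := by
    have h1 : (1 : ℝ) ≤ ((k : ℝ) + 1) ^ 2 := one_le_pow₀ (by linarith)
    calc A = 1 * A := (one_mul A).symm
      _ ≤ _ := mul_le_mul_of_nonneg_right h1 hA.le
  have hB0 : 0 ≤ B := hA.le.trans hAB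
  rcases le_or_gt B ε with hBε | hBε
  · have h1 : Real.exp (-(C * ((k : ℝ) ^ 3 * Real.log ((k : ℝ) + 1)))) ≤ 1 := by
      rw [Real.exp_le_one_iff]
      have h2 : 0 ≤ Real.log ((k : ℝ) + 1) := Real.log_nonneg (by linarith)
      have : 0 ≤ C * ((k : ℝ) ^ 3 * Real.log ((k : ℝ) + 1)) := by positivity
      linarith
    calc A * Real.exp (-(C * ((k : ℝ) ^ 3 * Real.log ((k : ℝ) + 1)))) ≤ A * 1 :=
          mul_le_mul_of_nonneg_left h1 hA.le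
      _ ≤ ε := by linarith
  have hgood : Good D (2 * k) z₂ δ₂ ε B (fun v => hp k c (v ∘ α)) :=
    ⟨hp_form k c hcA α, hε, hBε.le, hsm⟩
  set d : ℕ := 2 * k * D₀ with hd
  set θ : ℝ := c₁ / ((d : ℝ) + 1) ^ 2 with hθ
  have hd0 : (0 : ℝ) ≤ d := Nat.cast_nonneg d
  have hθ0 : 0 < θ := by positivity
  set X : ℝ := (C₁ : ℝ) * ((d : ℝ) + 1) ^ C₁ with hX
  have hX0 : 0 ≤ X := by positivity
  set η : ℝ := X ^ (2 * k) * (ε ^ θ * B ^ (1 - θ)) * M' ^ (2 * k) with hη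
  have hη0 : 0 ≤ η := by
    have h1 : 0 ≤ ε ^ θ := Real.rpow_nonneg hε _
    have h2 : 0 ≤ B ^ (1 - θ) := Real.rpow_nonneg hB0 _
    positivity
  -- smallness at the integers
  have hint : ∀ z ∈ Metric.ball z₁ δ, ∀ n : ℕ, n ≤ d →
      ‖hp k c ((D.G.E (n : ℂ) *ᵥ M z) ∘ α)‖ ≤ η := by
    intro z hz n hn
    have hz' : dist z z₁ < δ := hz
    obtain ⟨g1, g2, g3⟩ := hball (lt_of_lt_of_le hz' (min_le_right _ _))
    have hg := (hstep n (2 * k) ε B _ hgood).small z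
      (Metric.ball_subset_ball (min_le_left _ _) hz) g2 (M z) g3
    rw [R_pow] at hg
    have hn' : (n : ℝ) ≤ d := by exact_mod_cast hn
    have hn0 : (0 : ℝ) ≤ n := Nat.cast_nonneg n
    have t1 : (C₁ : ℝ) * ((n : ℝ) + 1) ^ C₁ ≤ X := by
      rw [hX]
      gcongr
    have t2 : θ ≤ c₁ / ((n : ℝ) + 1) ^ 2 := by
      rw [hθ]
      apply div_le_div_of_nonneg_left hc₁.le (by positivity)
      gcongr
    have t3 : c₁ / ((n : ℝ) + 1) ^ 2 ≤ 1 := by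
      rw [div_le_one (by positivity)]
      have : (1 : ℝ) ≤ ((n : ℝ) + 1) ^ 2 := one_le_pow₀ (by linarith)
      linarith
    have t4 := interp_anti hε hBε.le hθ0 t2 t3
    have t5 : 0 ≤ ε ^ (c₁ / ((n : ℝ) + 1) ^ 2) * B ^ (1 - c₁ / ((n : ℝ) + 1) ^ 2) :=
      mul_nonneg (Real.rpow_nonneg hε _) (Real.rpow_nonneg hB0 _)
    refine hg.trans ?_
    rw [hη]
    have t6 : ((C₁ : ℝ) * ((n : ℝ) + 1) ^ C₁) ^ (2 * k) ≤ X ^ (2 * k) :=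
      pow_le_pow_left₀ (by positivity) t1 _
    have t7 : ‖M z‖ ^ (2 * k) ≤ M' ^ (2 * k) := pow_le_pow_left₀ (norm_nonneg _) g1.le _
    have t8 : 0 ≤ X ^ (2 * k) := by positivity
    exact mul_le_mul (mul_le_mul t6 t4 t5 t8) t7 (by positivity)
      (mul_nonneg t8 (t5.trans t4))
  -- smallness for all `s` in the unit disc
  have hdisc : ∀ z ∈ Metric.ball z₁ δ, ∀ s : ℂ, ‖s‖ ≤ 1 →
      ‖hp k c ((D.G.E s *ᵥ M z) ∘ α)‖ ≤ ((d : ℝ) + 1) * 2 ^ d * η := by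
    intro z hz s hs
    obtain ⟨p, hp1, hp2⟩ := hpoly k c α (M z)
    have h1 := interp d p hp1 η (fun n hn => by
      rw [hp2]
      exact hint z hz n hn) s hs
    rwa [hp2] at h1
  have hx : ∀ x : Fin 3 → ℂ, ‖x - (fun i => M z₁ (α i))‖ < r →
      ‖hp k c x‖ ≤ 4 ^ k * (((d : ℝ) + 1) * 2 ^ d * η) := by
    intro x hxr
    obtain ⟨t, s, z, ht, hs, hz, rfl⟩ := himg x hxr
    rw [hp_smul, norm_mul, norm_pow]
    have h1 : ‖t‖ ^ (2 * k) ≤ 4 ^ k := by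
      calc ‖t‖ ^ (2 * k) ≤ 2 ^ (2 * k) := pow_le_pow_left₀ (norm_nonneg _) ht _
        _ = 4 ^ k := by rw [pow_mul]; norm_num
    exact mul_le_mul h1 (hdisc z hz s hs) (norm_nonneg _) (by positivity)
  obtain ⟨i, j, hij⟩ := hex
  have hAle := hco k c _ hx i j
  rw [hij] at hAle
  apply hnum k hk A ε hA hε
  refine hAle.trans (le_of_eq ?_)
  rw [hη]

end MP2794d1.PG
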