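import Pool.Agent.Lib.MP_2794d1_ag.PC.CP1

/-!
C2: the derivative of the vector of products of minors. `pmin r W f` is a polynomial in the entries of the matrices `W p`
(a product of determinants), so it is a differentiable function of the entries (`Differentiable ℂ` on the finite dimensional
space `(p : Fin m) → Fin n → Fin (r p) → ℂ`; determinants as in `CP9_det`: `Matrix.det_apply`, `Finset.sum`, `Finset.prod`); let
`Φ` be its `fderiv` at `W`. Then `dpm r W X f = Φ X` (chain rule along `t ↦ W + t X`), linear in `X`; `dpm_curve` is the chain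
rule along the curve `W t`. `dpm_right`: `pmin r (fun p => W p + t • (W p * B p)) f = (∏ p, det (1 + t • B p)) * pmin r W f`
(`W (1 + t B)`, submatrix of a product, `Matrix.det_mul`), and the derivative of `∏ p, det (1 + t • B p)` at `0` is
`∑ p, trace (B p)` (`Matrix.derivative_det_one_add_X_smul` or `Matrix.det_one_add_smul`).
-/

namespace MP2794d1.PG

open Matrix Complex Filter Topology MP2794d1.PC

/-- derivative of `pmin` at `W` in the direction `X` -/
noncomputable def dpm {n m : ℕ} (r : Fin m → ℕ) (W X : (p : Fin m) → Matrix (Fin n) (Fin (r p)) ℂ)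
    (f : PIdx n m r) : ℂ := deriv (fun t : ℂ => pmin r (fun p => W p + t • X p) f) 0

/-- explicit derivative of a minor -/
noncomputable def C2_dmin {n r : ℕ} (W X : Matrix (Fin n) (Fin r) ℂ) (φ : Fin r → Fin n) : ℂ :=
  ∑ σ : Equiv.Perm (Fin r), ((Equiv.Perm.sign σ : ℤ) : ℂ) *
    ∑ i, (∏ j ∈ Finset.univ.erase i, W (φ (σ j)) j) * X (φ (σ i)) i

theorem C2_minor {n r : ℕ} (W : ℂ → Matrix (Fin n) (Fin r) ℂ) (X : Matrix (Fin n) (Fin r) ℂ)
    (z : ℂ) (h : ∀ i j, HasDerivAt (fun t => W t i j) (X i j) z) (φ : Fin r → Fin n) :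
    HasDerivAt (fun t => minor (W t) φ) (C2_dmin (W z) X φ) z := by
  have h1 : (fun t => minor (W t) φ) =
      fun t => ∑ σ : Equiv.Perm (Fin r), ((Equiv.Perm.sign σ : ℤ) : ℂ) *
        ∏ i, W t (φ (σ i)) i := by
    funext q
    unfold minor
    rw [Matrix.det_apply']
    rfl
  rw [h1]
  unfold C2_dmin
  refine HasDerivAt.fun_sum fun σ _ => ?_
  refine HasDerivAt.const_mul _ ?_
  have h2 := HasDerivAt.fun_finsetProd (u := (Finset.univ : Finset (Fin r)))
    (f := fun i t => W t (φ (σ i)) i) (f' := fun i => X (φ (σ i)) i) (x := z)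
    (fun i _ => h (φ (σ i)) i)
  simpa [smul_eq_mul] using h2

theorem C2_pmin {n m : ℕ} (r : Fin m → ℕ) (W : ℂ → (p : Fin m) → Matrix (Fin n) (Fin (r p)) ℂ)
    (X : (p : Fin m) → Matrix (Fin n) (Fin (r p)) ℂ) (z : ℂ)
    (h : ∀ p i j, HasDerivAt (fun t => W t p i j) (X p i j) z) (f : PIdx n m r) :
    HasDerivAt (fun t => pmin r (W t) f)
      (∑ p, (∏ q ∈ Finset.univ.erase p, minor (W z q) (f q)) * C2_dmin (W z p) (X p) (f p)) z := by
  have h2 := HasDerivAt.fun_finsetProd (u := (Finset.univ : Finset (Fin m)))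
    (f := fun p t => minor (W t p) (f p)) (f' := fun p => C2_dmin (W z p) (X p) (f p)) (x := z)
    (fun p _ => C2_minor (fun t => W t p) (X p) z (h p) (f p))
  have h3 : (fun t => pmin r (W t) f) = fun t => ∏ p, minor (W t p) (f p) := rfl
  rw [h3]
  simpa [smul_eq_mul] using h2

theorem C2_line {n m : ℕ} (r : Fin m → ℕ) (W X : (p : Fin m) → Matrix (Fin n) (Fin (r p)) ℂ)
    (f : PIdx n m r) :
    dpm r W X f =
      ∑ p, (∏ q ∈ Finset.univ.erase p, minor (W q) (f q)) * C2_dmin (W p) (X p) (f p) := by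
  have h1 : ∀ p i j, HasDerivAt (fun t : ℂ => (W p + t • X p) i j) (X p i j) 0 := by
    intro p i j
    have h2 : HasDerivAt (fun t : ℂ => W p i j + t * X p i j) (1 * X p i j) 0 :=
      ((hasDerivAt_id (0 : ℂ)).mul_const (X p i j)).const_add (W p i j)
    rw [one_mul] at h2
    exact h2
  have h3 := (C2_pmin r (fun t p => W p + t • X p) X 0 h1 f).deriv
  simp only [zero_smul, add_zero] at h3
  exact h3

theorem dpm_add {n m : ℕ} (r : Fin m → ℕ) (W X Y : (p : Fin m) → Matrix (Fin n) (Fin (r p)) ℂ)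
    (f : PIdx n m r) : dpm r W (fun p => X p + Y p) f = dpm r W X f + dpm r W Y f := by
  rw [C2_line, C2_line, C2_line, ← Finset.sum_add_distrib]
  refine Finset.sum_congr rfl fun p _ => ?_
  rw [← mul_add]
  congr 1
  unfold C2_dmin
  rw [← Finset.sum_add_distrib]
  refine Finset.sum_congr rfl fun σ _ => ?_
  rw [← mul_add, ← Finset.sum_add_distrib]
  congr 1
  refine Finset.sum_congr rfl fun i _ => ?_
  rw [Matrix.add_apply, mul_add]

theorem dpm_smul {n m : ℕ} (r : Fin m → ℕ) (W X : (p : Fin m) → Matrix (Fin n) (Fin (r p)) ℂ)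
    (a : ℂ) (f : PIdx n m r) : dpm r W (fun p => a • X p) f = a * dpm r W X f := by
  rw [C2_line, C2_line, Finset.mul_sum]
  refine Finset.sum_congr rfl fun p _ => ?_
  rw [mul_left_comm]
  congr 1
  unfold C2_dmin
  rw [Finset.mul_sum]
  refine Finset.sum_congr rfl fun σ _ => ?_
  rw [mul_left_comm]
  congr 1
  rw [Finset.mul_sum]
  refine Finset.sum_congr rfl fun i _ => ?_
  rw [Matrix.smul_apply, smul_eq_mul]
  ring

theorem dpm_curve {n m : ℕ} (r : Fin m → ℕ) (W : ℂ → (p : Fin m) → Matrix (Fin n) (Fin (r p)) ℂ)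
    (X : (p : Fin m) → Matrix (Fin n) (Fin (r p)) ℂ) (z : ℂ)
    (h : ∀ p i j, HasDerivAt (fun t => W t p i j) (X p i j) z) (f : PIdx n m r) :
    HasDerivAt (fun t => pmin r (W t) f) (dpm r (W z) X f) z := by
  rw [C2_line]
  exact C2_pmin r W X z h f

theorem C2_det {r : ℕ} (B : Matrix (Fin r) (Fin r) ℂ) :
    HasDerivAt (fun t : ℂ => (1 + t • B).det) B.trace 0 := by
  have h1 : (fun t : ℂ => (1 + t • B).det) = fun t : ℂ =>
      Polynomial.eval t (1 + (Polynomial.X : Polynomial ℂ) • B.map Polynomial.C).det := by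
    funext t
    rw [← Polynomial.coe_evalRingHom, RingHom.map_det]
    congr 1
    ext i j
    by_cases hij : i = j
    · subst hij
      simp only [Matrix.add_apply, Matrix.one_apply_eq, Matrix.smul_apply, smul_eq_mul,
        Matrix.map_apply, RingHom.mapMatrix_apply, Polynomial.coe_evalRingHom,
        Polynomial.eval_add, Polynomial.eval_one, Polynomial.eval_mul, Polynomial.eval_X,
        Polynomial.eval_C]
    · simp only [Matrix.add_apply, Matrix.one_apply_ne hij, Matrix.smul_apply, smul_eq_mul,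
        Matrix.map_apply, RingHom.mapMatrix_apply, Polynomial.coe_evalRingHom,
        Polynomial.eval_add, Polynomial.eval_zero, Polynomial.eval_mul, Polynomial.eval_X,
        Polynomial.eval_C]
  rw [h1]
  have h2 := Polynomial.hasDerivAt
    ((1 + (Polynomial.X : Polynomial ℂ) • B.map Polynomial.C).det) (0 : ℂ)
  have h3 : Polynomial.eval 0 (Polynomial.derivative
      (1 + (Polynomial.X : Polynomial ℂ) • B.map Polynomial.C).det) = B.trace := by
    rw [Matrix.derivative_det_one_add_X_smul]
  rw [h3] at h2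
  exact h2

theorem dpm_right {n m : ℕ} (r : Fin m → ℕ) (W : (p : Fin m) → Matrix (Fin n) (Fin (r p)) ℂ)
    (B : (p : Fin m) → Matrix (Fin (r p)) (Fin (r p)) ℂ) (f : PIdx n m r) :
    dpm r W (fun p => W p * B p) f = (∑ p, (B p).trace) * pmin r W f := by
  unfold dpm
  have h1 : (fun t : ℂ => pmin r (fun p => W p + t • (W p * B p)) f) =
      fun t : ℂ => (∏ p, (1 + t • B p).det) * pmin r W f := by
    funext t
    unfold pmin
    rw [← Finset.prod_mul_distrib]
    refine Finset.prod_congr rfl fun p _ => ?_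
    unfold minor
    have h2 : W p + t • (W p * B p) = W p * (1 + t • B p) := by
      rw [Matrix.mul_add, Matrix.mul_one, Matrix.mul_smul]
    have h3 : (W p * (1 + t • B p)).submatrix (f p) id =
        (W p).submatrix (f p) id * (1 + t • B p) := by
      ext i j
      simp only [Matrix.submatrix_apply, Matrix.mul_apply, id_eq]
    show ((W p + t • (W p * B p)).submatrix (f p) id).det = _
    rw [h2, h3, Matrix.det_mul, mul_comm]
  rw [h1]
  have h4 : HasDerivAt (fun t : ℂ => ∏ p, (1 + t • B p).det) (∑ p, (B p).trace) 0 := by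
    have h5 := HasDerivAt.fun_finsetProd (u := (Finset.univ : Finset (Fin m)))
      (f := fun p (t : ℂ) => (1 + t • B p).det) (f' := fun p => (B p).trace) (x := (0 : ℂ))
      (fun p _ => C2_det (B p))
    simpa [smul_eq_mul] using h5
  exact (h4.mul_const _).deriv

end MP2794d1.PG
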