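import Mathlib

/-!
C5: primitives on the upper half plane. Cayley: `ψ w = i (1 + w) / (1 - w)` maps `ball 0 1` to the half plane, with inverse
`φ z = (z - i) / (z + i)`. The function `w ↦ b (ψ w) * ψ' w` is holomorphic on `ball 0 1`, so it has a primitive `G` there
(`DifferentiableOn.isExactOn_ball`, Mathlib.Analysis.Complex.HasPrimitives). `u z = G (φ z)`:
`u' z = b (ψ (φ z)) ψ' (φ z) φ' z = b z`. `u` is differentiable on the open half plane, so analytic.
-/

namespace MP2794d1.PG

open Complex Filter Topology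

theorem C5_im (w : ℂ) (hw : w ∈ Metric.ball (0 : ℂ) 1) : 0 < (I * (1 + w) / (1 - w)).im := by
  rw [mem_ball_zero_iff] at hw
  have h1 : w.re ^ 2 + w.im ^ 2 < 1 := by
    have : ‖w‖ ^ 2 < 1 := by nlinarith [norm_nonneg w]
    rw [← Complex.normSq_eq_norm_sq, Complex.normSq_apply] at this
    nlinarith
  have h2 : 0 < normSq (1 - w) := by
    rw [normSq_pos, sub_ne_zero]
    rintro rfl
    rw [norm_one] at hw
    exact lt_irrefl _ hw
  rw [div_im]
  have e : (I * (1 + w)).im * (1 - w).re / normSq (1 - w) -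
      (I * (1 + w)).re * (1 - w).im / normSq (1 - w) =
      (1 - (w.re ^ 2 + w.im ^ 2)) / normSq (1 - w) := by
    rw [← sub_div]
    congr 1
    simp
    ring
  rw [e]
  exact div_pos (by linarith) h2

theorem C5_ball (z : ℂ) (hz : 0 < z.im) : (z - I) / (z + I) ∈ Metric.ball (0 : ℂ) 1 := by
  have h2 : 0 < ‖z + I‖ := by
    rw [norm_pos_iff]
    intro h
    have := congrArg Complex.im h
    simp at this
    linarith
  rw [mem_ball_zero_iff, norm_div, div_lt_one h2]
  have h3 : normSq (z - I) < normSq (z + I) := by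
    rw [normSq_apply, normSq_apply]
    simp
    nlinarith
  rw [normSq_eq_norm_sq, normSq_eq_norm_sq] at h3
  exact lt_of_pow_lt_pow_left₀ 2 (norm_nonneg _) h3

theorem exists_primitive (b : ℂ → ℂ) (hb : ∀ z : ℂ, 0 < z.im → AnalyticAt ℂ b z) :
    ∃ u : ℂ → ℂ, (∀ z : ℂ, 0 < z.im → AnalyticAt ℂ u z) ∧ ∀ z : ℂ, 0 < z.im → deriv u z = b z := by
  have hne : ∀ w ∈ Metric.ball (0 : ℂ) 1, (1 : ℂ) - w ≠ 0 := by
    intro w hw h
    rw [mem_ball_zero_iff] at hw
    rw [sub_eq_zero] at h
    rw [← h, norm_one] at hw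
    exact lt_irrefl _ hw
  have hd : DifferentiableOn ℂ (fun w => b (I * (1 + w) / (1 - w)) * (2 * I / (1 - w) ^ 2))
      (Metric.ball (0 : ℂ) 1) := by
    intro w hw
    have h1 : DifferentiableAt ℂ (fun w => I * (1 + w) / (1 - w)) w := by
      refine DifferentiableAt.div ?_ ?_ (hne w hw) <;> fun_prop
    have h2 : DifferentiableAt ℂ (fun w => b (I * (1 + w) / (1 - w))) w :=
      DifferentiableAt.comp (g := b) (f := fun w => I * (1 + w) / (1 - w)) w
        ((hb _ (C5_im w hw)).differentiableAt) h1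
    have h3 : DifferentiableAt ℂ (fun w => 2 * I / (1 - w) ^ 2) w := by
      refine DifferentiableAt.div (by fun_prop) (by fun_prop) (pow_ne_zero 2 (hne w hw))
    exact (h2.mul h3).differentiableWithinAt
  obtain ⟨G, hG⟩ := hd.isExactOn_ball
  have hzI : ∀ z : ℂ, 0 < z.im → z + I ≠ 0 := by
    intro z hz h
    have := congrArg Complex.im h
    simp at this
    linarith
  have hu : ∀ z : ℂ, 0 < z.im → HasDerivAt (fun z => G ((z - I) / (z + I))) (b z) z := by
    intro z hz
    have h0 := hzI z hz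
    have h1 : HasDerivAt (fun z : ℂ => (z - I) / (z + I))
        ((1 * (z + I) - (z - I) * 1) / (z + I) ^ 2) z :=
      ((hasDerivAt_id z).sub_const I).div ((hasDerivAt_id z).add_const I) h0
    have h2 := (hG _ (C5_ball z hz)).comp z h1
    have e1 : (1 : ℂ) - (z - I) / (z + I) = 2 * I / (z + I) := by
      field_simp
      ring
    have e2 : (1 : ℂ) + (z - I) / (z + I) = 2 * z / (z + I) := by
      field_simp
      ring
    have hI : (I : ℂ) ≠ 0 := I_ne_zero
    have e3 : I * (1 + (z - I) / (z + I)) / (1 - (z - I) / (z + I)) = z := by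
      rw [e1, e2]
      field_simp
    have e4 : b (I * (1 + (z - I) / (z + I)) / (1 - (z - I) / (z + I))) *
        (2 * I / (1 - (z - I) / (z + I)) ^ 2) * ((1 * (z + I) - (z - I) * 1) / (z + I) ^ 2) =
        b z := by
      rw [e3, e1]
      have e5 : (1 * (z + I) - (z - I) * 1) = 2 * I := by ring
      rw [e5]
      field_simp
    rw [e4] at h2
    exact h2
  refine ⟨fun z => G ((z - I) / (z + I)), fun z hz => ?_, fun z hz => (hu z hz).deriv⟩
  have hopen : IsOpen {z : ℂ | 0 < z.im} := isOpen_lt continuous_const continuous_im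
  have hdu : DifferentiableOn ℂ (fun z => G ((z - I) / (z + I))) {z : ℂ | 0 < z.im} :=
    fun z hz => (hu z hz).differentiableAt.differentiableWithinAt
  exact hdu.analyticAt (hopen.mem_nhds hz)

end MP2794d1.PG
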