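import Pool.Agent.Lib.MP_2794d1_ag.PG.C4
import Pool.Agent.Lib.MP_2794d1_ag.PG.C5
import Pool.Agent.Lib.MP_2794d1_ag.PC.CH6
import Pool.Agent.Lib.MP_2794d1_ag.F06

/-!
C6: if the velocity of the Hodge filtration is everywhere a multiple of `N`, then the filtration moves in an orbit of
`exp (ℂ N)`. `vel_analytic`: the proof of `cont_vel` (F05) with the analytic function `b` of `f04_line` kept (take for the open
set the whole half plane). Let `u` be a primitive of `b` on the half plane (`exists_primitive`). Fix `p` and consider the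
family `F y = (V.F p y).map (uexp N (-u y)).mulVecLin` on the half plane: `HolAt` (multiply the frame of `V.hol` by
`uexp N (-u y)`, invertible); a section `t` of `F` is `t y = uexp N (-u y) *ᵥ s y`, `s y = uexp N (u y) *ᵥ t y` a section of
`V.F p`; `s' = u' N s + uexp N u t'` (`F06_uexp`), so `t' = uexp N (-u) (s' - b N s) ∈ F` by `Vel`. By `const_family` the family is
constant, equal to `F0 p := F i`; so `V.F p y = (F0 p).map (uexp N (u y))`. `StageOne` with `a = 0`. `ne`: by `CH6_ne` some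
velocity is not zero: `b z ≠ 0` for some `z` (uniqueness of the velocity: `c • N - c' • N ∈ FEnd 0` and `N_not_mem`; or: if
`b = 0` on the strip then `b = 0` on the half plane, identity theorem
`AnalyticOnNhd.eqOn_zero_of_preconnected_of_eventuallyEq_zero`, then `Vel V N z 0` for all `z`, which contradicts
`CH6_ne` together with uniqueness).
-/

namespace MP2794d1.PG

open Matrix Complex Filter Topology MP2794d1.PC

theorem vel_analytic {n : ℕ} (V : PolVHS n) (c : Cusp V) (hN : c.N ≠ 0)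
    (hv : ∀ z : ℂ, 0 < z.im → ∃ b : ℂ, Vel V (cm c.N) z b) :
    ∃ b : ℂ → ℂ, (∀ z : ℂ, 0 < z.im → AnalyticAt ℂ b z) ∧
      ∀ z : ℂ, 0 < z.im → Vel V (cm c.N) z (b z) := by
  have hN0 : ∀ z : ℂ, 0 < z.im → cm c.N ∉ FEnd (fun p => V.F p z) 0 := N_not_mem V c hN
  refine f04_line (fun z b => Vel V (cm c.N) z b) ?_ {z : ℂ | 0 < z.im}
    (isOpen_lt continuous_const Complex.continuous_im) ⟨Complex.I, by simp⟩ (fun z hz => hz) hv
  intro z₀ hz₀
  obtain ⟨P, hP1, hP2⟩ := f04_proj V hz₀
  refine ⟨{p : ℤ // p ∈ Finset.Icc V.lo V.hi} × Fin n × Fin n, inferInstance,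
    fun k z => ((1 - P k.1 z) * f05_D (P k.1) z * P k.1 z) k.2.1 k.2.2,
    fun k z => ((1 - P k.1 z) * cm c.N * P k.1 z) k.2.1 k.2.2, ?_, ?_, ?_, ?_⟩
  · intro k
    refine f01_mul (f01_mul ?_ ?_) (hP1 _) _ _
    · intro i j
      simp only [Matrix.sub_apply]
      exact analyticAt_const.sub (hP1 _ i j)
    · intro i j
      exact (hP1 _ i j).deriv
  · intro k
    refine f01_mul (f01_mul ?_ ?_) (hP1 _) _ _
    · intro i j
      simp only [Matrix.sub_apply]
      exact analyticAt_const.sub (hP1 _ i j)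
    · intro i j
      exact analyticAt_const
  · by_contra hcon
    push Not at hcon
    apply hN0 z₀ hz₀
    rw [f04_mem V hz₀ hP2.self_of_nhds (cm c.N)]
    intro p hp
    ext i j
    exact hcon (⟨p, hp⟩, i, j)
  · have him : ∀ᶠ z : ℂ in 𝓝 z₀, 0 < z.im :=
      (isOpen_lt continuous_const Complex.continuous_im).mem_nhds hz₀
    have hana : ∀ᶠ z in 𝓝 z₀, ∀ p ∈ Finset.Icc V.lo V.hi, ∀ i j,
        AnalyticAt ℂ (fun z => P p z i j) z := by
      rw [Filter.eventually_all_finset]
      intro p _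
      rw [Filter.eventually_all]
      intro i
      rw [Filter.eventually_all]
      intro j
      exact (hP1 p i j).eventually_analyticAt
    filter_upwards [hP2.eventually_nhds, him, hana] with z hz1 hz2 hz3 c'
    rw [f05_vel V (cm c.N) hz2 (fun p i j hp => hz3 p hp i j) hz1 c']
    constructor
    · rintro h1 ⟨⟨p, hp⟩, i, j⟩
      have h3 := congrFun (congrFun (h1 p hp) i) j
      exact h3
    · intro h1 p hp
      ext i j
      exact h1 (⟨p, hp⟩, i, j)

/-- the velocity is unique -/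
theorem c6_unique {n : ℕ} (V : PolVHS n) (N : Matrix (Fin n) (Fin n) ℂ) {z : ℂ} (hz : 0 < z.im)
    (hN : N ∉ FEnd (fun p => V.F p z) 0) {b b' : ℂ} (h : Vel V N z b) (h' : Vel V N z b') :
    b = b' := by
  by_contra hne
  apply hN
  intro p x hx0
  have hx : x ∈ V.F p z := hx0
  rw [add_zero]
  obtain ⟨P, hP1, hP2⟩ := (V.hol p z hz).proj
  have h2 : ∀ i, AnalyticAt ℂ (fun y => (P y *ᵥ x) i) z := by
    intro i
    have h4 : (fun y => (P y *ᵥ x) i) = fun y => ∑ j ∈ Finset.univ, P y i j * x j := rfl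
    rw [h4]
    exact Finset.analyticAt_fun_sum _ fun j _ => (hP1 i j).mul analyticAt_const
  have h3 : ∀ᶠ y in 𝓝 z, P y *ᵥ x ∈ V.F p y := by
    filter_upwards [hP2] with y hy
    rw [hy.2]
    exact ⟨x, rfl⟩
  have h5 : P z *ᵥ x = x := by
    obtain ⟨h6, h7⟩ := hP2.self_of_nhds
    rw [h7, proj_mem_iff h6] at hx
    exact hx
  have h7 := h p _ h2 h3
  have h8 := h' p _ h2 h3
  rw [h5] at h7 h8
  have h9 := Submodule.sub_mem _ h8 h7
  have e : ∀ w : Fin n → ℂ, (w - b' • (N *ᵥ x)) - (w - b • (N *ᵥ x)) = (b - b') • (N *ᵥ x) := by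
    intro w
    rw [sub_smul]
    abel
  rw [e] at h9
  exact ((V.F p z).smul_mem_iff (sub_ne_zero.2 hne)).1 h9

theorem c6_uexp_analytic {n : ℕ} (N : Matrix (Fin n) (Fin n) ℂ) {v : ℂ → ℂ} {z : ℂ}
    (hv : AnalyticAt ℂ v z) (i j : Fin n) : AnalyticAt ℂ (fun y => uexp N (v y) i j) z := by
  have h1 : (fun y => uexp N (v y) i j) = fun y => ∑ k ∈ Finset.range n,
      (v y ^ k / (k.factorial : ℂ)) * (N ^ k) i j := by
    funext y
    unfold uexp
    rw [Matrix.sum_apply]
    rfl
  rw [h1]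
  refine Finset.analyticAt_fun_sum _ fun k _ => ?_
  exact ((hv.pow k).div analyticAt_const (by exact_mod_cast k.factorial_ne_zero)).mul
    analyticAt_const

theorem c6_hol {n : ℕ} (N : Matrix (Fin n) (Fin n) ℂ) (hN : N ^ n = 0)
    {F : ℂ → Submodule ℂ (Fin n → ℂ)} {v : ℂ → ℂ} {z : ℂ} (hv : AnalyticAt ℂ v z)
    (h : HolAt F z) : HolAt (fun y => (F y).map (uexp N (v y)).mulVecLin) z := by
  obtain ⟨r, W, hW, hev⟩ := h
  refine ⟨r, fun y => uexp N (v y) * W y, f01_mul (c6_uexp_analytic N hv) hW, ?_⟩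
  filter_upwards [hev] with y hy
  constructor
  · have h1 : Function.Injective (W y).mulVec := by
      rw [Matrix.mulVec_injective_iff]
      exact hy.1
    refine Matrix.mulVec_injective_iff.1 ?_
    intro a b hab
    apply h1
    have h2 : ∀ x, uexp N (-(v y)) *ᵥ ((uexp N (v y) * W y) *ᵥ x) = W y *ᵥ x := by
      intro x
      rw [Matrix.mulVec_mulVec, ← Matrix.mul_assoc, uexp_neg_mul N hN, Matrix.one_mul]
    rw [← h2 a, ← h2 b]
    exact congrArg _ hab
  · show (F y).map _ = _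
    rw [hy.2, Matrix.mulVecLin_mul, LinearMap.range_comp]

theorem stageOne_of_vel {n : ℕ} (V : PolVHS n) (c : Cusp V) (hN : c.N ≠ 0)
    (hv : ∀ z : ℂ, 0 < z.im → ∃ b : ℂ, Vel V (cm c.N) z b) :
    ∃ (a : ℝ) (u : ℂ → ℂ) (F0 : ℤ → Submodule ℂ (Fin n → ℂ)), StageOne V c a u F0 := by
  obtain ⟨b, hb1, hb2⟩ := vel_analytic V c hN hv
  obtain ⟨u, hu1, hu2⟩ := exists_primitive b hb1
  have hnil := cm_pow c.N c.nil
  set N := cm c.N with hNdef
  have hI : (0 : ℝ) < Complex.I.im := by
    rw [Complex.I_im]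
    exact one_pos
  set U : Set ℂ := {z : ℂ | 0 < z.im} with hU
  have hUo : IsOpen U := isOpen_lt continuous_const Complex.continuous_im
  have hUc : Convex ℝ U := convex_halfSpace_im_gt 0
  have hconst : ∀ p : ℤ, ∀ z ∈ U, ∀ z' ∈ U,
      (V.F p z).map (uexp N (-(u z))).mulVecLin = (V.F p z').map (uexp N (-(u z'))).mulVecLin := by
    intro p
    refine const_family (fun y => (V.F p y).map (uexp N (-(u y))).mulVecLin) U hUo
      hUc.isPreconnected ?_ ?_
    · intro z hz
      exact c6_hol N hnil (hu1 z hz).neg (V.hol p z hz)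
    · intro z hz t ht hmem
      have hs1 : ∀ i, AnalyticAt ℂ (fun y => (uexp N (u y) *ᵥ t y) i) z := by
        intro i
        have h4 : (fun y => (uexp N (u y) *ᵥ t y) i) =
            fun y => ∑ j ∈ Finset.univ, uexp N (u y) i j * t y j := rfl
        rw [h4]
        exact Finset.analyticAt_fun_sum _ fun j _ => (c6_uexp_analytic N (hu1 z hz) i j).mul (ht j)
      have hs2 : ∀ᶠ y in 𝓝 z, uexp N (u y) *ᵥ t y ∈ V.F p y := by
        filter_upwards [hmem] with y hy
        obtain ⟨x, hx, hxt⟩ := hy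
        rw [← hxt, Matrix.mulVecLin_apply, Matrix.mulVec_mulVec, uexp_mul_neg N hnil,
          Matrix.one_mulVec]
        exact hx
      have h1 := hb2 z hz p _ hs1 hs2
      have h2 := F06_uexp N hnil (hu1 z hz).differentiableAt.hasDerivAt (F06_hasDerivAt_vec ht)
      have h3 : (fun i => deriv (fun y => (uexp N (u y) *ᵥ t y) i) z) =
          deriv u z • (N *ᵥ (uexp N (u z) *ᵥ t z)) +
            uexp N (u z) *ᵥ (fun i => deriv (fun y => t y i) z) := by
        funext i
        exact ((hasDerivAt_pi.1 h2) i).deriv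
      rw [h3, hu2 z hz, add_sub_cancel_left] at h1
      refine ⟨_, h1, ?_⟩
      rw [Matrix.mulVecLin_apply, Matrix.mulVec_mulVec, uexp_neg_mul N hnil, Matrix.one_mulVec]
  refine ⟨0, u, fun p => (V.F p Complex.I).map (uexp N (-(u Complex.I))).mulVecLin, le_rfl,
    fun y _ hy => hu1 y hy, ?_, ?_⟩
  · intro y _ hy p
    rw [← hconst p y hy Complex.I hI]
    apply le_antisymm
    · intro x hx
      refine ⟨uexp N (-(u y)) *ᵥ x, ⟨x, hx, rfl⟩, ?_⟩
      rw [Matrix.mulVecLin_apply, Matrix.mulVec_mulVec, uexp_mul_neg N hnil, Matrix.one_mulVec]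
    · rintro _ ⟨_, ⟨x, hx, rfl⟩, rfl⟩
      rw [Matrix.mulVecLin_apply, Matrix.mulVecLin_apply, Matrix.mulVec_mulVec,
        uexp_mul_neg N hnil, Matrix.one_mulVec]
      exact hx
  · by_contra hcon
    push Not at hcon
    have hbA : AnalyticOnNhd ℂ b U := fun z hz => hb1 z hz
    have hnear : b =ᶠ[𝓝 Complex.I] 0 := by
      have hO : IsOpen {y : ℂ | |y.re| < 1 ∧ 0 < y.im} :=
        (isOpen_lt Complex.continuous_re.abs continuous_const).inter
          (isOpen_lt continuous_const Complex.continuous_im)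
      have hmem : Complex.I ∈ {y : ℂ | |y.re| < 1 ∧ 0 < y.im} := by simp
      filter_upwards [hO.mem_nhds hmem] with y hy
      have := hcon y hy.1 hy.2
      rw [hu2 y hy.2] at this
      exact this
    have hz0 := hbA.eqOn_zero_of_preconnected_of_eventuallyEq_zero hUc.isPreconnected
      (show Complex.I ∈ U from hI) hnear
    obtain ⟨z, hz, b', hb', hv'⟩ := CH6_ne V c hN hv
    have h1 := c6_unique V (cm c.N) hz (N_not_mem V c hN z hz) hv' (hb2 z hz)
    have h2 : b z = 0 := hz0 hz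
    exact hb' (h1.trans h2)

end MP2794d1.PG
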