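import Pool.Agent.Lib.MP_2794d1_ag.PG.B8
import Pool.Agent.Lib.MP_2794d1_ag.PG.C1
import Pool.Agent.Lib.MP_2794d1_ag.PG.C3
import Pool.Agent.Lib.MP_2794d1_ag.S03

/-!
C7: if the velocity is not everywhere a multiple of `N` then the lower bound holds. `vel_of_theta`: `s' - T s ∈ V.F p z`
(`section_theta`, J06) and `(T - b N) s ∈ V.F p z`. There is `z₁` such that no `b` is a velocity; if
`a N + b T ∈ FEnd 0` at `z₁` with `b ≠ 0` then `T - (-a / b) N ∈ FEnd 0`, contradiction; so `b = 0`, and `a = 0` by `N_not_mem`.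
`exists_datum'` with `r = rk V`, `transversal`, `exists_minor3'`, `exists_LB`.
-/

namespace MP2794d1.PG

open Matrix Complex Filter Topology MP2794d1.PC

theorem vel_of_theta {n : ℕ} (V : PolVHS n) {z : ℂ} (hz : 0 < z.im) (N : Matrix (Fin n) (Fin n) ℂ)
    (b : ℂ) (h : TV V z - b • N ∈ FEnd (fun p => V.F p z) 0) : Vel V N z b := by
  intro p s hs hF
  have h1 := section_theta V hz p s hs hF
  have h2 := h p (s z) hF.self_of_nhds
  rw [add_zero] at h2
  have h3 : (fun i => deriv (fun y => s y i) z) - b • (N *ᵥ s z) =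
      ((fun i => deriv (fun y => s y i) z) - TV V z *ᵥ s z) + (TV V z - b • N) *ᵥ s z := by
    rw [Matrix.sub_mulVec, Matrix.smul_mulVec]
    abel
  rw [h3]
  exact (V.F p z).add_mem h1 h2

theorem caseB {n : ℕ} (V : PolVHS n) (c : Cusp V) (hN : c.N ≠ 0)
    (hnv : ¬ ∀ z : ℂ, 0 < z.im → ∃ b : ℂ, Vel V (cm c.N) z b) :
    ∃ α : Fin 3 → PIdx n (len V) (rk V), LB (PL V (len V) (rk V)) α := by
  push Not at hnv
  obtain ⟨z₁, h₁, hz₁⟩ := hnv
  obtain ⟨D, hL, hG⟩ := exists_datum' V c (rk V) rfl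
  have hI : ∀ a b : ℂ, a • cm c.N + b • TV V z₁ ∈ FEnd (fun p => V.F p z₁) 0 → a = 0 ∧ b = 0 := by
    intro a b hab
    have hb : b = 0 := by
      by_contra hb
      apply hz₁ (-a / b)
      apply vel_of_theta V h₁
      have h1 := (FEnd (fun p => V.F p z₁) 0).smul_mem b⁻¹ hab
      have h2 : b⁻¹ • (a • cm c.N + b • TV V z₁) = TV V z₁ - (-a / b) • cm c.N := by
        rw [smul_add, smul_smul, smul_smul, inv_mul_cancel₀ hb, one_smul, sub_eq_add_neg, ← neg_smul,
          add_comm]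
        congr 2
        field_simp
      rwa [h2] at h1
    refine ⟨?_, hb⟩
    by_contra ha
    rw [hb, zero_smul, add_zero] at hab
    have h1 := (FEnd (fun p => V.F p z₁) 0).smul_mem a⁻¹ hab
    rw [smul_smul, inv_mul_cancel₀ ha, one_smul] at h1
    exact N_not_mem V c hN z₁ h₁ h1
  obtain ⟨M, hM, hLM, hind⟩ := transversal V c D hL hG z₁ h₁ hI
  obtain ⟨α, hα⟩ := exists_minor3' (M z₁) (fun i => deriv (fun z => M z i) z₁) (D.dG *ᵥ M z₁) hind
  have h := exists_LB D z₁ h₁ M hM hLM α hα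
  refine ⟨α, ?_⟩
  intro z hz δ hδ
  obtain ⟨C, hC, h2⟩ := h z hz δ hδ
  refine ⟨C, hC, fun k hk c A hA hcA hex ε hε hsm => ?_⟩
  exact h2 k hk c A hA hcA hex ε hε (fun y hy hy0 v hv => hsm y hy hy0 v ((hL y v).1 hv))

end MP2794d1.PG
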