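import Pool.Agent.Lib.MP_2794d1_ag.PG.C6
import Pool.Agent.Lib.MP_2794d1_ag.X01

/-!
C8: the Shimura alternative.
-/

namespace MP2794d1.PG

open Matrix Complex Filter Topology MP2794d1.PC

theorem caseA {n : ℕ} (V : PolVHS n) (hΔ : FiniteType V.grp) (c : Cusp V) (hN : c.N ≠ 0)
    (hv : ∀ z : ℂ, 0 < z.im → ∃ b : ℂ, Vel V (cm c.N) z b) (z₀ : ℂ) (hz₀ : 0 < z₀.im) (H : ℝ)
    (hcm : IsCM V z₀ H) : IsShimuraLine V c.N := by
  obtain ⟨a, u, F0, h1⟩ := stageOne_of_vel V c hN hv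
  obtain ⟨g, hg⟩ := MP2794d1.exists_noncomm V hΔ c hN h1
  exact X01_line V c hN h1 g hg z₀ hz₀ H hcm

end MP2794d1.PG
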