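import Mathlib

/-!
D1: numerics for the final step of the count. Divide by `A`, logarithms: `n log 2 ≤ Λ k ^ 3 log (k + 1) + 2 k log W +
2 log (k + 1)`. With `log (k + 1) ≤ k`, `k ≤ K₁ L`, `L = log B ≥ log 2 > 1 / 2`, `log W ≤ C₂ L`, `Λ ≥ 1`: the right side is
`≤ Λ (K₁ ^ 4 L ^ 4 + 2 K₁ C₂ L ^ 2 + 2 K₁ L) ≤ Λ K L ^ 4` (`L ^ 2 ≤ 4 L ^ 4`, `L ≤ 8 L ^ 4`).
-/

namespace MP2794d1.PG

theorem num_core (K₁ : ℝ) (C₂ : ℕ) (hK₁ : 1 ≤ K₁) : ∃ K : ℝ, 0 < K ∧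
    ∀ B : ℝ, 2 ≤ B → ∀ W : ℝ, 1 ≤ W → W ≤ B ^ C₂ → ∀ Λ : ℝ, 1 ≤ Λ → ∀ k n : ℕ, 1 ≤ k →
      (k : ℝ) ≤ K₁ * Real.log B → ∀ A : ℝ, 0 < A →
      A * Real.exp (-(Λ * ((k : ℝ) ^ 3 * Real.log ((k : ℝ) + 1)))) ≤
        W ^ (2 * k) * (((k : ℝ) + 1) ^ 2 * A) * (1 / 2) ^ n →
      (n : ℝ) ≤ K * Λ * Real.log B ^ 4 := by
  refine ⟨2 * (K₁ ^ 4 + 8 * (K₁ * C₂) + 16 * K₁), by positivity, ?_⟩
  intro B hB W hW hWB Λ hΛ k n hk hkL A hA h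
  have hl2 : (1 : ℝ) / 2 ≤ Real.log 2 := by
    have := Real.log_two_gt_d9
    linarith
  have hL : (1 : ℝ) / 2 ≤ Real.log B :=
    le_trans hl2 (Real.log_le_log (by norm_num) hB)
  set L := Real.log B with hLdef
  have hk1 : (1 : ℝ) ≤ k := by exact_mod_cast hk
  have hkp : (0 : ℝ) < (k : ℝ) + 1 := by linarith
  have hWp : (0 : ℝ) < W := by linarith
  have h1 : Real.exp (-(Λ * ((k : ℝ) ^ 3 * Real.log ((k : ℝ) + 1)))) ≤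
      W ^ (2 * k) * ((k : ℝ) + 1) ^ 2 * (1 / 2) ^ n := by
    have h2 : A * Real.exp (-(Λ * ((k : ℝ) ^ 3 * Real.log ((k : ℝ) + 1)))) ≤
        A * (W ^ (2 * k) * ((k : ℝ) + 1) ^ 2 * (1 / 2) ^ n) := by
      calc _ ≤ _ := h
        _ = _ := by ring
    exact le_of_mul_le_mul_left h2 hA
  have h3 := Real.log_le_log (Real.exp_pos _) h1
  rw [Real.log_exp, Real.log_mul (by positivity) (by positivity),
    Real.log_mul (by positivity) (by positivity), Real.log_pow, Real.log_pow, Real.log_pow] at h3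
  have h4 : Real.log (1 / 2 : ℝ) = - Real.log 2 := by
    rw [one_div, Real.log_inv]
  rw [h4] at h3
  have h5 : Real.log ((k : ℝ) + 1) ≤ k := by
    have := Real.log_le_sub_one_of_pos hkp
    linarith
  have h5' : 0 ≤ Real.log ((k : ℝ) + 1) := Real.log_nonneg (by linarith)
  have h6 : Real.log W ≤ C₂ * L := by
    have := Real.log_le_log hWp hWB
    rwa [Real.log_pow] at this
  have h6' : 0 ≤ Real.log W := Real.log_nonneg hW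
  push_cast at h3
  have h7 : (n : ℝ) * Real.log 2 ≤ Λ * ((k : ℝ) ^ 3 * Real.log ((k : ℝ) + 1)) +
      2 * k * Real.log W + 2 * Real.log ((k : ℝ) + 1) := by linarith
  have h8 : (n : ℝ) / 2 ≤ (n : ℝ) * Real.log 2 := by
    have : (0 : ℝ) ≤ n := Nat.cast_nonneg n
    nlinarith
  have hL0 : 0 < L := by linarith
  have hk0 : (0 : ℝ) ≤ k := by linarith
  have h9 : (k : ℝ) ^ 3 * Real.log ((k : ℝ) + 1) ≤ (K₁ * L) ^ 4 := by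
    calc (k : ℝ) ^ 3 * Real.log ((k : ℝ) + 1) ≤ (k : ℝ) ^ 3 * k := by gcongr
      _ = (k : ℝ) ^ 4 := by ring
      _ ≤ (K₁ * L) ^ 4 := by gcongr
  have h10 : 2 * (k : ℝ) * Real.log W ≤ 2 * (K₁ * L) * (C₂ * L) := by gcongr
  have h11 : 2 * Real.log ((k : ℝ) + 1) ≤ 2 * (K₁ * L) := by linarith
  have hL2 : L ^ 2 ≤ 4 * L ^ 4 := by
    have h12 : 1 ≤ 4 * L ^ 2 := by
      have h13 : ((1 : ℝ) / 2) ^ 2 ≤ L ^ 2 := pow_le_pow_left₀ (by norm_num) hL 2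
      linarith
    calc L ^ 2 = L ^ 2 * 1 := by ring
      _ ≤ L ^ 2 * (4 * L ^ 2) := by gcongr
      _ = 4 * L ^ 4 := by ring
  have hL1 : L ≤ 8 * L ^ 4 := by
    have h12 : 1 ≤ 8 * L ^ 3 := by
      have h13 : ((1 : ℝ) / 2) ^ 3 ≤ L ^ 3 := pow_le_pow_left₀ (by norm_num) hL 3
      linarith
    calc L = L * 1 := by ring
      _ ≤ L * (8 * L ^ 3) := by gcongr
      _ = 8 * L ^ 4 := by ring
  have hL4 : 0 < L ^ 4 := by positivity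
  have hK0 : 0 ≤ K₁ := by linarith
  have hC0 : (0 : ℝ) ≤ C₂ := Nat.cast_nonneg C₂
  have e1 : Λ * ((k : ℝ) ^ 3 * Real.log ((k : ℝ) + 1)) ≤ Λ * (K₁ * L) ^ 4 := by gcongr
  have e2 : 2 * (K₁ * L) * (C₂ * L) ≤ Λ * (8 * (K₁ * C₂) * L ^ 4) := by
    calc 2 * (K₁ * L) * (C₂ * L) = 2 * (K₁ * C₂) * L ^ 2 := by ring
      _ ≤ 2 * (K₁ * C₂) * (4 * L ^ 4) := by gcongr
      _ = 1 * (8 * (K₁ * C₂) * L ^ 4) := by ring
      _ ≤ Λ * (8 * (K₁ * C₂) * L ^ 4) := by gcongr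
  have e3 : 2 * (K₁ * L) ≤ Λ * (16 * K₁ * L ^ 4) := by
    calc 2 * (K₁ * L) = 2 * K₁ * L := by ring
      _ ≤ 2 * K₁ * (8 * L ^ 4) := by gcongr
      _ = 1 * (16 * K₁ * L ^ 4) := by ring
      _ ≤ Λ * (16 * K₁ * L ^ 4) := by gcongr
  have e4 : (n : ℝ) / 2 ≤ Λ * (K₁ * L) ^ 4 + Λ * (8 * (K₁ * C₂) * L ^ 4) + Λ * (16 * K₁ * L ^ 4) := by
    linarith
  calc (n : ℝ) = 2 * ((n : ℝ) / 2) := by ring
    _ ≤ 2 * (Λ * (K₁ * L) ^ 4 + Λ * (8 * (K₁ * C₂) * L ^ 4) + Λ * (16 * K₁ * L ^ 4)) := by gcongr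
    _ = 2 * (K₁ ^ 4 + 8 * (K₁ * C₂) + 16 * K₁) * Λ * L ^ 4 := by ring

end MP2794d1.PG
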