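import Pool.Agent.Lib.MP_2794d1_ag.PG.Defs
import Pool.Agent.Lib.MP_2794d1_ag.PG.D2
import Pool.Agent.Lib.MP_2794d1_ag.PC.CC2

/-!
D3: the count on a compact set. `local_count2` at `z₁`: `δ, W` from `schwarz_hp D α z₁` (CC2), the constant `C` of `hs` at
`(z₁, δ)`, `Λ = max C 1` (replacing `C` by the larger `Λ` weakens the lower bound), `C₂` with `W ≤ 2 ^ C₂ ≤ B ^ C₂`;
`count_core C₂` with `U = ball z₁ δ` (subsets `S'` of `S`: all their points are in the ball).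
`compact_count2`: cover `K` by finitely many balls (`IsCompact.elim_nhds_subcover`, as in the proof of `compact_count`, CV1).
-/

namespace MP2794d1.PG

open Matrix Complex MP2794d1.PC

variable {Γ : Subgroup (Matrix.SpecialLinearGroup (Fin 2) ℝ)} {ι : Type} [Fintype ι]
  [DecidableEq ι]

theorem local_count2 (D : Datum Γ ι) {κ : Type} [Fintype κ] (α : Fin 3 → ι) (hs : LB D.L α) (z₁ : ℂ)
    (h₁ : 0 < z₁.im) : ∃ δ : ℝ, 0 < δ ∧ ∃ C : ℝ, 0 < C ∧ ∀ B : ℝ, 2 ≤ B → ∀ S : Finset ℂ,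
      (∀ z ∈ S, z ∈ Metric.ball z₁ δ ∧ ∃ v, D.L z v ∧ IntRep κ B v) →
      (S.card : ℝ) ≤ C * Real.log B ^ 4 := by
  obtain ⟨δ, hδ, him, W, hW, hsch⟩ := schwarz_hp D α z₁ h₁
  obtain ⟨C, hC, hlb⟩ := hs z₁ h₁ δ hδ
  obtain ⟨C₂, hC₂⟩ := pow_unbounded_of_one_lt W (one_lt_two : (1 : ℝ) < 2)
  obtain ⟨K, hK, hcore⟩ := count_core (ι := ι) (κ := κ) C₂
  have hΛ : 1 ≤ max C 1 := le_max_right _ _
  have hΛ0 : 0 < max C 1 := by linarith
  refine ⟨δ, hδ, K * max C 1, by positivity, ?_⟩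
  intro B hB S hS
  have hWB : W ≤ B ^ C₂ := hC₂.le.trans (pow_le_pow_left₀ (by norm_num) hB _)
  refine hcore D.L α (Metric.ball z₁ δ) S B W (max C 1) hB hW hWB hΛ hS ?_ ?_
  · intro k c A hA hcA S' hS' hz z hzU v hv
    exact hsch k c A hA hcA S' (fun w hw => ⟨(hS w (hS' hw)).1, hz w hw⟩) z hzU v hv
  · intro k hk c A hA hcA hex ε hε h
    have h1 := hlb k hk c A hA hcA hex ε hε (fun z hz _ v hv => h z hz v hv)
    refine le_trans ?_ h1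
    have hk0 : (0 : ℝ) ≤ k := Nat.cast_nonneg k
    have h2 : 0 ≤ (k : ℝ) ^ 3 * Real.log ((k : ℝ) + 1) :=
      mul_nonneg (by positivity) (Real.log_nonneg (by linarith))
    have h3 : C * ((k : ℝ) ^ 3 * Real.log ((k : ℝ) + 1)) ≤
        max C 1 * ((k : ℝ) ^ 3 * Real.log ((k : ℝ) + 1)) :=
      mul_le_mul_of_nonneg_right (le_max_left _ _) h2
    exact mul_le_mul_of_nonneg_left (Real.exp_le_exp.mpr (neg_le_neg h3)) hA.le

theorem compact_count2 (D : Datum Γ ι) {κ : Type} [Fintype κ] (α : Fin 3 → ι) (hs : LB D.L α)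
    (K : Set ℂ) (hK : IsCompact K) (hKH : ∀ z ∈ K, 0 < z.im) :
    ∃ C : ℝ, 0 < C ∧ ∀ B : ℝ, 2 ≤ B → ∀ S : Finset ℂ,
      (∀ z ∈ S, z ∈ K ∧ ∃ v, D.L z v ∧ IntRep κ B v) → (S.card : ℝ) ≤ C * Real.log B ^ 4 := by
  classical
  have key : ∀ z : ℂ, ∃ δ : ℝ, 0 < δ ∧ ∃ C : ℝ, 0 < C ∧ (0 < z.im → ∀ B : ℝ, 2 ≤ B →
      ∀ S : Finset ℂ, (∀ w ∈ S, w ∈ Metric.ball z δ ∧ ∃ v, D.L w v ∧ IntRep κ B v) →
        (S.card : ℝ) ≤ C * Real.log B ^ 4) := by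
    intro z
    by_cases hz : 0 < z.im
    · obtain ⟨δ, hδ, C, hC, h⟩ := local_count2 (κ := κ) D α hs z hz
      exact ⟨δ, hδ, C, hC, fun _ => h⟩
    · exact ⟨1, one_pos, 1, one_pos, fun h => absurd h hz⟩
  choose δ hδ C hC h using key
  obtain ⟨t, htK, ht⟩ := hK.elim_nhds_subcover (fun z => Metric.ball z (δ z))
    (fun z _ => Metric.ball_mem_nhds z (hδ z))
  have hC0 : 0 ≤ ∑ z ∈ t, C z := Finset.sum_nonneg fun z _ => (hC z).le
  refine ⟨∑ z ∈ t, C z + 1, by linarith, fun B hB S hS => ?_⟩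
  have hlog : 0 ≤ Real.log B ^ 4 := pow_nonneg (Real.log_nonneg (by linarith)) _
  have h1 : S ⊆ t.biUnion (fun z => S.filter (fun w => w ∈ Metric.ball z (δ z))) := by
    intro w hw
    have h2 := ht (hS w hw).1
    simp only [Set.mem_iUnion] at h2
    obtain ⟨z, hz, hwz⟩ := h2
    simp only [Finset.mem_biUnion, Finset.mem_filter]
    exact ⟨z, hz, hw, hwz⟩
  have h2 : (S.card : ℝ) ≤ ∑ z ∈ t, ((S.filter (fun w => w ∈ Metric.ball z (δ z))).card : ℝ) := by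
    have h3 := (Finset.card_le_card h1).trans Finset.card_biUnion_le
    exact_mod_cast h3
  calc (S.card : ℝ) ≤ ∑ z ∈ t, ((S.filter (fun w => w ∈ Metric.ball z (δ z))).card : ℝ) := h2
    _ ≤ ∑ z ∈ t, C z * Real.log B ^ 4 := by
        refine Finset.sum_le_sum fun z hz => ?_
        refine h z (hKH z (htK z hz)) B hB _ fun w hw => ?_
        rw [Finset.mem_filter] at hw
        exact ⟨hw.2, (hS w hw.1).2⟩
    _ = (∑ z ∈ t, C z) * Real.log B ^ 4 := by rw [Finset.sum_mul]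
    _ ≤ (∑ z ∈ t, C z + 1) * Real.log B ^ 4 := by nlinarith

end MP2794d1.PG
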