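import Pool.Agent.Lib.MP_2794d1_ag.PG.Defs
import Pool.Agent.Lib.MP_2794d1_ag.PC.SA2
import Pool.Agent.Lib.MP_2794d1_ag.PC.CB2

/-!
D4: lower bound for the supremum near `i y`. Same proof as `slb_high` (PC/SC1): `y₀, δ₂, c, X, Y₁` from `step_down`, `C₀` from
`hs` at `(i y₀, δ₂)`. Let `B = (k + 1) ^ 2 A` (`hp_form`). If `ε ≥ B` then `ε ≥ A`. Otherwise `step_down` and `hs` give
`A exp (-(C₀ k ^ 3 ℓ)) ≤ X ^ (2 k) (ε ^ θ B ^ (1 - θ))`, `θ = c / y`, `ℓ = log (k + 1)`. In particular `ε > 0`. With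
`ε ^ θ B ^ (1 - θ) = A (ε / A) ^ θ ((k + 1) ^ 2) ^ (1 - θ) ≤ A (ε / A) ^ θ (k + 1) ^ 2`, dividing by `A` and taking logarithms:
`- θ log (ε / A) ≤ C₀ k ^ 3 ℓ + 2 k log X + 2 ℓ ≤ C₁ k ^ 3 ℓ` (`ℓ > 1 / 2`, `k ≥ 1`), so
`- log (ε / A) ≤ (C₁ / c) y k ^ 3 ℓ`.
-/

namespace MP2794d1.PG

open Matrix Complex MP2794d1.PC

variable {Γ : Subgroup (Matrix.SpecialLinearGroup (Fin 2) ℝ)} {ι : Type} [Fintype ι]
  [DecidableEq ι]

theorem d4_ell {k : ℕ} (hk : 1 ≤ k) : 1 / 2 < Real.log ((k : ℝ) + 1) := by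
  have h1 : Real.log 2 ≤ Real.log ((k : ℝ) + 1) := by
    apply Real.log_le_log (by norm_num)
    have : (1 : ℝ) ≤ k := by exact_mod_cast hk
    linarith
  have h2 := Real.log_two_gt_d9
  linarith

theorem d4_up {C₀ k k3 ℓ LX : ℝ} (hk1 : 1 ≤ k) (hk3 : k ≤ k3) (hℓ : 1 / 2 < ℓ)
    (hLX : 0 ≤ LX) :
    2 * k * LX + 2 * ℓ + C₀ * (k3 * ℓ) ≤ (4 * LX + 2 + C₀) * (k3 * ℓ) := by
  have h1 : k ≤ 2 * (k3 * ℓ) := by
    have a1 : k * 1 ≤ k3 * (2 * ℓ) := mul_le_mul hk3 (by linarith) (by norm_num) (by linarith)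
    linarith
  have h2 : 2 * k * LX ≤ 4 * LX * (k3 * ℓ) := by
    have a2 : LX * k ≤ LX * (2 * (k3 * ℓ)) := mul_le_mul_of_nonneg_left h1 hLX
    linarith
  have h3 : ℓ ≤ k3 * ℓ := le_mul_of_one_le_left (by linarith) (hk1.trans hk3)
  linarith

theorem lb_high (D : Datum Γ ι) (α : Fin 3 → ι) (hs : LB D.L α) : ∃ Y₁ : ℝ, 1 ≤ Y₁ ∧
    ∃ C : ℝ, 0 < C ∧ ∀ y : ℝ, Y₁ ≤ y → ∀ k : ℕ, 1 ≤ k →
    ∀ c : Fin (k + 1) → Fin (k + 1) → ℤ, ∀ A : ℝ, 0 < A → (∀ i j, |(c i j : ℝ)| ≤ A) →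
    (∃ i j, |(c i j : ℝ)| = A) → ∀ ε : ℝ, 0 ≤ ε →
    (∀ z ∈ Metric.ball ((y : ℂ) * Complex.I) (y / 20), 0 < z.im → ∀ v : ι → ℂ, D.L z v →
      ‖hp k c (v ∘ α)‖ ≤ ε * ‖v‖ ^ (2 * k)) →
    A * Real.exp (-(C * y * ((k : ℝ) ^ 3 * Real.log ((k : ℝ) + 1)))) ≤ ε := by
  obtain ⟨y₀, δ₂, c₀, X, Y₁, hy₀, hδ₂, hc0, hc1, hX, hY₁, hstep⟩ := step_down D
  obtain ⟨C₀, hC₀, hS⟩ := hs ((y₀ : ℂ) * Complex.I) (by simpa using hy₀) δ₂ hδ₂
  have hLX : 0 ≤ Real.log X := Real.log_nonneg hX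
  refine ⟨Y₁, hY₁, (4 * Real.log X + 2 + C₀) / c₀, by positivity, ?_⟩
  intro y hy k hk c A hA hcA hcE ε hε hsm
  have hy1 : 1 ≤ y := hY₁.trans hy
  have hy0 : 0 < y := by linarith
  have hℓ := d4_ell hk
  set ℓ := Real.log ((k : ℝ) + 1) with hℓd
  have hk1 : (1 : ℝ) ≤ k := by exact_mod_cast hk
  have hk3 : (k : ℝ) ≤ (k : ℝ) ^ 3 := by
    calc (k : ℝ) = (k : ℝ) ^ 1 := (pow_one _).symm
      _ ≤ (k : ℝ) ^ 3 := pow_le_pow_right₀ hk1 (by norm_num)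
  set Q : ℝ := (k : ℝ) ^ 3 * ℓ with hQ
  have hQ0 : 0 ≤ Q := by positivity
  set C₁ : ℝ := 4 * Real.log X + 2 + C₀ with hC₁
  have hC1 : 0 < C₁ := by positivity
  have hCQ : 0 ≤ C₁ / c₀ * y * Q := by positivity
  set B : ℝ := ((k : ℝ) + 1) ^ 2 * A with hBd
  have hBA : A ≤ B := by
    have : (1 : ℝ) ≤ ((k : ℝ) + 1) ^ 2 := one_le_pow₀ (by linarith)
    exact le_mul_of_one_le_left hA.le this
  have hB0 : 0 < B := lt_of_lt_of_le hA hBA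
  rcases le_or_gt B ε with hBε | hBε
  · calc A * Real.exp (-(C₁ / c₀ * y * Q)) ≤ A * 1 := by
          apply mul_le_mul_of_nonneg_left _ hA.le
          rw [Real.exp_le_one_iff]; linarith
      _ ≤ ε := by linarith
  have hgood : Good D (2 * k) ((y : ℂ) * Complex.I) (y / 20) ε B (fun v => hp k c (v ∘ α)) :=
    ⟨hp_form k c hcA α, hε, hBε.le, hsm⟩
  have hg2 := hstep y hy (2 * k) ε B _ hgood
  set θ : ℝ := c₀ / y with hθ
  have hθ0 : 0 < θ := by positivity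
  have hθ1 : θ ≤ 1 := by
    rw [hθ, div_le_one hy0]; linarith
  have hfin := hS k hk c A hA hcA hcE (X ^ (2 * k) * (ε ^ θ * B ^ (1 - θ))) hg2.nonneg
    (fun z hz hzi v hv => by
      have h1 := hg2.small z hz hzi v hv
      rw [Matrix.one_mulVec] at h1
      exact h1)
  have hε0 : 0 < ε := by
    rcases hε.lt_or_eq with h | h
    · exact h
    · exfalso
      rw [← h, Real.zero_rpow hθ0.ne', zero_mul, mul_zero] at hfin
      exact absurd hfin (not_le.2 (by positivity))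
  have hkp : (k : ℝ) + 1 = Real.exp ℓ := (Real.exp_log (by linarith)).symm
  have hlB : Real.log B = 2 * ℓ + Real.log A := by
    rw [hBd, Real.log_mul (by positivity) hA.ne', Real.log_pow, ← hℓd]
    norm_num
  have hsum : Real.log A - C₀ * Q ≤
      2 * k * Real.log X + (θ * Real.log ε + (1 - θ) * (2 * ℓ + Real.log A)) := by
    have h1 := Real.log_le_log (by positivity) hfin
    rw [Real.log_mul hA.ne' (Real.exp_pos _).ne', Real.log_exp,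
      Real.log_mul (by positivity) (by positivity), Real.log_pow,
      Real.log_mul (by positivity) (by positivity), Real.log_rpow hε0, Real.log_rpow hB0, hlB] at h1
    push_cast at h1
    linarith
  have hup := d4_up (C₀ := C₀) (k := k) (k3 := (k : ℝ) ^ 3) (ℓ := ℓ) (LX := Real.log X)
    hk1 hk3 hℓ hLX
  rw [← hQ, ← hC₁] at hup
  have hθℓ : 0 ≤ θ * (2 * ℓ) := by positivity
  have h1 : (Real.log A - Real.log ε) * θ ≤ C₁ * Q := by nlinarith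
  have hlog : Real.log A - C₁ / c₀ * y * Q ≤ Real.log ε := by
    have h2 : Real.log A - Real.log ε ≤ C₁ * Q / θ := by
      rw [le_div_iff₀ hθ0]; exact h1
    have h3 : C₁ * Q / θ = C₁ / c₀ * y * Q := by
      rw [hθ]; field_simp
    rw [h3] at h2
    linarith
  calc A * Real.exp (-(C₁ / c₀ * y * Q)) = Real.exp (Real.log A - C₁ / c₀ * y * Q) := by
        rw [Real.exp_sub, Real.exp_log hA, Real.exp_neg]
        rfl
    _ ≤ Real.exp (Real.log ε) := Real.exp_le_exp.mpr hlog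
    _ = ε := Real.exp_log hε0

end MP2794d1.PG
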