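import Pool.Agent.Lib.MP_2794d1_ag.PG.D2
import Pool.Agent.Lib.MP_2794d1_ag.PG.D4
import Pool.Agent.Lib.MP_2794d1_ag.PC.SA3

/-!
D5: the count in the ball `ball (i y) (y / 20)` (same as `count_high`, PC/SC3). `Y₁, C` from `schwarz_high` (SA3) and from
`lb_high`. For `K₂` the number `C₂` from `growth C K₂` (SC2): `W = C y ^ C ≤ B ^ C₂` for `1 ≤ y ≤ K₂ log B`. `count_core C₂` with
`U = ball (i y) (y / 20)` (there `0 < im z`), `Λ = max (C' y) 1 ≤ (C' + 1) y`.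
-/

namespace MP2794d1.PG

open Matrix Complex MP2794d1.PC

variable {Γ : Subgroup (Matrix.SpecialLinearGroup (Fin 2) ℝ)} {ι : Type} [Fintype ι]
  [DecidableEq ι]

theorem count_high2 (D : Datum Γ ι) {κ : Type} [Fintype κ] (α : Fin 3 → ι) (hs : LB D.L α) :
    ∃ Y₁ : ℝ, 1 ≤ Y₁ ∧ ∀ K₂ : ℝ, ∃ C : ℝ, 0 < C ∧ ∀ B : ℝ, 2 ≤ B → ∀ y : ℝ, Y₁ ≤ y →
      y ≤ K₂ * Real.log B → ∀ S : Finset ℂ,
      (∀ z ∈ S, z ∈ Metric.ball ((y : ℂ) * Complex.I) (y / 20) ∧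
        ∃ v, D.L z v ∧ IntRep κ B v) → (S.card : ℝ) ≤ C * y * Real.log B ^ 4 := by
  obtain ⟨Y₁, hY₁, Cs, hCs, hschwarz⟩ := schwarz_high D α
  obtain ⟨Y₂, hY₂, Cl, hCl, hlb⟩ := lb_high D α hs
  refine ⟨max Y₁ Y₂, hY₁.trans (le_max_left _ _), ?_⟩
  intro K₂
  obtain ⟨C₂, hC₂⟩ := growth Cs K₂
  obtain ⟨K, hK, hcore⟩ := count_core (ι := ι) (κ := κ) C₂
  refine ⟨K * (Cl + 1), by positivity, ?_⟩
  intro B hB y hy hyK S hS
  have hy1 : 1 ≤ y := hY₁.trans ((le_max_left _ _).trans hy)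
  have hyY₁ : Y₁ ≤ y := (le_max_left _ _).trans hy
  have hyY₂ : Y₂ ≤ y := (le_max_right _ _).trans hy
  have hL := SC2_logB hB
  have hW1 : 1 ≤ (Cs : ℝ) * y ^ Cs := by
    have h1 : (1 : ℝ) ≤ Cs := by exact_mod_cast hCs
    have h2 : (1 : ℝ) ≤ y ^ Cs := one_le_pow₀ hy1
    nlinarith
  have hWB := hC₂ B hB y hy1 hyK
  have hmain := hcore D.L α (Metric.ball ((y : ℂ) * Complex.I) (y / 20)) S B ((Cs : ℝ) * y ^ Cs)
    (max (Cl * y) 1) hB hW1 hWB (le_max_right _ _) hS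
    (by
      intro k c A hA hcA S' hS' hv' z hz v hv
      exact hschwarz y hyY₁ k c A hA hcA S' (fun s hs' => ⟨(hS s (hS' hs')).1, hv' s hs'⟩) z hz v hv)
    (by
      intro k hk c A hA hcA hmax ε hε hsmall
      have h1 := hlb y hyY₂ k hk c A hA hcA hmax ε hε (fun z hz _ v hv => hsmall z hz v hv)
      refine le_trans ?_ h1
      refine mul_le_mul_of_nonneg_left (Real.exp_le_exp.2 ?_) hA.le
      have h2 : 0 ≤ (k : ℝ) ^ 3 * Real.log ((k : ℝ) + 1) :=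
        mul_nonneg (by positivity) (Real.log_nonneg (by
          have : (0 : ℝ) ≤ k := Nat.cast_nonneg k
          linarith))
      have h3 := mul_le_mul_of_nonneg_right (le_max_left (Cl * y) 1) h2
      linarith)
  have hΛ : max (Cl * y) 1 ≤ (Cl + 1) * y := by
    refine max_le ?_ ?_
    · nlinarith
    · nlinarith
  have hL4 : 0 ≤ Real.log B ^ 4 := by positivity
  calc (S.card : ℝ) ≤ K * max (Cl * y) 1 * Real.log B ^ 4 := hmain
    _ ≤ K * ((Cl + 1) * y) * Real.log B ^ 4 :=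
        mul_le_mul_of_nonneg_right (mul_le_mul_of_nonneg_left hΛ hK.le) hL4
    _ = _ := by ring

end MP2794d1.PG
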