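import Pool.Agent.Lib.MP_2794d1_ag.PG.D5

/-!
D6: the count in the part `Y₂ ≤ im z ≤ K₂ log B` of the strip. Same proof as `strip_sum` (PC/SC4): geometric sum over the
heights `Y₂ (41 / 40) ^ j`, with `count_high2` and exponent `4` instead of `6`.
-/

namespace MP2794d1.PG

open Matrix Complex MP2794d1.PC

variable {Γ : Subgroup (Matrix.SpecialLinearGroup (Fin 2) ℝ)} {ι : Type} [Fintype ι]
  [DecidableEq ι]

/-- A point of the strip in the shell is in the ball. -/
lemma D6_ball (z : ℂ) (T' : ℝ) (hT' : 41 ≤ T') (hre : |z.re| ≤ 1) (h1 : T' ≤ z.im)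
    (h2 : z.im ≤ 41 / 40 * T') : z ∈ Metric.ball ((T' : ℂ) * Complex.I) (T' / 20) := by
  rw [Metric.mem_ball, dist_eq_norm]
  have h3 : ‖z - (T' : ℂ) * Complex.I‖ ≤
      |(z - (T' : ℂ) * Complex.I).re| + |(z - (T' : ℂ) * Complex.I).im| :=
    Complex.norm_le_abs_re_add_abs_im _
  have h4 : (z - (T' : ℂ) * Complex.I).re = z.re := by simp
  have h5 : (z - (T' : ℂ) * Complex.I).im = z.im - T' := by simp
  rw [h4, h5, abs_of_nonneg (by linarith : (0 : ℝ) ≤ z.im - T')] at h3
  linarith

theorem strip_sum2 (D : Datum Γ ι) {κ : Type} [Fintype κ] (α : Fin 3 → ι) (hs : LB D.L α) :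
    ∃ Y₂ : ℝ, 1 ≤ Y₂ ∧ ∀ K₂ : ℝ, ∃ C : ℝ, 0 < C ∧ ∀ B : ℝ, 2 ≤ B → ∀ S : Finset ℂ,
      (∀ z ∈ S, |z.re| ≤ 1 ∧ Y₂ ≤ z.im ∧ z.im ≤ K₂ * Real.log B ∧
        ∃ v, D.L z v ∧ IntRep κ B v) → (S.card : ℝ) ≤ C * Real.log B ^ 5 := by
  classical
  obtain ⟨Y₁, hY₁, h⟩ := count_high2 (κ := κ) D α hs
  have hm1 : Y₁ ≤ max Y₁ 41 := le_max_left _ _
  have hm2 : (41 : ℝ) ≤ max Y₁ 41 := le_max_right _ _
  refine ⟨41 / 40 * max Y₁ 41, by linarith, fun K₂ => ?_⟩
  obtain ⟨C, hC, hc⟩ := h K₂
  have hK1 : (1 : ℝ) ≤ max K₂ 1 := le_max_right _ _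
  have hK2 : K₂ ≤ max K₂ 1 := le_max_left _ _
  refine ⟨41 * C * max K₂ 1, by positivity, fun B hB S hS => ?_⟩
  have hL : 0 ≤ Real.log B := Real.log_nonneg (by linarith)
  have key : ∀ J : ℕ, ∀ T : ℝ, T ≤ (41 / 40 : ℝ) ^ J → T ≤ K₂ * Real.log B → 0 ≤ T →
      ∀ S' : Finset ℂ, S' ⊆ S → (∀ z ∈ S', z.im ≤ T) →
      (S'.card : ℝ) ≤ 41 * C * Real.log B ^ 4 * T := by
    intro J
    induction J with
    | zero =>
      intro T hT _ hT0 S' hS' hz
      have hemp : S' = ∅ := by
        rw [Finset.eq_empty_iff_forall_notMem]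
        intro z hzS
        have h1 := (hS z (hS' hzS)).2.1
        have h2 := hz z hzS
        rw [pow_zero] at hT
        linarith
      rw [hemp, Finset.card_empty]
      have : 0 ≤ 41 * C * Real.log B ^ 4 * T := by positivity
      simpa using this
    | succ J ih =>
      intro T hT ht hT0 S' hS' hz
      by_cases hsmall : T < 41 / 40 * max Y₁ 41
      · have hemp : S' = ∅ := by
          rw [Finset.eq_empty_iff_forall_notMem]
          intro z hzS
          have h1 := (hS z (hS' hzS)).2.1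
          have h2 := hz z hzS
          linarith
        rw [hemp, Finset.card_empty]
        have : 0 ≤ 41 * C * Real.log B ^ 4 * T := by positivity
        simpa using this
      · push Not at hsmall
        have hT' : max Y₁ 41 ≤ 40 / 41 * T := by linarith
        have h1 : ((S'.filter (fun z => z.im < 40 / 41 * T)).card : ℝ) ≤
            41 * C * Real.log B ^ 4 * (40 / 41 * T) := by
          refine ih (40 / 41 * T) ?_ ?_ ?_ _ ?_ ?_
          · rw [pow_succ] at hT
            linarith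
          · linarith
          · linarith
          · exact (Finset.filter_subset _ _).trans hS'
          · intro z hz'
            exact (Finset.mem_filter.1 hz').2.le
        have h2 : ((S'.filter (fun z => ¬ z.im < 40 / 41 * T)).card : ℝ) ≤
            C * (40 / 41 * T) * Real.log B ^ 4 := by
          refine hc B hB (40 / 41 * T) (hm1.trans hT') (by linarith) _ ?_
          intro z hz'
          rw [Finset.mem_filter] at hz'
          obtain ⟨h3, h4⟩ := hz'
          obtain ⟨h5, h6, h7, h8⟩ := hS z (hS' h3)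
          push Not at h4
          refine ⟨D6_ball z (40 / 41 * T) (hm2.trans hT') h5 h4 ?_, h8⟩
          have := hz z h3
          linarith
        have h3 : (S'.card : ℝ) = ((S'.filter (fun z => z.im < 40 / 41 * T)).card : ℝ) +
            ((S'.filter (fun z => ¬ z.im < 40 / 41 * T)).card : ℝ) := by
          have := Finset.card_filter_add_card_filter_not (s := S') (fun z : ℂ => z.im < 40 / 41 * T)
          exact_mod_cast this.symm
        have h4 : 0 ≤ C * Real.log B ^ 4 * T := by positivity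
        rw [h3]
        nlinarith
  rcases S.eq_empty_or_nonempty with hemp | ⟨z₀, hz₀⟩
  · rw [hemp, Finset.card_empty]
    have : 0 ≤ 41 * C * max K₂ 1 * Real.log B ^ 5 := by positivity
    simpa using this
  · have h1 := hS z₀ hz₀
    have ht : 0 ≤ K₂ * Real.log B := by linarith [h1.2.1, h1.2.2.1]
    obtain ⟨J, hJ⟩ := pow_unbounded_of_one_lt (K₂ * Real.log B) (by norm_num : (1 : ℝ) < 41 / 40)
    have h2 := key J (K₂ * Real.log B) hJ.le le_rfl ht S (Finset.Subset.refl _)
      (fun z hz => (hS z hz).2.2.1)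
    have h3 : 0 ≤ 41 * C * Real.log B ^ 5 := by positivity
    calc (S.card : ℝ) ≤ 41 * C * Real.log B ^ 4 * (K₂ * Real.log B) := h2
      _ = 41 * C * Real.log B ^ 5 * K₂ := by ring
      _ ≤ 41 * C * Real.log B ^ 5 * max K₂ 1 := mul_le_mul_of_nonneg_left hK2 h3
      _ = _ := by ring

end MP2794d1.PG
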