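import Pool.Agent.Lib.MP_2794d1_ag.PC.Defs
import Pool.Agent.Lib.MP_2794d1_ag.U00
import Pool.Agent.Lib.MP_2794d1_ag.F07

/-!
# Definitions for the global polylogarithmic count of CM points

`LB L α`: lower bound, in terms of the largest coefficient, for the supremum on small balls of ternary forms along a family of
lines. `PolVHS.pull V σ`: the variation pulled back by a Moebius map.
-/

namespace MP2794d1

open Matrix Complex Filter Topology

namespace PG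

open MP2794d1.PC

/-- Lower bound for the supremum over `ball z₁ δ₁` of integral forms of degree `2k` in the coordinates
`α 0, α 1, α 2` of a family of lines, in terms of the largest coefficient `A`. -/
def LB {ι : Type} [Fintype ι] (L : ℂ → (ι → ℂ) → Prop) (α : Fin 3 → ι) : Prop :=
  ∀ z₁ : ℂ, 0 < z₁.im → ∀ δ₁ : ℝ, 0 < δ₁ → ∃ C : ℝ, 0 < C ∧ ∀ k : ℕ, 1 ≤ k →
    ∀ c : Fin (k + 1) → Fin (k + 1) → ℤ, ∀ A : ℝ, 0 < A → (∀ i j, |(c i j : ℝ)| ≤ A) →
    (∃ i j, |(c i j : ℝ)| = A) → ∀ ε : ℝ, 0 ≤ ε →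
    (∀ z ∈ Metric.ball z₁ δ₁, 0 < z.im → ∀ v : ι → ℂ, L z v →
      ‖hp k c (v ∘ α)‖ ≤ ε * ‖v‖ ^ (2 * k)) →
    A * Real.exp (-(C * ((k : ℝ) ^ 3 * Real.log ((k : ℝ) + 1)))) ≤ ε

end PG

theorem pull_hol {n : ℕ} (V : PolVHS n) (σ : Matrix.SpecialLinearGroup (Fin 2) ℝ) (p : ℤ) (z : ℂ)
    (hz : 0 < z.im) : HolAt (fun w => V.F p (mob σ w)) z := by
  obtain ⟨r, W, hW, hev⟩ := V.hol p (mob σ z) (mob_im_pos σ z hz)
  have hσ := (mob_analytic σ z hz).1
  refine ⟨r, fun w => W (mob σ w), fun i j => ?_, ?_⟩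
  · exact AnalyticAt.comp (g := fun y => W y i j) (f := mob σ) (hW i j) hσ
  · exact hσ.continuousAt.eventually hev

theorem mob_inv_mob (σ : Matrix.SpecialLinearGroup (Fin 2) ℝ) (z : ℂ) (hz : 0 < z.im) :
    mob σ⁻¹ (mob σ z) = z ∧ mob σ (mob σ⁻¹ z) = z := by
  rw [mob_mob _ _ _ hz, mob_mob _ _ _ hz, inv_mul_cancel, mul_inv_cancel, mob_one]
  exact ⟨rfl, rfl⟩

theorem pull_griffiths {n : ℕ} (V : PolVHS n) (σ : Matrix.SpecialLinearGroup (Fin 2) ℝ) (p : ℤ)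
    (z : ℂ) (hz : 0 < z.im) (s : ℂ → (Fin n → ℂ)) (hs : ∀ i, AnalyticAt ℂ (fun y => s y i) z)
    (hF : ∀ᶠ y in 𝓝 z, s y ∈ V.F p (mob σ y)) :
    (fun i => deriv (fun y => s y i) z) ∈ V.F (p - 1) (mob σ z) := by
  have hz' := mob_im_pos σ z hz
  have hσ := mob_analytic σ z hz
  have hτ := mob_analytic σ⁻¹ (mob σ z) hz'
  have hback : mob σ⁻¹ (mob σ z) = z := (mob_inv_mob σ z hz).1
  have hs' : ∀ i, AnalyticAt ℂ (fun y => s (mob σ⁻¹ y) i) (mob σ z) := by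
    intro i
    have h1 : AnalyticAt ℂ (fun y => s y i) (mob σ⁻¹ (mob σ z)) := by rw [hback]; exact hs i
    exact AnalyticAt.comp (g := fun y => s y i) (f := mob σ⁻¹) h1 hτ.1
  have hF' : ∀ᶠ y in 𝓝 (mob σ z), s (mob σ⁻¹ y) ∈ V.F p y := by
    have h1 : Tendsto (mob σ⁻¹) (𝓝 (mob σ z)) (𝓝 z) := by
      have := hτ.1.continuousAt.tendsto
      rwa [hback] at this
    have h2 : ∀ᶠ y : ℂ in 𝓝 (mob σ z), 0 < y.im :=
      (isOpen_lt continuous_const Complex.continuous_im).mem_nhds hz'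
    filter_upwards [h1.eventually hF, h2] with y hy hy2
    rwa [(mob_inv_mob σ y hy2).2] at hy
  have h := V.griffiths p (mob σ z) hz' (fun y => s (mob σ⁻¹ y)) hs' hF'
  have h3 : (fun i => deriv (fun y => s y i) z) =
      deriv (mob σ) z • fun i => deriv (fun y => s (mob σ⁻¹ y) i) (mob σ z) := by
    funext i
    have h4 : (fun y => s y i) =ᶠ[𝓝 z] fun y => s (mob σ⁻¹ (mob σ y)) i := by
      have h5 : ∀ᶠ y : ℂ in 𝓝 z, 0 < y.im :=
        (isOpen_lt continuous_const Complex.continuous_im).mem_nhds hz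
      filter_upwards [h5] with y hy
      rw [(mob_inv_mob σ y hy).1]
    have h6 : HasDerivAt (fun y => s (mob σ⁻¹ (mob σ y)) i)
        (deriv (fun y => s (mob σ⁻¹ y) i) (mob σ z) * deriv (mob σ) z) z :=
      HasDerivAt.comp (h₂ := fun y => s (mob σ⁻¹ y) i) (h := mob σ) z
        (hs' i).differentiableAt.hasDerivAt hσ.1.differentiableAt.hasDerivAt
    rw [h4.deriv_eq, h6.deriv]
    simp [mul_comm]
  rw [h3]
  exact (V.F (p - 1) (mob σ z)).smul_mem _ h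

theorem pull_equiv {n : ℕ} (V : PolVHS n) (σ : Matrix.SpecialLinearGroup (Fin 2) ℝ)
    (g : Matrix.SpecialLinearGroup (Fin 2) ℝ) (hg : σ * g * σ⁻¹ ∈ V.grp) (p : ℤ) (z : ℂ)
    (hz : 0 < z.im) : V.F p (mob σ (mob g z)) = (V.F p (mob σ z)).map
      (im (V.rho ⟨σ * g * σ⁻¹, hg⟩ : Matrix (Fin n) (Fin n) ℤ)).mulVecLin := by
  rw [← V.equiv ⟨σ * g * σ⁻¹, hg⟩ p (mob σ z) (mob_im_pos σ z hz)]
  congr 1
  show mob σ (mob g z) = mob (σ * g * σ⁻¹) (mob σ z)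
  rw [mob_mob _ _ _ hz, mob_mob _ _ _ hz]
  congr 1
  group

/-- the variation pulled back by the Moebius map `σ` (group `σ⁻¹ Δ σ`) -/
noncomputable def PolVHS.pull {n : ℕ} (V : PolVHS n) (σ : Matrix.SpecialLinearGroup (Fin 2) ℝ) : PolVHS n where
  wt := V.wt
  grp := V.grp.comap (MulAut.conj σ).toMonoidHom
  rho := V.rho.comp ((MulAut.conj σ).toMonoidHom.subgroupComap V.grp)
  Q := V.Q
  F := fun p w => V.F p (mob σ w)
  lo := V.lo
  hi := V.hi
  F_lo := fun z hz => V.F_lo _ (mob_im_pos σ z hz)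
  F_hi := fun z hz => V.F_hi _ (mob_im_pos σ z hz)
  flat := fun g => V.flat _
  phs := fun z hz => V.phs _ (mob_im_pos σ z hz)
  hol := fun p z hz => pull_hol V σ p z hz
  griffiths := fun p z hz s hs hF => pull_griffiths V σ p z hz s hs hF
  equiv := fun g p z hz => pull_equiv V σ g.1 g.2 p z hz

end MP2794d1
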