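import Pool.Agent.Lib.MP_2794d1_ag.L03
import Pool.Agent.Lib.MP_2794d1_ag.J07

/-!
F1: the eigenvalues of a local monodromy have absolute value one (Borel). For `z = i y`: `qf_equiv` (J07) with `g = T`:
`qf V (z + 1) (ρ v) = qf V z v`, `ρ v = l v`, so `‖l‖ ^ 2 qf V (z + 1) v = qf V z v` (`qf V z (l • v) = ‖l‖ ^ 2 qf V z v`, from
`qf_adapted` or the definition). `qf_compare` (L03) with `z₀ = z`, `z₁ = z + 1`, `y ≥ 2`: both quotients
`qf V (z + 1) v / qf V z v`, `qf V z v / qf V (z + 1) v` are `≤ exp (C / y)`; `qf_pos`. So `exp (-C / y) ≤ ‖l‖ ^ 2 ≤ exp (C / y)`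
for all `y ≥ 2`; let `y → ∞`.
-/

namespace MP2794d1.PG

open Matrix Complex Filter Topology

theorem F1_smul {n : ℕ} (V : PolVHS n) {z : ℂ} (hz : 0 < z.im) (l : ℂ) (v : Fin n → ℂ) :
    qf V z (l • v) = Complex.normSq l * qf V z v := by
  obtain ⟨S, d, hS⟩ := exists_adapted (V.phs z hz)
  rw [qf_adapted V hz hS, qf_adapted V hz hS, Finset.mul_sum]
  refine Finset.sum_congr rfl fun a _ => ?_
  rw [Matrix.mulVec_smul, Pi.smul_apply, smul_eq_mul, Complex.normSq_mul]

theorem eig_abs {n : ℕ} (V : PolVHS n) (T : V.grp) (hT : ∀ z : ℂ, mob T z = z + 1) (l : ℂ)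
    (v : Fin n → ℂ) (hv : v ≠ 0)
    (he : im (V.rho T : Matrix (Fin n) (Fin n) ℤ) *ᵥ v = l • v) : ‖l‖ = 1 := by
  obtain ⟨C, hC, hcmp⟩ := qf_compare V
  have key : ∀ y : ℝ, 2 ≤ y → Complex.normSq l ≤ Real.exp (C * (1 / y)) ∧
      1 ≤ Real.exp (C * (1 / y)) * Complex.normSq l := by
    intro y hy
    obtain ⟨z, hz⟩ : ∃ z : ℂ, z = y * Complex.I := ⟨_, rfl⟩
    have hzi : z.im = y := by rw [hz]; simp
    have hz0 : 0 < z.im := by rw [hzi]; linarith
    have hz1 : 0 < (z + 1).im := by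
      rw [Complex.add_im, Complex.one_im, add_zero]
      exact hz0
    have e1 := qf_equiv V T hz0 v
    rw [hT, he, F1_smul V hz1] at e1
    have e2 : ‖z + 1 - z‖ = 1 := by
      rw [add_sub_cancel_left, norm_one]
    obtain ⟨h1, h2⟩ := hcmp z (z + 1) hz0 (by rw [e2, hzi]; linarith) v
    rw [e2, hzi] at h1 h2
    have p1 := qf_pos V hz1 hv
    have p0 := qf_pos V hz0 hv
    rw [← e1] at h1 h2
    constructor
    · exact le_of_mul_le_mul_right h2 p1
    · have h3 : 1 * qf V (z + 1) v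
          ≤ (Real.exp (C * (1 / y)) * Complex.normSq l) * qf V (z + 1) v := by
        rw [one_mul, mul_assoc]
        exact h1
      exact le_of_mul_le_mul_right h3 p1
  have hlim : Tendsto (fun y : ℝ => Real.exp (C * (1 / y))) atTop (𝓝 1) := by
    have h1 : Tendsto (fun y : ℝ => C * (1 / y)) atTop (𝓝 (C * 0)) :=
      (tendsto_const_nhds.div_atTop tendsto_id).const_mul C
    rw [mul_zero] at h1
    have h2 := (Real.continuous_exp.tendsto 0).comp h1
    rwa [Real.exp_zero] at h2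
  have h1 : Complex.normSq l ≤ 1 :=
    ge_of_tendsto hlim (by
      filter_upwards [eventually_ge_atTop 2] with y hy
      exact (key y hy).1)
  have h2 : 1 ≤ Complex.normSq l := by
    have h3 := hlim.mul_const (Complex.normSq l)
    rw [one_mul] at h3
    exact ge_of_tendsto h3 (by
      filter_upwards [eventually_ge_atTop 2] with y hy
      exact (key y hy).2)
  have h3 : ‖l‖ ^ 2 = 1 := by
    rw [← Complex.normSq_eq_norm_sq]
    exact le_antisymm h1 h2
  have h4 := norm_nonneg l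
  nlinarith

end MP2794d1.PG
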