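import Pool.Agent.Lib.MP_2794d1_ag.X01

/-!
G1: very high in the cusp there are at most `M` CM points of complexity `≤ h`. `δ, M₀, Y` from `main_final`,
`K = max (2 / δ) ((Y + 1) / log 2)` (so `K log h > Y` for `h ≥ 2`; if `Y + 1 ≤ 0` use `max _ 0`), `M = 3 (M₀ + 1)`. Suppose
`S.card > M`. The map `z ↦ z - ⌊re z⌋` has fibres with at most three elements on `|re z| ≤ 1`
(`Finset.card_le_mul_card_image`), so its image has more than `M₀` elements: choose `M₀ + 1` points `z k ∈ S`, pairwise distinct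
modulo `ℤ`. `main_final` with `H k = h`: `h * h ≤ exp (δ min (im z_k) (im z_{k+1}))` as `δ im z ≥ 2 log h`. It gives
`IsShimuraLine V c.N`, contradiction.
-/

namespace MP2794d1.PG

open Matrix Complex Filter Topology

/-- representative modulo translations -/
noncomputable def g1_f (z : ℂ) : ℂ := z - (⌊z.re⌋ : ℂ)

theorem g1_shift {z w : ℂ} {k : ℤ} (h : z = w + (k : ℂ)) : g1_f z = g1_f w := by
  unfold g1_f
  have h1 : z.re = w.re + (k : ℝ) := by rw [h]; simp
  rw [h1, Int.floor_add_intCast, h]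
  push_cast
  ring

theorem g1_fibre (S : Finset ℂ) (hS : ∀ z ∈ S, |z.re| ≤ 1) (b : ℂ) :
    (S.filter (fun z => g1_f z = b)).card ≤ 3 := by
  have hsub : S.filter (fun z => g1_f z = b) ⊆
      (Finset.Icc (-1 : ℤ) 1).image (fun m : ℤ => b + (m : ℂ)) := by
    intro z hz
    rw [Finset.mem_filter] at hz
    obtain ⟨hzS, hzb⟩ := hz
    have h1 := abs_le.1 (hS z hzS)
    rw [Finset.mem_image]
    refine ⟨⌊z.re⌋, Finset.mem_Icc.2 ⟨?_, ?_⟩, ?_⟩
    · rw [Int.le_floor]
      push_cast
      exact h1.1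
    · have h2 : (⌊z.re⌋ : ℝ) ≤ 1 := (Int.floor_le _).trans h1.2
      exact_mod_cast h2
    · rw [← hzb]
      unfold g1_f
      ring
  calc _ ≤ _ := Finset.card_le_card hsub
    _ ≤ (Finset.Icc (-1 : ℤ) 1).card := Finset.card_image_le
    _ = 3 := by rw [Int.card_Icc]; rfl

theorem high_cmc {n : ℕ} (V : PolVHS n) (hΔ : FiniteType V.grp) (c : UCusp V) (hN : c.N ≠ 0)
    (hns : ¬ IsShimuraLine V c.N) :
    ∃ (M : ℕ) (K : ℝ), ∀ h : ℝ, 2 ≤ h → ∀ S : Finset ℂ,
      (∀ z ∈ S, |z.re| ≤ 1 ∧ K * Real.log h ≤ z.im ∧ IsCMc V z h) → S.card ≤ M := by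
  obtain ⟨δ, hδ, M, Y, hmain⟩ := main_final V hΔ c hN
  have hl2 : 0 < Real.log 2 := Real.log_pos (by norm_num)
  refine ⟨3 * M, max (2 / δ) ((|Y| + 1) / Real.log 2), fun h hh S hS => ?_⟩
  by_contra hcon
  push Not at hcon
  have hlog : Real.log 2 ≤ Real.log h := Real.log_le_log (by norm_num) hh
  have hlog0 : 0 < Real.log h := lt_of_lt_of_le hl2 hlog
  have hY : ∀ z ∈ S, Y < z.im := by
    intro z hz
    have h1 := (hS z hz).2.1
    have h2 : (|Y| + 1) / Real.log 2 * Real.log 2 ≤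
        max (2 / δ) ((|Y| + 1) / Real.log 2) * Real.log h :=
      mul_le_mul (le_max_right _ _) hlog hl2.le (le_trans (by positivity) (le_max_right _ _))
    rw [div_mul_cancel₀ _ hl2.ne'] at h2
    have h3 := le_abs_self Y
    linarith
  have hexp : ∀ z ∈ S, 2 * Real.log h ≤ δ * z.im := by
    intro z hz
    have h1 := (hS z hz).2.1
    have h2 : 2 / δ * Real.log h ≤ z.im :=
      (mul_le_mul_of_nonneg_right (le_max_left _ _) hlog0.le).trans h1
    calc 2 * Real.log h = δ * (2 / δ * Real.log h) := by field_simp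
      _ ≤ δ * z.im := mul_le_mul_of_nonneg_left h2 hδ.le
  have hcard := Finset.card_le_mul_card_image (f := g1_f) S 3
    (fun b _ => g1_fibre S (fun z hz => (hS z hz).1) b)
  have hM : M + 1 ≤ (S.image g1_f).card := by omega
  obtain ⟨t, ht, htc⟩ := Finset.exists_subset_card_eq hM
  let e : Fin (M + 1) ≃ t := (Finset.equivFinOfCardEq htc).symm
  have hex : ∀ i : Fin (M + 1), ∃ z ∈ S, g1_f z = (e i : ℂ) := by
    intro i
    exact Finset.mem_image.1 (ht (e i).2)
  choose z hzS hze using hex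
  refine hns (hmain z (fun _ => h) ?_ (fun k => ⟨hY _ (hzS k), by linarith, (hS _ (hzS k)).2.2⟩) ?_)
  · intro i j hij k hk
    apply hij
    apply e.injective
    apply Subtype.ext
    rw [← hze i, ← hze j]
    exact g1_shift hk
  · intro k
    have h1 : h * h = Real.exp (2 * Real.log h) := by
      rw [two_mul, Real.exp_add, Real.exp_log (by linarith)]
    rw [h1]
    apply Real.exp_le_exp.2
    rcases min_choice (z k.castSucc).im (z k.succ).im with h2 | h2
    · rw [h2]
      exact hexp _ (hzS _)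
    · rw [h2]
      exact hexp _ (hzS _)

end MP2794d1.PG
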