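import Pool.Agent.Lib.MP_2794d1_ag.PG.C1
import Pool.Agent.Lib.MP_2794d1_ag.PG.D3
import Pool.Agent.Lib.MP_2794d1_ag.PG.D6
import Pool.Agent.Lib.MP_2794d1_ag.PG.E2
import Pool.Agent.Lib.MP_2794d1_ag.PG.G1
import Pool.Agent.Lib.MP_2794d1_ag.PC.SV4

/-!
G2: the count in a strip `|re z| ≤ 1, y₀ ≤ im z` at a cusp with `N ≠ 0` (compare `strip_one`, PC/SV4). `c'` from `exists_cusp`
(`c'.N = c.N`), `D` from `exists_datum' V c' r hr`, `C₀` from `cm_rep' V r hr`; `hLB` gives `LB D.L α` (`hL`). `M, K` from `high_cmc`;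
`C₁, K₁, Y₁` from `cm_height V c hN`; `Y₂` from `strip_sum2 D α` (`κ = Fin n → Fin n`). Put `Y = max Y₁ Y₂`. Split `S`
(`Finset.filter`): (a) `K log h ≤ im z`: at most `M`. (b) `Y ≤ im z < K log h`: `IsCM V z (C₁ h ^ K₁)`, so by `cm_rep'` a vector with
`IntRep _ B v`, `B = C₀ (C₁ h ^ K₁) ^ C₀ ≥ 2` (enlarge constants; `IntRep.mono`), `log B ≤ C log h` and
`K log h ≤ K₂ log B` (`K ≥ 0` wlog, `log h ≤ log B` if `B ≥ h`): at most `C (log B) ^ 5`. (c) `y₀ ≤ im z ≤ Y`: compact set,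
`height_compact`, `cm_rep'`, `compact_count2`: at most `C (log B) ^ 4`. Add up: `1 ≤ (2 log h) ^ 5` etc.
-/

namespace MP2794d1.PG

open Matrix Complex Filter Topology MP2794d1.PC

theorem g2_LB {n : ℕ} {V : PolVHS n} {r : Fin (len V) → ℕ} {D : Datum V.grp (PIdx n (len V) r)}
    (hDL : ∀ z v, D.L z v ↔ PL V (len V) r z v) {α : Fin 3 → PIdx n (len V) r}
    (hLB : LB (PL V (len V) r) α) : LB D.L α := by
  have h : D.L = PL V (len V) r := by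
    funext z v
    exact propext (hDL z v)
  rw [h]
  exact hLB

/-- `X = C₁ h ^ K₁`, `B = C₀ X ^ C₀` -/
theorem g2_log {C₀ K₁ : ℕ} {C₁ : ℝ} (hC₀ : 1 ≤ C₀) (hK₁ : 1 ≤ K₁) (hC₁ : 1 ≤ C₁) :
    ∃ L : ℝ, 0 ≤ L ∧ ∀ h : ℝ, 2 ≤ h → 2 ≤ C₁ * h ^ K₁ ∧ 2 ≤ (C₀ : ℝ) * (C₁ * h ^ K₁) ^ C₀ ∧
      h ≤ (C₀ : ℝ) * (C₁ * h ^ K₁) ^ C₀ ∧
      Real.log ((C₀ : ℝ) * (C₁ * h ^ K₁) ^ C₀) ≤ L * Real.log h ∧ 1 ≤ 2 * Real.log h := by
  have l1 : 0 ≤ Real.log C₁ := Real.log_nonneg hC₁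
  have c0 : (0 : ℝ) ≤ C₀ := Nat.cast_nonneg _
  have k0 : (0 : ℝ) ≤ K₁ := Nat.cast_nonneg _
  refine ⟨3 * C₀ * (2 * Real.log C₁ + K₁), by positivity, fun h hh => ?_⟩
  have h1 : h ≤ h ^ K₁ := by
    calc h = h ^ 1 := (pow_one h).symm
      _ ≤ h ^ K₁ := pow_le_pow_right₀ (by linarith) hK₁
  have h2 : h ≤ C₁ * h ^ K₁ := by
    calc h ≤ h ^ K₁ := h1
      _ = 1 * h ^ K₁ := (one_mul _).symm
      _ ≤ C₁ * h ^ K₁ := mul_le_mul_of_nonneg_right hC₁ (by positivity)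
  have h3 : 2 ≤ C₁ * h ^ K₁ := hh.trans h2
  obtain ⟨a1, a2, a3, -⟩ := SV4_log hC₀ h3
  obtain ⟨-, -, -, a4⟩ := SV4_log hC₀ hh
  refine ⟨h3, a1, h2.trans a2, ?_, a4⟩
  have h4 : Real.log (C₁ * h ^ K₁) ≤ (2 * Real.log C₁ + K₁) * Real.log h := by
    rw [Real.log_mul (by linarith) (by positivity), Real.log_pow]
    nlinarith
  calc Real.log ((C₀ : ℝ) * (C₁ * h ^ K₁) ^ C₀) ≤ 3 * C₀ * Real.log (C₁ * h ^ K₁) := a3
    _ ≤ 3 * C₀ * ((2 * Real.log C₁ + K₁) * Real.log h) :=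
        mul_le_mul_of_nonneg_left h4 (by positivity)
    _ = 3 * C₀ * (2 * Real.log C₁ + K₁) * Real.log h := by ring

theorem compact_cmc {n : ℕ} (V : PolVHS n) (c : UCusp V) (r : Fin (len V) → ℕ) (hr : r = rk V)
    (α : Fin 3 → PIdx n (len V) r) (hLB : LB (PL V (len V) r) α) (K : Set ℂ) (hK : IsCompact K)
    (hKH : ∀ z ∈ K, 0 < z.im) :
    ∃ C : ℝ, ∀ h : ℝ, 2 ≤ h → ∀ S : Finset ℂ, (∀ z ∈ S, z ∈ K ∧ IsCMc V z h) →
      (S.card : ℝ) ≤ C * Real.log h ^ 5 := by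
  obtain ⟨c', -, -⟩ := exists_cusp V c
  obtain ⟨D, hDL, -⟩ := exists_datum' V c' r hr
  obtain ⟨C₀, hC₀, hCM⟩ := cm_rep' V r hr
  obtain ⟨C₁, hC₁, hht⟩ := height_compact V K hK hKH
  obtain ⟨C₂, hC₂, hcount⟩ := compact_count2 (κ := Fin n → Fin n) D α (g2_LB hDL hLB) K hK hKH
  obtain ⟨L, hL, hlog⟩ := g2_log (C₀ := C₀) (K₁ := 1) hC₀ le_rfl hC₁
  refine ⟨C₂ * L ^ 4 * 2, fun h hh S hS => ?_⟩
  obtain ⟨hX, hB, -, hlB, hl⟩ := hlog h hh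
  rw [pow_one] at hX hB hlB
  have hl0 : 0 ≤ Real.log h := by linarith
  have h1 : (S.card : ℝ) ≤ C₂ * Real.log ((C₀ : ℝ) * (C₁ * h) ^ C₀) ^ 4 := by
    apply hcount _ hB
    intro z hz
    obtain ⟨hzK, hzc⟩ := hS z hz
    obtain ⟨v, hv1, hv2⟩ := hCM z (hKH z hzK) (C₁ * h) (by linarith)
      (hht z hzK h (by linarith) hzc)
    exact ⟨hzK, v, (hDL z v).2 hv1, hv2⟩
  have hlB0 : 0 ≤ Real.log ((C₀ : ℝ) * (C₁ * h) ^ C₀) := Real.log_nonneg (by linarith)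
  calc (S.card : ℝ) ≤ C₂ * Real.log ((C₀ : ℝ) * (C₁ * h) ^ C₀) ^ 4 := h1
    _ ≤ C₂ * (L * Real.log h) ^ 4 :=
        mul_le_mul_of_nonneg_left (pow_le_pow_left₀ hlB0 hlB 4) hC₂.le
    _ = C₂ * L ^ 4 * (1 * Real.log h ^ 4) := by ring
    _ ≤ C₂ * L ^ 4 * ((2 * Real.log h) * Real.log h ^ 4) :=
        mul_le_mul_of_nonneg_left (mul_le_mul_of_nonneg_right hl (by positivity)) (by positivity)
    _ = C₂ * L ^ 4 * 2 * Real.log h ^ 5 := by ring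

theorem cusp_count {n : ℕ} (V : PolVHS n) (hΔ : FiniteType V.grp) (c : UCusp V) (hN : c.N ≠ 0)
    (hns : ¬ IsShimuraLine V c.N) (r : Fin (len V) → ℕ) (hr : r = rk V)
    (α : Fin 3 → PIdx n (len V) r) (hLB : LB (PL V (len V) r) α) (y₀ : ℝ) (hy₀ : 0 < y₀) :
    ∃ C : ℝ, ∀ h : ℝ, 2 ≤ h → ∀ S : Finset ℂ,
      (∀ z ∈ S, |z.re| ≤ 1 ∧ y₀ ≤ z.im ∧ IsCMc V z h) → (S.card : ℝ) ≤ C * Real.log h ^ 5 := by
  obtain ⟨c', -, -⟩ := exists_cusp V c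
  obtain ⟨D, hDL, -⟩ := exists_datum' V c' r hr
  obtain ⟨C₀, hC₀, hCM⟩ := cm_rep' V r hr
  obtain ⟨M, K, hM⟩ := high_cmc V hΔ c hN hns
  obtain ⟨C₁, K₁, Y₁, hC₁, hK₁, -, hht⟩ := cm_height V c hN
  obtain ⟨Y₂, -, hstrip⟩ := strip_sum2 (κ := Fin n → Fin n) D α (g2_LB hDL hLB)
  obtain ⟨C₂, hC₂, h₂⟩ := hstrip (max K 0)
  obtain ⟨C₃, h₃⟩ := compact_cmc V c r hr α hLB _ (SV4_compact y₀ (max Y₁ Y₂))
    (fun z hz => lt_of_lt_of_le hy₀ hz.2.1)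
  obtain ⟨L, hL, hlog⟩ := g2_log (C₀ := C₀) hC₀ hK₁ hC₁
  refine ⟨C₃ + C₂ * L ^ 5 + M * 2 ^ 5, fun h hh T hT => ?_⟩
  obtain ⟨hX, hB, hhB, hlB, hl⟩ := hlog h hh
  have hl0 : 0 ≤ Real.log h := by linarith
  have c1 : ((T.filter (fun z => z.im ≤ max Y₁ Y₂)).card : ℝ) ≤ C₃ * Real.log h ^ 5 := by
    apply h₃ h hh
    intro z hz
    rw [Finset.mem_filter] at hz
    exact ⟨⟨(hT z hz.1).1, (hT z hz.1).2.1, hz.2⟩, (hT z hz.1).2.2⟩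
  have c2 : ((T.filter (fun z => max Y₁ Y₂ ≤ z.im ∧ z.im ≤ K * Real.log h)).card : ℝ) ≤
      C₂ * Real.log ((C₀ : ℝ) * (C₁ * h ^ K₁) ^ C₀) ^ 5 := by
    apply h₂ _ hB
    intro z hz
    rw [Finset.mem_filter] at hz
    obtain ⟨hz1, hz2, hz3⟩ := hT z hz.1
    refine ⟨hz1, (le_max_right _ _).trans hz.2.1, ?_, ?_⟩
    · calc z.im ≤ K * Real.log h := hz.2.2
        _ ≤ max K 0 * Real.log h := mul_le_mul_of_nonneg_right (le_max_left _ _) hl0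
        _ ≤ max K 0 * Real.log ((C₀ : ℝ) * (C₁ * h ^ K₁) ^ C₀) :=
            mul_le_mul_of_nonneg_left (Real.log_le_log (by linarith) hhB) (le_max_right _ _)
    · obtain ⟨v, hv1, hv2⟩ := hCM z (lt_of_lt_of_le hy₀ hz2) (C₁ * h ^ K₁) (by linarith)
        (hht z hz1 ((le_max_left _ _).trans hz.2.1) h (by linarith) hz3)
      exact ⟨v, (hDL z v).2 hv1, hv2⟩
  have c3 : (T.filter (fun z => K * Real.log h ≤ z.im)).card ≤ M := by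
    apply hM h hh
    intro z hz
    rw [Finset.mem_filter] at hz
    exact ⟨(hT z hz.1).1, hz.2, (hT z hz.1).2.2⟩
  have c4 : T.card ≤ (T.filter (fun z => z.im ≤ max Y₁ Y₂)).card +
      (T.filter (fun z => max Y₁ Y₂ ≤ z.im ∧ z.im ≤ K * Real.log h)).card +
      (T.filter (fun z => K * Real.log h ≤ z.im)).card := by
    have hsub : T ⊆ (T.filter (fun z => z.im ≤ max Y₁ Y₂) ∪
        T.filter (fun z => max Y₁ Y₂ ≤ z.im ∧ z.im ≤ K * Real.log h)) ∪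
        T.filter (fun z => K * Real.log h ≤ z.im) := by
      intro z hz
      simp only [Finset.mem_union, Finset.mem_filter]
      rcases le_total z.im (max Y₁ Y₂) with h3 | h3
      · exact Or.inl (Or.inl ⟨hz, h3⟩)
      · rcases le_total z.im (K * Real.log h) with h4 | h4
        · exact Or.inl (Or.inr ⟨hz, h3, h4⟩)
        · exact Or.inr ⟨hz, h4⟩
    calc T.card ≤ _ := Finset.card_le_card hsub
      _ ≤ _ := (Finset.card_union_le _ _).trans (Nat.add_le_add_right (Finset.card_union_le _ _) _)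
  have c5 : (T.card : ℝ) ≤ ((T.filter (fun z => z.im ≤ max Y₁ Y₂)).card : ℝ) +
      ((T.filter (fun z => max Y₁ Y₂ ≤ z.im ∧ z.im ≤ K * Real.log h)).card : ℝ) +
      ((T.filter (fun z => K * Real.log h ≤ z.im)).card : ℝ) := by exact_mod_cast c4
  have c6 : ((T.filter (fun z => K * Real.log h ≤ z.im)).card : ℝ) ≤ (M : ℝ) := by
    exact_mod_cast c3
  have hlB0 : 0 ≤ Real.log ((C₀ : ℝ) * (C₁ * h ^ K₁) ^ C₀) := Real.log_nonneg (by linarith)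
  have e1 : C₂ * Real.log ((C₀ : ℝ) * (C₁ * h ^ K₁) ^ C₀) ^ 5 ≤ C₂ * L ^ 5 * Real.log h ^ 5 := by
    calc C₂ * Real.log ((C₀ : ℝ) * (C₁ * h ^ K₁) ^ C₀) ^ 5 ≤ C₂ * (L * Real.log h) ^ 5 :=
          mul_le_mul_of_nonneg_left (pow_le_pow_left₀ hlB0 hlB 5) hC₂.le
      _ = C₂ * L ^ 5 * Real.log h ^ 5 := by ring
  have q0 : (1 : ℝ) ≤ 2 ^ 5 * Real.log h ^ 5 := by
    calc (1 : ℝ) = 1 ^ 5 := (one_pow 5).symm
      _ ≤ (2 * Real.log h) ^ 5 := pow_le_pow_left₀ (by norm_num) hl 5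
      _ = 2 ^ 5 * Real.log h ^ 5 := by ring
  have e3 : (M : ℝ) ≤ M * 2 ^ 5 * Real.log h ^ 5 := by
    calc (M : ℝ) = M * 1 := (mul_one _).symm
      _ ≤ M * (2 ^ 5 * Real.log h ^ 5) := mul_le_mul_of_nonneg_left q0 (Nat.cast_nonneg _)
      _ = M * 2 ^ 5 * Real.log h ^ 5 := by ring
  calc (T.card : ℝ) ≤ C₃ * Real.log h ^ 5 + C₂ * L ^ 5 * Real.log h ^ 5 +
        M * 2 ^ 5 * Real.log h ^ 5 := by linarith
    _ = (C₃ + C₂ * L ^ 5 + M * 2 ^ 5) * Real.log h ^ 5 := by ring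

end MP2794d1.PG
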