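import Pool.Agent.Lib.MP_2794d1_ag.PG.A2
import Pool.Agent.Lib.MP_2794d1_ag.PG.A3
import Pool.Agent.Lib.MP_2794d1_ag.PG.A4
import Pool.Agent.Lib.MP_2794d1_ag.PG.F4
import Pool.Agent.Lib.MP_2794d1_ag.PG.G3

namespace MP2794d1.PG

open Matrix Complex Filter Topology MP2794d1.PC

theorem count_at {n : ℕ} (V : PolVHS n) (hΔ : FiniteType V.grp) (hns : ∀ N, ¬ IsShimuraLine V N)
    (α : Fin 3 → PIdx n (len V) (rk V)) (hLB : LB (PL V (len V) (rk V)) α)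
    (σ T : Matrix.SpecialLinearGroup (Fin 2) ℝ)
    (hT : T ∈ V.grp) (h : ∀ w : ℂ, 0 < w.im → mob T (mob σ w) = mob σ (w + 1)) :
    ∃ C : ℝ, ∀ h : ℝ, 2 ≤ h → ∀ S : Finset ℂ,
      (∀ w ∈ S, |w.re| ≤ 1 ∧ 1 ≤ w.im ∧ IsCMc V (mob σ w) h) →
      (S.card : ℝ) ≤ C * Real.log h ^ 5 := by
  obtain ⟨k, hk, ⟨c⟩⟩ := exists_ucusp V σ T hT h
  have hk1 : (1 : ℝ) ≤ k := by
    have h1 : 0 < k := by exact_mod_cast hk
    exact_mod_cast h1
  have hLB' : LB (fun w v => PL V (len V) (rk V) (mob (σ * dg k hk) w) v) α :=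
    LB_pull _ α hLB (σ * dg k hk)
  have hr : rk V = rk (V.pull (σ * dg k hk)) := (pull_rk V _).symm
  have key : ∃ C : ℝ, ∀ h : ℝ, 2 ≤ h → ∀ S : Finset ℂ,
      (∀ z ∈ S, |z.re| ≤ 1 ∧ 1 / (k : ℝ) ≤ z.im ∧ IsCMc (V.pull (σ * dg k hk)) z h) →
      (S.card : ℝ) ≤ C * Real.log h ^ 5 := by
    by_cases hN : c.N = 0
    · exact cusp_count0 (V.pull (σ * dg k hk)) c hN (rk V) hr α hLB' (1 / k) (by positivity)
    · exact cusp_count (V.pull (σ * dg k hk)) (pull_finiteType V _ hΔ) c hN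
        (fun hs => hns _ (pull_shimura V _ _ hs)) (rk V) hr α hLB' (1 / k) (by positivity)
  obtain ⟨C, hC⟩ := key
  refine ⟨C, fun H hH S hS => ?_⟩
  have hinj : Function.Injective (fun w : ℂ => w / (k : ℂ)) := by
    intro a b hab
    have hk0 : (k : ℂ) ≠ 0 := by
      have : (k : ℝ) ≠ 0 := hk.ne'
      exact_mod_cast this
    exact (div_left_inj' hk0).1 hab
  rw [← Finset.card_image_of_injective S hinj]
  apply hC H hH
  intro z hz
  obtain ⟨w, hw, rfl⟩ := Finset.mem_image.1 hz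
  obtain ⟨h1, h2, h3⟩ := hS w hw
  have hcast : (k : ℂ) = ((k : ℝ) : ℂ) := by norm_num
  have hre : (w / (k : ℂ)).re = w.re / k := by
    rw [hcast, Complex.div_ofReal_re]
  have him : (w / (k : ℂ)).im = w.im / k := by
    rw [hcast, Complex.div_ofReal_im]
  show |(w / (k : ℂ)).re| ≤ 1 ∧ 1 / (k : ℝ) ≤ (w / (k : ℂ)).im ∧
    IsCMc (V.pull (σ * dg k hk)) (w / (k : ℂ)) H
  refine ⟨?_, ?_, ?_⟩
  · rw [hre, abs_div, abs_of_pos hk]
    exact div_le_one_of_le₀ (h1.trans hk1) hk.le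
  · rw [him]
    gcongr
  · rw [pull_isCMc]
    have hpos : 0 < (w / (k : ℂ)).im := by
      rw [him]
      positivity
    rw [← mob_mob _ _ _ hpos, mob_dg]
    have e : ((k : ℝ) : ℂ) * (w / (k : ℂ)) = w := by
      rw [← hcast]
      apply mul_div_cancel₀
      have : (k : ℝ) ≠ 0 := hk.ne'
      exact_mod_cast this
    rw [e]
    exact h3

end MP2794d1.PG
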