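import Pool.Agent.Lib.MP_2794d1_ag.PG.C7
import Pool.Agent.Lib.MP_2794d1_ag.PG.C8
import Pool.Agent.Lib.MP_2794d1_ag.PG.G5

/-!
G6: the main theorem.
-/

namespace MP2794d1.PG

open Matrix Complex Filter Topology MP2794d1.PC

theorem main_global {n : ℕ} (V : PolVHS n) (hΔ : FiniteType V.grp) (c : UCusp V) (hN : c.N ≠ 0) :
    (∃ N, IsShimuraLine V N) ∨
    ∃ C : ℝ, ∀ h : ℝ, 2 ≤ h → ∃ S : Finset ℂ, (S.card : ℝ) ≤ C * Real.log h ^ 5 ∧
      ∀ z : ℂ, 0 < z.im → IsCMc V z h → ∃ g : V.grp, ∃ w ∈ S, z = mob g w := by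
  by_cases hs : ∃ N, IsShimuraLine V N
  · exact Or.inl hs
  refine Or.inr ?_
  push Not at hs
  obtain ⟨c', -, hc'⟩ := exists_cusp V c
  have hN' : c'.N ≠ 0 := by rw [hc']; exact hN
  by_cases hv : ∀ z : ℂ, 0 < z.im → ∃ b : ℂ, Vel V (cm c'.N) z b
  · refine ⟨0, fun h _ => ⟨∅, by simp, fun z hz hcm => ?_⟩⟩
    exfalso
    obtain ⟨A, h1, h2, -⟩ := hcm
    apply hs c'.N
    refine caseA V hΔ c' hN' hv z hz (∑ i, ∑ j, |(A i j : ℝ)|) ⟨A, fun i j => ?_, h1, h2⟩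
    calc |(A i j : ℝ)| ≤ ∑ j, |(A i j : ℝ)| :=
          Finset.single_le_sum (f := fun j => |(A i j : ℝ)|) (fun _ _ => abs_nonneg _)
            (Finset.mem_univ j)
      _ ≤ ∑ i, ∑ j, |(A i j : ℝ)| :=
          Finset.single_le_sum (f := fun i => ∑ j, |(A i j : ℝ)|)
            (fun _ _ => Finset.sum_nonneg fun _ _ => abs_nonneg _) (Finset.mem_univ i)
  · obtain ⟨α, hα⟩ := caseB V c' hN' hv
    exact global_count V hΔ c hs α hα

end MP2794d1.PG
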